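import Pool.Agent.Work.MP_1060d1_pr.SUB.Base

/-!
Increasing observables are monotone; the submodular bound at the empty configuration.
-/

open Filter Topology
open scoped NNReal

namespace MP1060

variable {V : Type*} [DecidableEq V]

theorem IncO.le_update {f : Obs V} (hf : IncO f) (ζ : V → Bool) (x : V) (b : Bool) (hb : ζ x ≤ b) :
    f ζ ≤ f (Function.update ζ x b) := by
  have h := hf x ζ
  rw [D_apply] at h
  cases hζ : ζ x with
  | false =>
    cases b with
    | false => rw [← hζ, Function.update_eq_self]
    | true =>
      have h1 : Function.update ζ x false = ζ := by rw [← hζ, Function.update_eq_self]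
      rw [h1] at h
      linarith
  | true =>
    cases b with
    | false =>
      rw [hζ] at hb
      exact absurd hb (by decide)
    | true => rw [← hζ, Function.update_eq_self]

theorem piecewise_tendsto (ξ η : V → Bool) :
    Tendsto (fun F : Finset V => F.piecewise η ξ) atTop (𝓝 η) := by
  rw [tendsto_pi_nhds]
  intro x
  refine tendsto_const_nhds.congr' ?_
  filter_upwards [eventually_ge_atTop ({x} : Finset V)] with F hF
  have hx : x ∈ F := hF (Finset.mem_singleton_self x)
  rw [Finset.piecewise_eq_of_mem _ _ _ hx]

theorem IncO.mono {f : Obs V} (hf : IncO f) : Monotone (f : (V → Bool) → ℝ) := by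
  intro ξ η h
  have h1 : ∀ F : Finset V, f ξ ≤ f (F.piecewise η ξ) := by
    intro F
    induction F using Finset.induction_on with
    | empty => rw [Finset.piecewise_empty]
    | insert x F hx ih =>
      rw [Finset.piecewise_insert]
      refine ih.trans (hf.le_update _ x (η x) ?_)
      rw [Finset.piecewise_eq_of_notMem _ _ _ hx]
      exact h x
  have h2 : Tendsto (fun F : Finset V => f (F.piecewise η ξ)) atTop (𝓝 (f η)) :=
    (f.continuous.tendsto η).comp (piecewise_tendsto ξ η)
  exact ge_of_tendsto' h2 h1

/-- the indicator configuration of a finite set -/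
def ind (Λ : Finset V) : V → Bool := fun x => decide (x ∈ Λ)

theorem ind_tendsto (Λ : ℕ → Finset V) (hm : Monotone Λ) (hex : ∀ x, ∃ n, x ∈ Λ n) :
    Tendsto (fun n => ind (Λ n)) atTop (𝓝 (fun _ : V => true)) := by
  rw [tendsto_pi_nhds]
  intro x
  obtain ⟨n, hn⟩ := hex x
  refine tendsto_const_nhds.congr' ?_
  filter_upwards [eventually_ge_atTop n] with m hmn
  have hx : x ∈ Λ m := hm hmn hn
  unfold ind
  rw [decide_eq_true hx]

theorem ind_empty : ind (∅ : Finset V) = fun _ => false := by
  funext x
  simp [ind]

theorem ind_insert (z : V) (Λ : Finset V) : ind (insert z Λ) = Function.update (ind Λ) z true := by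
  funext x
  by_cases h : x = z
  · subst h
    simp [ind]
  · rw [Function.update_of_ne h]
    simp [ind, h]

theorem ind_update_false {z : V} {Λ : Finset V} (h : z ∉ Λ) :
    Function.update (ind Λ) z false = ind Λ := by
  have h1 : ind Λ z = false := by simp [ind, h]
  rw [← h1, Function.update_eq_self]

theorem SubO.D_ind {f : Obs V} (hf : SubO f) (z : V) (Λ : Finset V) (hz : z ∉ Λ) :
    D z f (ind Λ) ≤ D z f (fun _ => false) := by
  induction Λ using Finset.induction_on with
  | empty => rw [ind_empty]
  | insert y Λ hy ih =>
    have hzy : z ≠ y := fun h => hz (by rw [h]; exact Finset.mem_insert_self _ _)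
    have hz' : z ∉ Λ := fun h => hz (Finset.mem_insert_of_mem h)
    refine le_trans ?_ (ih hz')
    have h1 := hf y z (ind Λ) fun h => hzy h.symm
    change D z f (Function.update (ind Λ) y true) - D z f (Function.update (ind Λ) y false) ≤ 0
      at h1
    rw [ind_insert]
    rw [ind_update_false hy] at h1
    linarith

theorem SubO.star {f : Obs V} (hf : SubO f) (Λ : Finset V) :
    f (ind Λ) - f (fun _ => false) ≤ ∑ z ∈ Λ, D z f (fun _ => false) := by
  induction Λ using Finset.induction_on with
  | empty => rw [ind_empty, Finset.sum_empty, sub_self]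
  | insert z Λ hz ih =>
    rw [Finset.sum_insert hz]
    have h1 := hf.D_ind z Λ hz
    rw [D_apply, ind_update_false hz] at h1
    rw [ind_insert]
    linarith

theorem IncO_closed : IsClosed {f : Obs V | IncO f} := by
  have h1 : {f : Obs V | IncO f} = ⋂ y : V, ⋂ ξ : V → Bool, {f : Obs V | 0 ≤ D y f ξ} := by
    ext f
    simp only [Set.mem_ofPred_eq, Set.mem_iInter]
    rfl
  rw [h1]
  exact isClosed_iInter fun y => isClosed_iInter fun ξ =>
    isClosed_le continuous_const ((continuous_eval_const (F := Obs V) ξ).comp (D y).continuous)

theorem occ_incO (x : V) : IncO (occ x) := by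
  intro y ξ
  rw [D_apply, occ_apply, occ_apply]
  by_cases h : x = y
  · subst h
    simp
  · rw [Function.update_of_ne h, Function.update_of_ne h, sub_self]

theorem occ_subO (x : V) : SubO (occ x) := by
  intro y z ξ hyz
  rw [DD_apply]
  simp only [occ_apply]
  by_cases h : x = z
  · subst h
    simp
  · simp only [Function.update_of_ne h]
    simp

theorem occ_dependsOn (x : V) : DependsOn (occ x : (V → Bool) → ℝ) (({x} : Finset V) : Set V) := by
  intro ξ η h
  have h1 : ξ x = η x := h x (by simp)
  rw [occ_apply, occ_apply, h1]

end MP1060
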