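import Pool.Agent.Work.MP_1060d1_pr.SUB.Cone
import Pool.Agent.Work.MP_1060d1_pr.SUB.Order

/-!
Affine nearest neighbour drifts along a permutation `s` of the sites, and the cone of submodular
observables with the ratio inequality `f(11) - f(10) ≥ ρ (f(10) - f(00))` on every bond.
-/

open Filter Topology
open scoped NNReal

namespace MP1060

variable {V : Type*} [DecidableEq V]

/-- the affine drift as a function of (left, own, right) -/
noncomputable def adr (a0 aL aR b0 bL bR : ℝ) (l x r : Bool) : ℝ :=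
  if x then -(b0 + bL * (if l then 0 else 1) + bR * (if r then 0 else 1))
  else a0 + aL * (if l then 1 else 0) + aR * (if r then 1 else 0)

/-- affine drift functions along `s`, `t` (`t` is the inverse of `s`) -/
noncomputable def gA (a0 aL aR b0 bL bR : ℝ) (s t : V → V) (x : V) : Obs V :=
  ⟨fun ξ => adr a0 aL aR b0 bL bR (ξ (t x)) (ξ x) (ξ (s x)), by
    have h : Continuous (fun q : Bool × Bool × Bool => adr a0 aL aR b0 bL bR q.1 q.2.1 q.2.2) :=
      continuous_of_discreteTopology
    have h2 : Continuous (fun ξ : V → Bool => ((ξ (t x), ξ x, ξ (s x)) : Bool × Bool × Bool)) :=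
      (continuous_apply (t x)).prodMk ((continuous_apply x).prodMk (continuous_apply (s x)))
    exact h.comp h2⟩

omit [DecidableEq V] in
theorem gA_apply (a0 aL aR b0 bL bR : ℝ) (s t : V → V) (x : V) (ξ : V → Bool) :
    gA a0 aL aR b0 bL bR s t x ξ = adr a0 aL aR b0 bL bR (ξ (t x)) (ξ x) (ξ (s x)) := rfl

/-- write `φ (ξ u) (ξ v)` at `v` -/
def wr (φ : Bool → Bool → Bool) (u v : V) : C(V → Bool, V → Bool) :=
  ⟨fun ξ => Function.update ξ v (φ (ξ u) (ξ v)), by
    have h : Continuous (fun q : Bool × Bool => φ q.1 q.2) := continuous_of_discreteTopology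
    have h2 : Continuous (fun ξ : V → Bool => ((ξ u, ξ v) : Bool × Bool)) :=
      (continuous_apply u).prodMk (continuous_apply v)
    have h3 : Continuous (fun ξ : V → Bool => φ (ξ u) (ξ v)) := h.comp h2
    exact continuous_id.update v h3⟩

theorem wr_apply (φ : Bool → Bool → Bool) (u v : V) (ξ : V → Bool) :
    wr φ u v ξ = Function.update ξ v (φ (ξ u) (ξ v)) := rfl

/-- the finite cyclic structure -/
structure Cyc (s t : V → V) (F : Finset V) : Prop where
  ts : ∀ x, t (s x) = x
  st : ∀ x, s (t x) = x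
  memS : ∀ x ∈ F, s x ∈ F
  memT : ∀ x ∈ F, t x ∈ F
  ne1 : ∀ x ∈ F, s x ≠ x
  ne2 : ∀ x ∈ F, s (s x) ≠ x
  ne3 : ∀ x ∈ F, s (s (s x)) ≠ x

/-- the three kinds of maps -/
def fK : Bool → Bool → Bool := fun a _ => a
def orK : Bool → Bool → Bool := fun a b => a || b
def andK : Bool → Bool → Bool := fun a b => a && b
def trK : Bool → Bool → Bool := fun _ _ => true
def faK : Bool → Bool → Bool := fun _ _ => false

/-- the positive part of the generator -/
noncomputable def Kop (c d p q a b : ℝ) (s : V → V) (F : Finset V) (f : Obs V) (ξ : V → Bool) : ℝ :=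
  ∑ y ∈ F, (c * f (wr fK y (s y) ξ) + p * f (wr orK y (s y) ξ)
    + (d * f (wr fK (s y) y ξ) + q * f (wr andK (s y) y ξ))
    + (a * f (wr trK y y ξ) + b * f (wr faK y y ξ)))

theorem adr_site (c d p q a b : ℝ) (f : Obs V) (ξ : V → Bool) (x : V) (l r : Bool) :
    adr a (c + p) d b c (d + q) l (ξ x) r * D x f ξ
      = (c * (f (Function.update ξ x l) - f ξ) + p * (f (Function.update ξ x (l || ξ x)) - f ξ))
        + (d * (f (Function.update ξ x r) - f ξ) + q * (f (Function.update ξ x (r && ξ x)) - f ξ))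
        + (a * (f (Function.update ξ x true) - f ξ) + b * (f (Function.update ξ x false) - f ξ)) := by
  rw [D_apply]
  have h : f ξ = f (Function.update ξ x (ξ x)) := by rw [Function.update_eq_self]
  rw [h]
  generalize ξ x = v
  cases v <;> cases l <;> cases r <;> simp [adr] <;> ring

theorem LF_gA {s t : V → V} {F : Finset V} (hC : Cyc s t F) (c d p q a b : ℝ) (f : Obs V)
    (ξ : V → Bool) :
    LF (gA a (c + p) d b c (d + q) s t) F f ξ
      = Kop c d p q a b s F f ξ - (F.card : ℝ) * (c + d + p + q + a + b) * f ξ := by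
  have h1 : LF (gA a (c + p) d b c (d + q) s t) F f ξ
      = ∑ x ∈ F, (c * (f (wr fK (t x) x ξ) - f ξ) + p * (f (wr orK (t x) x ξ) - f ξ))
        + ∑ x ∈ F, ((d * (f (wr fK (s x) x ξ) - f ξ) + q * (f (wr andK (s x) x ξ) - f ξ))
        + (a * (f (wr trK x x ξ) - f ξ) + b * (f (wr faK x x ξ) - f ξ))) := by
    rw [LF_apply, ← Finset.sum_add_distrib]
    refine Finset.sum_congr rfl (fun x _ => ?_)
    rw [gA_apply, adr_site]
    simp only [wr_apply, fK, orK, andK, trK, faK]
    ring
  have h2 : ∑ x ∈ F, (c * (f (wr fK (t x) x ξ) - f ξ) + p * (f (wr orK (t x) x ξ) - f ξ))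
      = ∑ y ∈ F, (c * (f (wr fK y (s y) ξ) - f ξ) + p * (f (wr orK y (s y) ξ) - f ξ)) := by
    refine Finset.sum_nbij' t s hC.memT hC.memS (fun x _ => hC.st x) (fun x _ => hC.ts x)
      (fun x _ => ?_)
    rw [hC.st]
  rw [h1, h2, ← Finset.sum_add_distrib, Kop]
  have h3 : (F.card : ℝ) * (c + d + p + q + a + b) * f ξ
      = ∑ _y ∈ F, (c + d + p + q + a + b) * f ξ := by
    rw [Finset.sum_const, nsmul_eq_mul]
    ring
  rw [h3, ← Finset.sum_sub_distrib]
  refine Finset.sum_congr rfl (fun x _ => ?_)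
  ring

/-! ### submodularity -/

theorem SubO.antitone_D {f : Obs V} (hf : SubO f) (z : V) {ξ η : V → Bool} (h : ξ ≤ η) :
    D z f η ≤ D z f ξ := by
  have h1 : IncO (-(D z f)) := by
    intro y ζ
    rw [map_neg]
    by_cases hy : y = z
    · subst hy
      have e : D y (D y f) ζ = 0 := by
        rw [D_apply, D_self_update, D_self_update, sub_self]
      show 0 ≤ -(D y (D y f) ζ)
      rw [e, neg_zero]
    · have h2 := hf y z ζ hy
      show 0 ≤ -(D y (D z f) ζ)
      unfold DD at h2
      linarith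
  have h3 := h1.mono h
  have h4 : -(D z f ξ) ≤ -(D z f η) := h3
  linarith

/-- a monotone map commuting with the updates at `z` -/
theorem DD_comp_le {f : Obs V} (hf : SubO f) (T : C(V → Bool, V → Bool)) (hT : Monotone T)
    (y z : V) (hz : ∀ ξ b, T (Function.update ξ z b) = Function.update (T ξ) z b)
    (ξ : V → Bool) : DD y z (f.comp T) ξ ≤ 0 := by
  have h1 : ∀ ζ, D z (f.comp T) ζ = D z f (T ζ) := by
    intro ζ
    rw [D_apply, D_apply, ContinuousMap.comp_apply, ContinuousMap.comp_apply, hz, hz]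
  unfold DD
  rw [D_apply, h1, h1]
  have h2 : Function.update ξ y false ≤ Function.update ξ y true := by
    intro v
    by_cases hv : v = y
    · subst hv
      simp
    · rw [Function.update_of_ne hv, Function.update_of_ne hv]
  have h3 := hf.antitone_D z (hT h2)
  linarith

theorem DD_comp_le' {f : Obs V} (hf : SubO f) (T : C(V → Bool, V → Bool)) (hT : Monotone T)
    (y z : V) (hyz : y ≠ z) (hy : ∀ ξ b, T (Function.update ξ y b) = Function.update (T ξ) y b)
    (ξ : V → Bool) : DD y z (f.comp T) ξ ≤ 0 := by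
  rw [DD_comm hyz]
  exact DD_comp_le hf T hT z y hy ξ

theorem wr_mono (φ : Bool → Bool → Bool) (hφ : ∀ a a' b b', a ≤ a' → b ≤ b' → φ a b ≤ φ a' b')
    (u v : V) : Monotone (wr φ u v) := by
  intro ξ η h w
  rw [wr_apply, wr_apply]
  by_cases hw : w = v
  · subst hw
    simp only [Function.update_self]
    exact hφ _ _ _ _ (h u) (h w)
  · rw [Function.update_of_ne hw, Function.update_of_ne hw]
    exact h w

theorem wr_comm (φ : Bool → Bool → Bool) (u v z : V) (hu : z ≠ u) (hv : z ≠ v) (ξ : V → Bool)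
    (b : Bool) : wr φ u v (Function.update ξ z b) = Function.update (wr φ u v ξ) z b := by
  rw [wr_apply, wr_apply, Function.update_of_ne hu.symm, Function.update_of_ne hv.symm,
    Function.update_comm hv.symm]

theorem fK_mono : ∀ a a' b b', a ≤ a' → b ≤ b' → fK a b ≤ fK a' b' := by decide
theorem orK_mono : ∀ a a' b b', a ≤ a' → b ≤ b' → orK a b ≤ orK a' b' := by decide
theorem andK_mono : ∀ a a' b b', a ≤ a' → b ≤ b' → andK a b ≤ andK a' b' := by decide
theorem trK_mono : ∀ a a' b b', a ≤ a' → b ≤ b' → trK a b ≤ trK a' b' := by decide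
theorem faK_mono : ∀ a a' b b', a ≤ a' → b ≤ b' → faK a b ≤ faK a' b' := by decide

/-- second differences off the bond -/
theorem DD_wr_off {f : Obs V} (hf : SubO f) (φ : Bool → Bool → Bool)
    (hφ : ∀ a a' b b', a ≤ a' → b ≤ b' → φ a b ≤ φ a' b') (u v y z : V) (hyz : y ≠ z)
    (h : (z ≠ u ∧ z ≠ v) ∨ (y ≠ u ∧ y ≠ v)) (ξ : V → Bool) :
    DD y z (f.comp (wr φ u v)) ξ ≤ 0 := by
  rcases h with h | h
  · exact DD_comp_le hf _ (wr_mono φ hφ u v) y z (fun ξ b => wr_comm φ u v z h.1 h.2 ξ b) ξ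
  · exact DD_comp_le' hf _ (wr_mono φ hφ u v) y z hyz (fun ξ b => wr_comm φ u v y h.1 h.2 ξ b) ξ

/-- second differences on the bond -/
theorem DD_wr_on (f : Obs V) (φ : Bool → Bool → Bool) (u v : V) (huv : u ≠ v) (ξ : V → Bool) :
    DD u v (f.comp (wr φ u v)) ξ
      = (f (Function.update (Function.update ξ u true) v (φ true true))
        - f (Function.update (Function.update ξ u true) v (φ true false)))
        - (f (Function.update (Function.update ξ u false) v (φ false true))
        - f (Function.update (Function.update ξ u false) v (φ false false))) := by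
  rw [DD_apply]
  have h : ∀ i j : Bool, wr φ u v (Function.update (Function.update ξ u i) v j)
      = Function.update (Function.update ξ u i) v (φ i j) := by
    intro i j
    rw [wr_apply, Function.update_self, Function.update_of_ne huv, Function.update_self,
      Function.update_idem]
  simp only [ContinuousMap.comp_apply, h]

/-! ### the ratio inequality -/

/-- `f(11) - (1+ρ) f(10) + ρ f(00)` on the bond `(x, s x)` -/
noncomputable def BB (ρ : ℝ) (s : V → V) (x : V) (f : Obs V) (ξ : V → Bool) : ℝ :=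
  f (Function.update (Function.update ξ x true) (s x) true)
    - (1 + ρ) * f (Function.update (Function.update ξ x true) (s x) false)
    + ρ * f (Function.update (Function.update ξ x false) (s x) false)

/-- the ratio inequality on all bonds of `F` -/
def RatO (ρ : ℝ) (s : V → V) (F : Finset V) (f : Obs V) : Prop := ∀ x ∈ F, ∀ ξ, 0 ≤ BB ρ s x f ξ

theorem sum_three {F : Finset V} (A : V → ℝ) (u v w : V) (hu : u ∈ F) (hv : v ∈ F) (hw : w ∈ F)
    (huv : u ≠ v) (huw : u ≠ w) (hvw : v ≠ w) (h : 0 ≤ A u + A v + A w)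
    (h0 : ∀ y ∈ F, y ≠ u → y ≠ v → y ≠ w → 0 ≤ A y) : 0 ≤ ∑ y ∈ F, A y := by
  have hsub : ({u, v, w} : Finset V) ⊆ F := by
    intro y hy
    simp only [Finset.mem_insert, Finset.mem_singleton] at hy
    rcases hy with rfl | rfl | rfl <;> assumption
  have h1 : ∑ y ∈ ({u, v, w} : Finset V), A y = A u + A v + A w := by
    rw [Finset.sum_insert (by simp [huv, huw]), Finset.sum_insert (by simp [hvw]),
      Finset.sum_singleton]
    ring
  rw [← Finset.sum_sdiff hsub, h1]
  refine add_nonneg (Finset.sum_nonneg (fun y hy => ?_)) h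
  rw [Finset.mem_sdiff] at hy
  simp only [Finset.mem_insert, Finset.mem_singleton, not_or] at hy
  exact h0 y hy.1 hy.2.1 hy.2.2.1 hy.2.2.2

/-- the configuration with prescribed values at four sites -/
def w4 (e1 e2 e3 e4 : V) (ξ : V → Bool) (l a b r : Bool) : V → Bool := fun v =>
  if v = e1 then l else if v = e2 then a else if v = e3 then b else if v = e4 then r else ξ v


section W4

variable {e1 e2 e3 e4 : V} (ξ : V → Bool) (l a b r c : Bool)

theorem w4_upd1 : Function.update (w4 e1 e2 e3 e4 ξ l a b r) e1 c = w4 e1 e2 e3 e4 ξ c a b r := by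
  funext v
  by_cases h1 : v = e1
  · subst h1
    simp [w4]
  · rw [Function.update_of_ne h1]
    simp [w4, h1]

theorem w4_upd2 (h : e2 ≠ e1) :
    Function.update (w4 e1 e2 e3 e4 ξ l a b r) e2 c = w4 e1 e2 e3 e4 ξ l c b r := by
  funext v
  by_cases h2 : v = e2
  · subst h2
    simp [w4, h]
  · rw [Function.update_of_ne h2]
    simp [w4, h2]

theorem w4_upd3 (h : e3 ≠ e1) (h' : e3 ≠ e2) :
    Function.update (w4 e1 e2 e3 e4 ξ l a b r) e3 c = w4 e1 e2 e3 e4 ξ l a c r := by
  funext v
  by_cases h2 : v = e3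
  · subst h2
    simp [w4, h, h']
  · rw [Function.update_of_ne h2]
    simp [w4, h2]

theorem w4_upd4 (h : e4 ≠ e1) (h' : e4 ≠ e2) (h'' : e4 ≠ e3) :
    Function.update (w4 e1 e2 e3 e4 ξ l a b r) e4 c = w4 e1 e2 e3 e4 ξ l a b c := by
  funext v
  by_cases h2 : v = e4
  · subst h2
    simp [w4, h, h', h'']
  · rw [Function.update_of_ne h2]
    simp [w4, h2]

theorem w4_ev1 : w4 e1 e2 e3 e4 ξ l a b r e1 = l := by simp [w4]

theorem w4_ev2 (h : e2 ≠ e1) : w4 e1 e2 e3 e4 ξ l a b r e2 = a := by simp [w4, h]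

theorem w4_ev3 (h : e3 ≠ e1) (h' : e3 ≠ e2) : w4 e1 e2 e3 e4 ξ l a b r e3 = b := by
  simp [w4, h, h']

theorem w4_ev4 (h : e4 ≠ e1) (h' : e4 ≠ e2) (h'' : e4 ≠ e3) :
    w4 e1 e2 e3 e4 ξ l a b r e4 = r := by simp [w4, h, h', h'']

omit c in
theorem w4_self : w4 e1 e2 e3 e4 ξ (ξ e1) (ξ e2) (ξ e3) (ξ e4) = ξ := by
  funext v
  unfold w4
  split_ifs with h1 h2 h3 h4
  · rw [h1]
  · rw [h2]
  · rw [h3]
  · rw [h4]
  · rfl

end W4

/-- the local inequalities on four consecutive sites -/
structure Loc (ρ : ℝ) (φ : Bool → Bool → Bool → Bool → ℝ) : Prop where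
  ρ0 : 0 ≤ ρ
  B : ∀ l r, 0 ≤ φ l true true r - (1 + ρ) * φ l true false r + ρ * φ l false false r
  B' : ∀ l, 0 ≤ φ l true true true - (1 + ρ) * φ l true true false + ρ * φ l true false false
  B'' : ∀ r, 0 ≤ φ true true false r - (1 + ρ) * φ true false false r + ρ * φ false false false r
  I : ∀ l r, φ l true true r - φ l true false r - (φ l false true r - φ l false false r) ≤ 0
  I34 : ∀ l, φ l true true true - φ l true true false
    - (φ l true false true - φ l true false false) ≤ 0
  I12 : ∀ r, φ true true false r - φ true false false r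
    - (φ false true false r - φ false false false r) ≤ 0

theorem Loc.cl {ρ : ℝ} {φ : Bool → Bool → Bool → Bool → ℝ} (h : Loc ρ φ) (l r : Bool) :
    0 ≤ (φ l l true r - (1 + ρ) * φ l l false r + ρ * φ l l false r)
      + (φ l true true r - (1 + ρ) * φ l true true r + ρ * φ l false false r)
      + (φ l true true true - (1 + ρ) * φ l true false false + ρ * φ l false false false) := by
  have hρ := h.ρ0
  have h1 := h.B l r
  have h2 := h.B l false
  have h3 := h.B' l
  have h4 := h.I l r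
  have h5 := mul_nonneg hρ (sub_nonneg.2 (sub_nonpos.1 (h.I34 l)))
  cases l <;> cases r <;> nlinarith

theorem Loc.cr {ρ : ℝ} {φ : Bool → Bool → Bool → Bool → ℝ} (h : Loc ρ φ) (l r : Bool) :
    0 ≤ (φ true true true r - (1 + ρ) * φ true true false r + ρ * φ false false false r)
      + (φ l true true r - (1 + ρ) * φ l false false r + ρ * φ l false false r)
      + (φ l true r r - (1 + ρ) * φ l true r r + ρ * φ l false r r) := by
  have hρ := h.ρ0
  have h1 := h.B l r
  have h2 := h.B true r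
  have h3 := h.B'' r
  have h4 := h.I12 r
  have h5 := mul_nonneg hρ (sub_nonneg.2 (sub_nonpos.1 (h.I l r)))
  cases l <;> cases r <;> nlinarith

theorem Loc.mm {ρ : ℝ} {φ : Bool → Bool → Bool → Bool → ℝ} (h : Loc ρ φ) (l r : Bool) :
    0 ≤ ((φ l (l || true) true r - (1 + ρ) * φ l (l || true) false r + ρ * φ l (l || false) false r)
        + ρ * (φ (true && l) true true r - (1 + ρ) * φ (true && l) true false r
          + ρ * φ (false && l) false false r))
      + ((φ l true true r - (1 + ρ) * φ l true true r + ρ * φ l false false r)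
        + ρ * (φ l true true r - (1 + ρ) * φ l false false r + ρ * φ l false false r))
      + ((φ l true true (true || r) - (1 + ρ) * φ l true false (false || r)
          + ρ * φ l false false (false || r))
        + ρ * (φ l true (r && true) r - (1 + ρ) * φ l true (r && false) r
          + ρ * φ l false (r && false) r)) := by
  have hρ := h.ρ0
  have h1 := h.B l r
  have h2 := h.B l false
  have h3 := h.B' l
  have h4 := h.B'' r
  have h1' := mul_nonneg hρ h1
  have h2' := mul_nonneg hρ h2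
  have h3' := mul_nonneg hρ h3
  have h4' := mul_nonneg hρ h4
  cases l <;> cases r <;>
    simp only [Bool.true_or, Bool.false_or, Bool.or_true, Bool.or_false, Bool.true_and,
      Bool.false_and, Bool.and_true, Bool.and_false] at * <;> nlinarith

/-! ### the ratio inequality is preserved -/

theorem BB_comp_off (ρ : ℝ) (s : V → V) (x : V) (f : Obs V) (T : C(V → Bool, V → Bool))
    (h1 : ∀ ξ b, T (Function.update ξ x b) = Function.update (T ξ) x b)
    (h2 : ∀ ξ b, T (Function.update ξ (s x) b) = Function.update (T ξ) (s x) b) (ξ : V → Bool) :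
    BB ρ s x (f.comp T) ξ = BB ρ s x f (T ξ) := by
  unfold BB
  simp only [ContinuousMap.comp_apply, h1, h2]

section Near

variable {s t : V → V} {F : Finset V} (hC : Cyc s t F) {ρ : ℝ} (hρ : 0 ≤ ρ) {f : Obs V}
  (hS : SubO f) (hB : RatO ρ s F f) {x : V} (hx : x ∈ F) (ξ : V → Bool)

include hC hx in
theorem Cyc.sites : x ≠ t x ∧ s x ≠ t x ∧ s (s x) ≠ t x ∧ s x ≠ x ∧ s (s x) ≠ x ∧ s (s x) ≠ s x := by
  refine ⟨?_, ?_, ?_, hC.ne1 x hx, hC.ne2 x hx, hC.ne1 _ (hC.memS x hx)⟩
  · intro h
    exact hC.ne1 x hx (by nth_rewrite 1 [h]; exact hC.st x)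
  · intro h
    exact hC.ne2 x hx (by rw [h]; exact hC.st x)
  · intro h
    exact hC.ne3 x hx (by rw [h]; exact hC.st x)

include hC hρ hS hB hx in
theorem loc_near : Loc ρ (fun l a b r => f (w4 (t x) x (s x) (s (s x)) ξ l a b r)) := by
  obtain ⟨h21, h31, h41, h32, h42, h43⟩ := hC.sites hx
  have u1 := @w4_upd1 V _ (t x) x (s x) (s (s x)) ξ
  have u2 := fun l a b r c => @w4_upd2 V _ (t x) x (s x) (s (s x)) ξ l a b r c h21
  have u3 := fun l a b r c => @w4_upd3 V _ (t x) x (s x) (s (s x)) ξ l a b r c h31 h32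
  have u4 := fun l a b r c => @w4_upd4 V _ (t x) x (s x) (s (s x)) ξ l a b r c h41 h42 h43
  refine ⟨hρ, fun l r => ?_, fun l => ?_, fun r => ?_, fun l r => ?_, fun l => ?_, fun r => ?_⟩
  · have h := hB x hx (w4 (t x) x (s x) (s (s x)) ξ l true true r)
    simpa only [BB, u2, u3] using h
  · have h := hB (s x) (hC.memS x hx) (w4 (t x) x (s x) (s (s x)) ξ l true true true)
    simpa only [BB, u3, u4] using h
  · have h := hB (t x) (hC.memT x hx) (w4 (t x) x (s x) (s (s x)) ξ true true false r)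
    simpa only [BB, hC.st, u1, u2] using h
  · have h := hS x (s x) (w4 (t x) x (s x) (s (s x)) ξ l true true r) (fun e => h32 e.symm)
    simpa only [DD_apply, u2, u3] using h
  · have h := hS (s x) (s (s x)) (w4 (t x) x (s x) (s (s x)) ξ l true true true)
      (fun e => h43 e.symm)
    simpa only [DD_apply, u3, u4] using h
  · have h := hS (t x) x (w4 (t x) x (s x) (s (s x)) ξ true true false r) (fun e => h21 e.symm)
    simpa only [DD_apply, u1, u2] using h

include hC hρ hS hB hx in
theorem near_cl : 0 ≤ BB ρ s x (f.comp (wr fK (t x) (s (t x)))) ξ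
    + BB ρ s x (f.comp (wr fK x (s x))) ξ + BB ρ s x (f.comp (wr fK (s x) (s (s x)))) ξ := by
  obtain ⟨h21, h31, h41, h32, h42, h43⟩ := hC.sites hx
  have u1 := @w4_upd1 V _ (t x) x (s x) (s (s x)) ξ
  have u2 := fun l a b r c => @w4_upd2 V _ (t x) x (s x) (s (s x)) ξ l a b r c h21
  have u3 := fun l a b r c => @w4_upd3 V _ (t x) x (s x) (s (s x)) ξ l a b r c h31 h32
  have u4 := fun l a b r c => @w4_upd4 V _ (t x) x (s x) (s (s x)) ξ l a b r c h41 h42 h43
  have v1 := @w4_ev1 V _ (t x) x (s x) (s (s x)) ξ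
  have v2 := fun l a b r => @w4_ev2 V _ (t x) x (s x) (s (s x)) ξ l a b r h21
  have v3 := fun l a b r => @w4_ev3 V _ (t x) x (s x) (s (s x)) ξ l a b r h31 h32
  have v4 := fun l a b r => @w4_ev4 V _ (t x) x (s x) (s (s x)) ξ l a b r h41 h42 h43
  have gen : ∀ l a b r, 0 ≤ BB ρ s x (f.comp (wr fK (t x) (s (t x))))
        (w4 (t x) x (s x) (s (s x)) ξ l a b r)
      + BB ρ s x (f.comp (wr fK x (s x))) (w4 (t x) x (s x) (s (s x)) ξ l a b r)
      + BB ρ s x (f.comp (wr fK (s x) (s (s x)))) (w4 (t x) x (s x) (s (s x)) ξ l a b r) := by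
    intro l a b r
    have key := (loc_near hC hρ hS hB hx ξ).cl l r
    simpa only [BB, ContinuousMap.comp_apply, wr_apply, fK, hC.st, u1, u2, u3, u4, v1, v2, v3, v4]
      using key
  have h := gen (ξ (t x)) (ξ x) (ξ (s x)) (ξ (s (s x)))
  rwa [w4_self] at h

include hC hρ hS hB hx in
theorem near_cr : 0 ≤ BB ρ s x (f.comp (wr fK (s (t x)) (t x))) ξ
    + BB ρ s x (f.comp (wr fK (s x) x)) ξ + BB ρ s x (f.comp (wr fK (s (s x)) (s x))) ξ := by
  obtain ⟨h21, h31, h41, h32, h42, h43⟩ := hC.sites hx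
  have u1 := @w4_upd1 V _ (t x) x (s x) (s (s x)) ξ
  have u2 := fun l a b r c => @w4_upd2 V _ (t x) x (s x) (s (s x)) ξ l a b r c h21
  have u3 := fun l a b r c => @w4_upd3 V _ (t x) x (s x) (s (s x)) ξ l a b r c h31 h32
  have u4 := fun l a b r c => @w4_upd4 V _ (t x) x (s x) (s (s x)) ξ l a b r c h41 h42 h43
  have v1 := @w4_ev1 V _ (t x) x (s x) (s (s x)) ξ
  have v2 := fun l a b r => @w4_ev2 V _ (t x) x (s x) (s (s x)) ξ l a b r h21
  have v3 := fun l a b r => @w4_ev3 V _ (t x) x (s x) (s (s x)) ξ l a b r h31 h32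
  have v4 := fun l a b r => @w4_ev4 V _ (t x) x (s x) (s (s x)) ξ l a b r h41 h42 h43
  have gen : ∀ l a b r, 0 ≤ BB ρ s x (f.comp (wr fK (s (t x)) (t x)))
        (w4 (t x) x (s x) (s (s x)) ξ l a b r)
      + BB ρ s x (f.comp (wr fK (s x) x)) (w4 (t x) x (s x) (s (s x)) ξ l a b r)
      + BB ρ s x (f.comp (wr fK (s (s x)) (s x))) (w4 (t x) x (s x) (s (s x)) ξ l a b r) := by
    intro l a b r
    have key := (loc_near hC hρ hS hB hx ξ).cr l r
    simpa only [BB, ContinuousMap.comp_apply, wr_apply, fK, hC.st, u1, u2, u3, u4, v1, v2, v3, v4]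
      using key
  have h := gen (ξ (t x)) (ξ x) (ξ (s x)) (ξ (s (s x)))
  rwa [w4_self] at h

include hC hρ hS hB hx in
theorem near_mm : 0 ≤ (BB ρ s x (f.comp (wr orK (t x) (s (t x)))) ξ
      + ρ * BB ρ s x (f.comp (wr andK (s (t x)) (t x))) ξ)
    + (BB ρ s x (f.comp (wr orK x (s x))) ξ + ρ * BB ρ s x (f.comp (wr andK (s x) x)) ξ)
    + (BB ρ s x (f.comp (wr orK (s x) (s (s x)))) ξ
      + ρ * BB ρ s x (f.comp (wr andK (s (s x)) (s x))) ξ) := by
  obtain ⟨h21, h31, h41, h32, h42, h43⟩ := hC.sites hx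
  have u1 := @w4_upd1 V _ (t x) x (s x) (s (s x)) ξ
  have u2 := fun l a b r c => @w4_upd2 V _ (t x) x (s x) (s (s x)) ξ l a b r c h21
  have u3 := fun l a b r c => @w4_upd3 V _ (t x) x (s x) (s (s x)) ξ l a b r c h31 h32
  have u4 := fun l a b r c => @w4_upd4 V _ (t x) x (s x) (s (s x)) ξ l a b r c h41 h42 h43
  have v1 := @w4_ev1 V _ (t x) x (s x) (s (s x)) ξ
  have v2 := fun l a b r => @w4_ev2 V _ (t x) x (s x) (s (s x)) ξ l a b r h21
  have v3 := fun l a b r => @w4_ev3 V _ (t x) x (s x) (s (s x)) ξ l a b r h31 h32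
  have v4 := fun l a b r => @w4_ev4 V _ (t x) x (s x) (s (s x)) ξ l a b r h41 h42 h43
  have gen : ∀ l a b r, 0 ≤ (BB ρ s x (f.comp (wr orK (t x) (s (t x))))
        (w4 (t x) x (s x) (s (s x)) ξ l a b r)
        + ρ * BB ρ s x (f.comp (wr andK (s (t x)) (t x))) (w4 (t x) x (s x) (s (s x)) ξ l a b r))
      + (BB ρ s x (f.comp (wr orK x (s x))) (w4 (t x) x (s x) (s (s x)) ξ l a b r)
        + ρ * BB ρ s x (f.comp (wr andK (s x) x)) (w4 (t x) x (s x) (s (s x)) ξ l a b r))
      + (BB ρ s x (f.comp (wr orK (s x) (s (s x)))) (w4 (t x) x (s x) (s (s x)) ξ l a b r)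
        + ρ * BB ρ s x (f.comp (wr andK (s (s x)) (s x)))
          (w4 (t x) x (s x) (s (s x)) ξ l a b r)) := by
    intro l a b r
    have key := (loc_near hC hρ hS hB hx ξ).mm l r
    simpa only [BB, ContinuousMap.comp_apply, wr_apply, orK, andK, hC.st, u1, u2, u3, u4, v1, v2,
      v3, v4, Bool.true_or, Bool.false_or, Bool.or_true, Bool.or_false, Bool.true_and,
      Bool.false_and, Bool.and_true, Bool.and_false, Bool.or_self, Bool.and_self] using key
  have h := gen (ξ (t x)) (ξ x) (ξ (s x)) (ξ (s (s x)))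
  rwa [w4_self] at h

end Near

end MP1060
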