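import Pool.Agent.Work.MP_1060d1_pr.SUB.AffGap

/-!
Decay of the gap on a cycle, and cyclic symmetry.
-/

open Filter Topology
open scoped NNReal

namespace MP1060

variable {V : Type*} [DecidableEq V]

theorem eT_commute {E : Type*} [NormedAddCommGroup E] [NormedSpace ℝ E] [CompleteSpace E]
    (A B : E →L[ℝ] E) (hAB : ∀ f, B (A f) = A (B f)) (τ : ℝ) (f : E) :
    eT A τ (B f) = B (eT A τ f) := by
  have h0 : Commute B A := by
    ext1 f
    exact hAB f
  have h : Commute B (NormedSpace.exp (τ • A)) := by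
    let _ : NormedAlgebra ℚ (E →L[ℝ] E) := NormedAlgebra.restrictScalars ℚ ℝ _
    exact (h0.smul_right τ).exp_right
  exact (congrArg (fun B : E →L[ℝ] E => B f) h.eq).symm

theorem gap_of_cone {g : V → Obs V} {K : ℝ} (hg : Sys g K) (hm : Mono g)
    (γ : ℝ) (hγ0 : 0 ≤ γ) (Λ : Finset V) (hγ : ∀ x ∈ Λ, γ ≤ g x (fun _ => false)) (f : Obs V)
    (hf : IncO f) (hSub : ∀ s, 0 ≤ s → SubO (TF g Λ s f)) (t : ℝ) (ht : 0 ≤ t) :
    TF g Λ t f (ind Λ) - TF g Λ t f (fun _ => false)
      ≤ Real.exp (-(γ * t)) * (f (ind Λ) - f (fun _ => false)) := by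
  set u : ℝ → ℝ := fun s => TF g Λ s f (ind Λ) - TF g Λ s f (fun _ => false) with hu
  set u' : ℝ → ℝ := fun s => LF g Λ (TF g Λ s f) (ind Λ)
    - LF g Λ (TF g Λ s f) (fun _ => false) with hu'
  have hd : ∀ s, HasDerivAt u (u' s) s := fun s =>
    (TF_eval_hasDerivAt g Λ f (ind Λ) s).sub (TF_eval_hasDerivAt g Λ f _ s)
  have hbound : ∀ s, 0 ≤ s → u' s ≤ -(γ * u s) := by
    intro s hs0
    have hI := TF_incO hg hm Λ s hs0 f hf
    have hSu := hSub s hs0
    have h1 : LF g Λ (TF g Λ s f) (ind Λ) ≤ 0 := by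
      rw [LF_apply]
      refine Finset.sum_nonpos (fun x hx => ?_)
      exact mul_nonpos_of_nonpos_of_nonneg (hg.on x _ (by simp [ind, hx])) (hI x _)
    have h2 : γ * u s ≤ LF g Λ (TF g Λ s f) (fun _ => false) := by
      rw [LF_apply]
      calc γ * u s ≤ γ * ∑ x ∈ Λ, D x (TF g Λ s f) (fun _ => false) :=
            mul_le_mul_of_nonneg_left (hSu.star Λ) hγ0
        _ = ∑ x ∈ Λ, γ * D x (TF g Λ s f) (fun _ => false) := by rw [Finset.mul_sum]
        _ ≤ ∑ x ∈ Λ, g x (fun _ => false) * D x (TF g Λ s f) (fun _ => false) :=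
            Finset.sum_le_sum (fun x hx => mul_le_mul_of_nonneg_right (hγ x hx) (hI x _))
    show LF g Λ (TF g Λ s f) (ind Λ) - LF g Λ (TF g Λ s f) (fun _ => false) ≤ -(γ * u s)
    linarith
  have hv : ∀ s, HasDerivAt (fun s => Real.exp (γ * s) * u s)
      (Real.exp (γ * s) * γ * u s + Real.exp (γ * s) * u' s) s := by
    intro s
    have h1 : HasDerivAt (fun s => Real.exp (γ * s)) (Real.exp (γ * s) * γ) s := by
      have := ((hasDerivAt_id s).const_mul γ).exp
      simpa using this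
    exact h1.mul (hd s)
  have h0 : u 0 = f (ind Λ) - f (fun _ => false) := by
    have e : ∀ ξ, TF g Λ 0 f ξ = f ξ := by
      intro ξ
      show eT (LF g Λ) 0 f ξ = f ξ
      rw [eT_zero]
      rfl
    show TF g Λ 0 f (ind Λ) - TF g Λ 0 f (fun _ => false) = _
    rw [e, e]
  have hfin := image_le_of_deriv_right_le_deriv_boundary
    (f := fun s => Real.exp (γ * s) * u s)
    (f' := fun s => Real.exp (γ * s) * γ * u s + Real.exp (γ * s) * u' s)
    (a := 0) (b := t) (B := fun _ => f (ind Λ) - f (fun _ => false)) (B' := fun _ => 0)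
    (fun s _ => (hv s).continuousAt.continuousWithinAt)
    (fun s _ => (hv s).hasDerivWithinAt) (by simp [h0]) continuousOn_const
    (fun s _ => hasDerivWithinAt_const _ _ _)
    (fun s hs1 => by
      have h1 := hbound s hs1.1
      have h2 := mul_le_mul_of_nonneg_left h1 (Real.exp_pos (γ * s)).le
      linarith) (x := t) ⟨ht, le_rfl⟩
  have h3 : Real.exp (γ * t) * u t ≤ f (ind Λ) - f (fun _ => false) := hfin
  have h4 := mul_le_mul_of_nonneg_left h3 (Real.exp_pos (-(γ * t))).le
  have h5 : Real.exp (-(γ * t)) * (Real.exp (γ * t) * u t) = u t := by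
    rw [← mul_assoc, ← Real.exp_add, neg_add_cancel, Real.exp_zero, one_mul]
  rw [h5] at h4
  exact h4

/-! ### the affine drift -/

theorem adr_mono (a0 aL aR b0 bL bR : ℝ) (h1 : 0 ≤ aL) (h2 : 0 ≤ aR) (h3 : 0 ≤ bL) (h4 : 0 ≤ bR)
    (l l' x r r' : Bool) (hl : l ≤ l') (hr : r ≤ r') :
    adr a0 aL aR b0 bL bR l x r ≤ adr a0 aL aR b0 bL bR l' x r' := by
  have hb : ¬ ((true : Bool) ≤ false) := by decide
  cases l <;> cases l' <;> cases r <;> cases r' <;>
    first
    | exact absurd hl hb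
    | exact absurd hr hb
    | (cases x <;> simp [adr] <;> linarith)

omit [DecidableEq V] in
theorem gA_sys (a0 aL aR b0 bL bR : ℝ) (h0 : 0 ≤ a0) (h1 : 0 ≤ aL) (h2 : 0 ≤ aR) (h0' : 0 ≤ b0)
    (h3 : 0 ≤ bL) (h4 : 0 ≤ bR) (s t : V → V) :
    Sys (gA a0 aL aR b0 bL bR s t) (1 + (a0 + aL + aR + b0 + bL + bR)) where
  K_pos := by positivity
  off := by
    intro x ξ h
    rw [gA_apply, h]
    cases ξ (t x) <;> cases ξ (s x) <;> simp [adr] <;> linarith
  on := by
    intro x ξ h
    rw [gA_apply, h]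
    cases ξ (t x) <;> cases ξ (s x) <;> simp [adr] <;> linarith
  bd := by
    intro x ξ
    rw [gA_apply, abs_le]
    cases ξ (t x) <;> cases ξ (s x) <;> cases ξ x <;> simp [adr] <;> constructor <;> linarith

theorem gA_mono (a0 aL aR b0 bL bR : ℝ) (h1 : 0 ≤ aL) (h2 : 0 ≤ aR)
    (h3 : 0 ≤ bL) (h4 : 0 ≤ bR) (s t : V → V) : Mono (gA a0 aL aR b0 bL bR s t) := by
  intro x y ξ hxy
  rw [D_apply, gA_apply, gA_apply, Function.update_of_ne hxy, Function.update_of_ne hxy]
  have hle : Function.update ξ y false ≤ Function.update ξ y true := by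
    intro v
    by_cases hv : v = y
    · subst hv
      simp
    · rw [Function.update_of_ne hv, Function.update_of_ne hv]
  exact sub_nonneg.2 (adr_mono a0 aL aR b0 bL bR h1 h2 h3 h4 _ _ _ _ _ (hle _) (hle _))

/-! ### cyclic symmetry -/

/-- `(sh s f)(ξ) = f(ξ ∘ s)` -/
noncomputable def sh (s : V → V) : Obs V →L[ℝ] Obs V :=
  LinearMap.mkContinuous
    { toFun := fun f => f.comp ⟨fun ξ x => ξ (s x), by fun_prop⟩
      map_add' := fun _ _ => rfl
      map_smul' := fun _ _ => rfl } 1 (by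
    intro f
    rw [one_mul]
    refine (ContinuousMap.norm_le _ (norm_nonneg f)).2 ?_
    intro ξ
    exact ContinuousMap.norm_coe_le_norm f _)

omit [DecidableEq V] in
theorem sh_apply (s : V → V) (f : Obs V) (ξ : V → Bool) : sh s f ξ = f (fun x => ξ (s x)) := rfl

theorem update_comp_s {s t : V → V} (hts : ∀ x, t (s x) = x) (ξ : V → Bool) (y : V) (b : Bool) :
    (fun x => Function.update ξ (s y) b (s x)) = Function.update (fun x => ξ (s x)) y b := by
  funext x
  by_cases h : x = y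
  · subst h
    simp
  · rw [Function.update_of_ne h, Function.update_of_ne]
    intro h'
    exact h (by rw [← hts x, h', hts])

theorem LF_sh {s t : V → V} {F : Finset V} (hC : Cyc s t F) (a0 aL aR b0 bL bR : ℝ) (f : Obs V) :
    LF (gA a0 aL aR b0 bL bR s t) F (sh s f) = sh s (LF (gA a0 aL aR b0 bL bR s t) F f) := by
  ext ξ
  rw [LF_apply, sh_apply, LF_apply]
  refine (Finset.sum_nbij' s t hC.memS hC.memT (fun x _ => hC.ts x) (fun x _ => hC.st x)
    (fun x _ => ?_)).symm
  rw [gA_apply, gA_apply, hC.st, hC.ts]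
  congr 1
  rw [D_apply, D_apply, sh_apply, sh_apply, update_comp_s hC.ts, update_comp_s hC.ts]

theorem TF_sh {s t : V → V} {F : Finset V} (hC : Cyc s t F) (a0 aL aR b0 bL bR : ℝ) (τ : ℝ)
    (f : Obs V) :
    TF (gA a0 aL aR b0 bL bR s t) F τ (sh s f) = sh s (TF (gA a0 aL aR b0 bL bR s t) F τ f) := by
  exact eT_commute _ _ (fun f => (LF_sh hC a0 aL aR b0 bL bR f).symm) τ f

omit [DecidableEq V] in
theorem sh_occ {s : V → V} (x : V) : sh s (occ x) = occ (s x) := rfl

theorem ind_comp {s t : V → V} {F : Finset V} (hC : Cyc s t F) :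
    (fun x => ind F (s x)) = ind F := by
  funext x
  unfold ind
  have : s x ∈ F ↔ x ∈ F := ⟨fun h => by rw [← hC.ts x]; exact hC.memT _ h, hC.memS x⟩
  simp [this]

/-- the observable `∑ ξ x` -/
noncomputable def tot (F : Finset V) : Obs V := ∑ x ∈ F, occ x

omit [DecidableEq V] in
theorem tot_apply (F : Finset V) (ξ : V → Bool) : tot F ξ = ∑ x ∈ F, occ x ξ := by
  unfold tot
  rw [ContinuousMap.coe_sum, Finset.sum_apply]

theorem tot_incO (F : Finset V) : IncO (tot F) := by
  intro y ξ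
  rw [D_apply, tot_apply, tot_apply, ← Finset.sum_sub_distrib]
  refine Finset.sum_nonneg (fun x _ => ?_)
  have := occ_incO x y ξ
  rwa [D_apply] at this

theorem tot_subO (F : Finset V) : SubO (tot F) := by
  intro y z ξ hyz
  rw [DD_apply]
  simp only [tot_apply]
  rw [← Finset.sum_sub_distrib, ← Finset.sum_sub_distrib, ← Finset.sum_sub_distrib]
  refine Finset.sum_nonpos (fun x _ => ?_)
  have := occ_subO x y z ξ hyz
  rwa [DD_apply] at this

theorem tot_rat {s t : V → V} {F : Finset V} (hC : Cyc s t F) {ρ : ℝ} (hρ : ρ ≤ 1) :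
    RatO ρ s F (tot F) := by
  intro x hx ξ
  have hxs : s x ≠ x := hC.ne1 x hx
  have hval : ∀ α β : Bool, tot F (Function.update (Function.update ξ x α) (s x) β)
      = (∑ y ∈ (F.erase x).erase (s x), occ y ξ) + (if β then 1 else 0) + (if α then 1 else 0) := by
    intro α β
    rw [tot_apply, ← Finset.sum_erase_add F _ hx,
      ← Finset.sum_erase_add (F.erase x) _ (Finset.mem_erase.2 ⟨hxs, hC.memS x hx⟩)]
    have e1 : occ (s x) (Function.update (Function.update ξ x α) (s x) β) = if β then 1 else 0 := by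
      rw [occ_apply, Function.update_self]
    have e2 : occ x (Function.update (Function.update ξ x α) (s x) β) = if α then 1 else 0 := by
      rw [occ_apply, Function.update_of_ne hxs.symm, Function.update_self]
    rw [e1, e2]
    congr 2
    refine Finset.sum_congr rfl (fun y hy => ?_)
    rw [Finset.mem_erase, Finset.mem_erase] at hy
    rw [occ_apply, occ_apply, Function.update_of_ne hy.1, Function.update_of_ne hy.2.1]
  unfold BB
  rw [hval, hval, hval]
  simp only [if_true, Bool.false_eq_true, if_false]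
  nlinarith

section

variable {s t : V → V} {F : Finset V} (hC : Cyc s t F) {c d p ρ a b : ℝ} (hc : 0 ≤ c) (hd : 0 ≤ d)
  (hp : 0 ≤ p) (hρ : 0 ≤ ρ) (ha : 0 ≤ a) (hb : 0 ≤ b)

include hC hc hd hp hρ ha hb in
theorem ring_gap (hρ1 : ρ ≤ 1) (o z : V) (ho : o ∈ F) (horb : ∀ x ∈ F, ∃ k : ℕ, s^[k] z = x)
    (τ : ℝ) (hτ : 0 ≤ τ) :
    TF (gA a (c + p) d b c (d + ρ * p) s t) F τ (occ o) (ind F)
      - TF (gA a (c + p) d b c (d + ρ * p) s t) F τ (occ o) (fun _ => false)
      ≤ Real.exp (-(a * τ)) := by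
  set g := gA a (c + p) d b c (d + ρ * p) s t with hgdef
  have hρp : 0 ≤ ρ * p := mul_nonneg hρ hp
  have hg := gA_sys a (c + p) d b c (d + ρ * p) ha (by linarith) hd hb hc (by linarith) s t
  have hm := gA_mono a (c + p) d b c (d + ρ * p) (by linarith) hd hc (by linarith) s t
  have h1 := gap_of_cone hg hm a ha F (fun x _ => by
      rw [gA_apply]
      simp [adr]) (tot F) (tot_incO F)
    (fun s' hs' => (TF_ring_cone hC hc hd hp hρ ha hb s' hs' (tot F) (tot_subO F)
      (tot_rat hC hρ1)).1) τ hτ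
  rw [← hgdef] at h1 hg hm
  -- symmetry
  have hsym : ∀ k : ℕ, TF g F τ (occ (s^[k] z)) (ind F) - TF g F τ (occ (s^[k] z)) (fun _ => false)
      = TF g F τ (occ z) (ind F) - TF g F τ (occ z) (fun _ => false) := by
    intro k
    induction k with
    | zero => rfl
    | succ k ih =>
      rw [Function.iterate_succ_apply', ← sh_occ, hgdef, TF_sh hC, sh_apply, sh_apply,
        ind_comp hC, ← hgdef]
      exact ih
  have hsum : TF g F τ (tot F) (ind F) - TF g F τ (tot F) (fun _ => false)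
      = (F.card : ℝ) * (TF g F τ (occ o) (ind F) - TF g F τ (occ o) (fun _ => false)) := by
    have e : ∀ ξ, TF g F τ (tot F) ξ = ∑ x ∈ F, TF g F τ (occ x) ξ := by
      intro ξ
      unfold tot
      rw [map_sum, ContinuousMap.coe_sum, Finset.sum_apply]
    rw [e, e, ← Finset.sum_sub_distrib]
    have e2 : ∀ x ∈ F, TF g F τ (occ x) (ind F) - TF g F τ (occ x) (fun _ => false)
        = TF g F τ (occ o) (ind F) - TF g F τ (occ o) (fun _ => false) := by
      intro x hx
      obtain ⟨k, rfl⟩ := horb x hx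
      obtain ⟨m, rfl⟩ := horb o ho
      exact (hsym k).trans (hsym m).symm
    rw [Finset.sum_congr rfl e2, Finset.sum_const, nsmul_eq_mul]
  have h0 : tot F (ind F) - tot F (fun _ => false) = (F.card : ℝ) := by
    rw [tot_apply, tot_apply, ← Finset.sum_sub_distrib]
    have e3 : ∀ x ∈ F, occ x (ind F) - occ x (fun _ => false) = 1 := by
      intro x hx
      rw [occ_apply, occ_apply]
      simp [ind, hx]
    rw [Finset.sum_congr rfl e3]
    simp
  rw [hsum, h0] at h1
  have hcard : (0:ℝ) < F.card := by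
    exact_mod_cast Finset.card_pos.2 ⟨o, ho⟩
  have h2 : (F.card : ℝ) * (TF g F τ (occ o) (ind F) - TF g F τ (occ o) (fun _ => false))
      ≤ (F.card : ℝ) * Real.exp (-(a * τ)) := by linarith
  exact le_of_mul_le_mul_left h2 hcard

end

end MP1060
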