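import Pool.Agent.Work.MP_1060d1_pr.SUB.AffRing

/-!
The semigroup on a cycle preserves the cone; the gap decays.
-/

open Filter Topology
open scoped NNReal

namespace MP1060

variable {V : Type*} [DecidableEq V]

theorem Kop_DD (c d p q a b : ℝ) (s : V → V) (F : Finset V) (f : Obs V) (y z : V) (ξ : V → Bool) :
    (Kop c d p q a b s F f (Function.update (Function.update ξ y true) z true)
      - Kop c d p q a b s F f (Function.update (Function.update ξ y true) z false))
      - (Kop c d p q a b s F f (Function.update (Function.update ξ y false) z true)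
      - Kop c d p q a b s F f (Function.update (Function.update ξ y false) z false))
    = ∑ x ∈ F, (c * DD y z (f.comp (wr fK x (s x))) ξ + p * DD y z (f.comp (wr orK x (s x))) ξ
      + (d * DD y z (f.comp (wr fK (s x) x)) ξ + q * DD y z (f.comp (wr andK (s x) x)) ξ)
      + (a * DD y z (f.comp (wr trK x x)) ξ + b * DD y z (f.comp (wr faK x x)) ξ)) := by
  unfold Kop
  rw [← Finset.sum_sub_distrib, ← Finset.sum_sub_distrib, ← Finset.sum_sub_distrib]
  refine Finset.sum_congr rfl (fun x _ => ?_)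
  simp only [DD_apply, ContinuousMap.comp_apply]
  ring

theorem Kop_BB (c d p q a b ρ : ℝ) (s : V → V) (F : Finset V) (f : Obs V) (x : V)
    (ξ : V → Bool) :
    Kop c d p q a b s F f (Function.update (Function.update ξ x true) (s x) true)
      - (1 + ρ) * Kop c d p q a b s F f (Function.update (Function.update ξ x true) (s x) false)
      + ρ * Kop c d p q a b s F f (Function.update (Function.update ξ x false) (s x) false)
    = ∑ y ∈ F, (c * BB ρ s x (f.comp (wr fK y (s y))) ξ + p * BB ρ s x (f.comp (wr orK y (s y))) ξ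
      + (d * BB ρ s x (f.comp (wr fK (s y) y)) ξ + q * BB ρ s x (f.comp (wr andK (s y) y)) ξ)
      + (a * BB ρ s x (f.comp (wr trK y y)) ξ + b * BB ρ s x (f.comp (wr faK y y)) ξ)) := by
  unfold Kop
  rw [Finset.mul_sum, Finset.mul_sum, ← Finset.sum_sub_distrib, ← Finset.sum_add_distrib]
  refine Finset.sum_congr rfl (fun y _ => ?_)
  simp only [BB, ContinuousMap.comp_apply]
  ring

section Gap

variable {s t : V → V} {F : Finset V} (hC : Cyc s t F) {c d p ρ a b : ℝ} (hc : 0 ≤ c) (hd : 0 ≤ d)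
  (hp : 0 ≤ p) (hρ : 0 ≤ ρ) (ha : 0 ≤ a) (hb : 0 ≤ b)

include hC hc hd hp hρ ha hb in
theorem Kop_sub {f : Obs V} (hS : SubO f) (hB : RatO ρ s F f) (y z : V) (hyz : y ≠ z)
    (ξ : V → Bool) :
    ∑ x ∈ F, (c * DD y z (f.comp (wr fK x (s x))) ξ + p * DD y z (f.comp (wr orK x (s x))) ξ
      + (d * DD y z (f.comp (wr fK (s x) x)) ξ + (ρ * p) * DD y z (f.comp (wr andK (s x) x)) ξ)
      + (a * DD y z (f.comp (wr trK x x)) ξ + b * DD y z (f.comp (wr faK x x)) ξ)) ≤ 0 := by
  refine Finset.sum_nonpos (fun x hx => ?_)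
  have hxs : x ≠ s x := fun h => hC.ne1 x hx h.symm
  have h1 := DD_wr_nonpos fK fK_mono f hS x (s x) y z hyz ξ (fun ζ h => DD_fK f _ _ h ζ)
  have h2 := DD_wr_nonpos fK fK_mono f hS (s x) x y z hyz ξ (fun ζ h => DD_fK f _ _ h ζ)
  have h3 := DD_mm hx hxs hρ f hS hB y z hyz ξ
  have h4 := DD_wr_nonpos trK trK_mono f hS x x y z hyz ξ (fun ζ h => absurd rfl h)
  have h5 := DD_wr_nonpos faK faK_mono f hS x x y z hyz ξ (fun ζ h => absurd rfl h)
  have k1 := mul_nonneg hc (neg_nonneg.2 h1)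
  have k2 := mul_nonneg hd (neg_nonneg.2 h2)
  have k3 := mul_nonneg hp (neg_nonneg.2 h3)
  have k4 := mul_nonneg ha (neg_nonneg.2 h4)
  have k5 := mul_nonneg hb (neg_nonneg.2 h5)
  linarith

include hC hc hd hp hρ ha hb in
theorem Kop_rat {f : Obs V} (hS : SubO f) (hB : RatO ρ s F f) (x : V) (hx : x ∈ F)
    (ξ : V → Bool) :
    0 ≤ ∑ y ∈ F, (c * BB ρ s x (f.comp (wr fK y (s y))) ξ
      + p * BB ρ s x (f.comp (wr orK y (s y))) ξ
      + (d * BB ρ s x (f.comp (wr fK (s y) y)) ξ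
        + (ρ * p) * BB ρ s x (f.comp (wr andK (s y) y)) ξ)
      + (a * BB ρ s x (f.comp (wr trK y y)) ξ + b * BB ρ s x (f.comp (wr faK y y)) ξ)) := by
  have k1 := mul_nonneg hc (BB_sum_cl hC hρ hS hB hx ξ)
  have k2 := mul_nonneg hd (BB_sum_cr hC hρ hS hB hx ξ)
  have k3 := mul_nonneg hp (BB_sum_mm hC hρ hS hB hx ξ)
  have k4 := mul_nonneg ha (BB_sum_tr hC hρ hS hB hx ξ)
  have k5 := mul_nonneg hb (BB_sum_fa hC hρ hS hB hx ξ)
  rw [Finset.mul_sum] at k1 k2 k3 k4 k5
  have k := add_nonneg (add_nonneg (add_nonneg k1 k2) k3) (add_nonneg k4 k5)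
  rw [← Finset.sum_add_distrib, ← Finset.sum_add_distrib, ← Finset.sum_add_distrib,
    ← Finset.sum_add_distrib] at k
  refine k.trans (le_of_eq (Finset.sum_congr rfl (fun y _ => ?_)))
  ring

theorem continuous_BB (ρ : ℝ) (s : V → V) (x : V) (ξ : V → Bool) :
    Continuous fun f : Obs V => BB ρ s x f ξ := by
  unfold BB
  exact ((continuous_eval_const _).sub ((continuous_eval_const _).const_mul _)).add
    ((continuous_eval_const _).const_mul _)

include hC hc hd hp hρ ha hb in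
/-- the cone is preserved -/
theorem TF_ring_cone (τ : ℝ) (hτ : 0 ≤ τ) (f : Obs V) (hS : SubO f) (hB : RatO ρ s F f) :
    SubO (TF (gA a (c + p) d b c (d + ρ * p) s t) F τ f) ∧
      RatO ρ s F (TF (gA a (c + p) d b c (d + ρ * p) s t) F τ f) := by
  set L := LF (gA a (c + p) d b c (d + ρ * p) s t) F with hL
  set Λ : ℝ := (F.card : ℝ) * (c + d + p + ρ * p + a + b) with hΛ
  have hΛ0 : 0 ≤ Λ := by positivity
  have hh : 0 < 1 / (Λ + 1) := by positivity
  have hev : ∀ (f : Obs V) (η : V → Bool), (f + (1 / (Λ + 1)) • L f) η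
      = (1 - 1 / (Λ + 1) * Λ) * f η + 1 / (Λ + 1) * Kop c d p (ρ * p) a b s F f η := by
    intro f η
    show f η + (1 / (Λ + 1)) * L f η = _
    rw [hL, LF_gA hC]
    ring
  have h1Λ : 0 ≤ 1 - 1 / (Λ + 1) * Λ := by
    have : 1 / (Λ + 1) * Λ ≤ 1 := by
      rw [div_mul_eq_mul_div, one_mul, div_le_one (by positivity)]
      linarith
    linarith
  refine eT_mem_cone L {f : Obs V | SubO f ∧ RatO ρ s F f} ?_ ?_ ?_ ?_ _ hh ?_ τ hτ f ⟨hS, hB⟩
  · have h1 : {f : Obs V | SubO f ∧ RatO ρ s F f} =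
        (⋂ y : V, ⋂ z : V, ⋂ ξ : V → Bool, ⋂ _ : y ≠ z, {f : Obs V | DD y z f ξ ≤ 0}) ∩
        (⋂ x : V, ⋂ _ : x ∈ F, ⋂ ξ : V → Bool, {f : Obs V | 0 ≤ BB ρ s x f ξ}) := by
      ext f
      simp only [Set.mem_ofPred_eq, Set.mem_inter_iff, Set.mem_iInter]
      rfl
    rw [h1]
    refine IsClosed.inter ?_ ?_
    · exact isClosed_iInter fun y => isClosed_iInter fun z => isClosed_iInter fun ξ =>
        isClosed_iInter fun _ => isClosed_le (continuous_DD_eval y z ξ) continuous_const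
    · exact isClosed_iInter fun x => isClosed_iInter fun _ => isClosed_iInter fun ξ =>
        isClosed_le continuous_const (continuous_BB ρ s x ξ)
  · refine ⟨fun y z ξ _ => ?_, fun x _ ξ => ?_⟩
    · rw [DD_apply]
      simp
    · unfold BB
      simp
  · rintro f ⟨h1, h2⟩ f' ⟨h1', h2'⟩
    refine ⟨fun y z ξ hyz => ?_, fun x hx ξ => ?_⟩
    · have e1 := h1 y z ξ hyz
      have e2 := h1' y z ξ hyz
      rw [DD_apply] at e1 e2 ⊢
      simp only [ContinuousMap.add_apply]
      linarith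
    · have e1 := h2 x hx ξ
      have e2 := h2' x hx ξ
      unfold BB at e1 e2 ⊢
      simp only [ContinuousMap.add_apply]
      linarith
  · rintro r hr f ⟨h1, h2⟩
    refine ⟨fun y z ξ hyz => ?_, fun x hx ξ => ?_⟩
    · have e1 := mul_nonneg hr (neg_nonneg.2 (h1 y z ξ hyz))
      rw [DD_apply] at e1 ⊢
      simp only [ContinuousMap.smul_apply, smul_eq_mul]
      linarith
    · have e1 := mul_nonneg hr (h2 x hx ξ)
      unfold BB at e1 ⊢
      simp only [ContinuousMap.smul_apply, smul_eq_mul]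
      linarith
  · rintro f ⟨h1, h2⟩
    refine ⟨fun y z ξ hyz => ?_, fun x hx ξ => ?_⟩
    · have e1 := mul_nonneg h1Λ (neg_nonneg.2 (h1 y z ξ hyz))
      have e2 := Kop_sub hC hc hd hp hρ ha hb h1 h2 y z hyz ξ
      rw [← Kop_DD] at e2
      have e3 := mul_nonneg hh.le (neg_nonneg.2 e2)
      rw [DD_apply] at e1 ⊢
      simp only [hev]
      linarith
    · have e1 := mul_nonneg h1Λ (h2 x hx ξ)
      have e2 := Kop_rat hC hc hd hp hρ ha hb h1 h2 x hx ξ
      rw [← Kop_BB] at e2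
      have e3 := mul_nonneg hh.le e2
      unfold BB at e1 ⊢
      simp only [hev]
      linarith

end Gap

end MP1060
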