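import Pool.Agent.Work.MP_1060d1_pr.SUB.Base

/-!
The exchange of zeros and ones.
-/

open Filter Topology
open scoped NNReal

namespace MP1060

variable {V : Type*} [DecidableEq V]

/-- `f ↦ f ∘ (!·)` -/
noncomputable def J : Obs V →L[ℝ] Obs V :=
  LinearMap.mkContinuous
    { toFun := fun f => f.comp ⟨fun ξ x => !(ξ x), by fun_prop⟩
      map_add' := fun _ _ => rfl
      map_smul' := fun _ _ => rfl } 1 (by
    intro f
    rw [one_mul]
    refine (ContinuousMap.norm_le _ (norm_nonneg f)).2 ?_
    intro ξ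
    exact ContinuousMap.norm_coe_le_norm f _)

omit [DecidableEq V] in
theorem J_apply (f : Obs V) (ξ : V → Bool) : J f ξ = f (fun x => !(ξ x)) := rfl

omit [DecidableEq V] in
theorem J_J (f : Obs V) : J (J f) = f := by
  ext ξ
  rw [J_apply, J_apply]
  simp

omit [DecidableEq V] in
theorem J_mul (f h : Obs V) : J (f * h) = J f * J h := rfl

theorem not_update (ξ : V → Bool) (x : V) (b : Bool) :
    (fun y => !(Function.update ξ x b y)) = Function.update (fun y => !(ξ y)) x (!b) := by
  funext y
  by_cases h : y = x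
  · subst h
    simp
  · rw [Function.update_of_ne h, Function.update_of_ne h]

theorem J_D (x : V) (f : Obs V) : J (D x (J f)) = -D x f := by
  ext ξ
  rw [J_apply, D_apply, J_apply, J_apply, not_update, not_update]
  simp only [Bool.not_not, Bool.not_true, Bool.not_false]
  change _ = -(D x f ξ)
  rw [D_apply]
  ring

theorem J_LF (g : V → Obs V) (F : Finset V) (f : Obs V) :
    J (LF g F (J f)) = LF (fun x => -(J (g x))) F f := by
  ext ξ
  rw [J_apply, LF_apply, LF_apply]
  refine Finset.sum_congr rfl fun x _ => ?_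
  have h := congrArg (fun u : Obs V => u ξ) (J_D x f)
  change J (D x (J f)) ξ = _ at h
  rw [J_apply] at h
  rw [h]
  change g x (fun x => !(ξ x)) * -(D x f ξ) = -(J (g x) ξ) * D x f ξ
  rw [J_apply]
  ring

omit [DecidableEq V] in
theorem J_dependsOn {f : Obs V} {s : Set V} (hf : DependsOn (f : (V → Bool) → ℝ) s) :
    DependsOn (J f : (V → Bool) → ℝ) s := by
  intro ξ η h
  rw [J_apply, J_apply]
  exact hf fun x hx => by rw [h x hx]

theorem isSG_flip {g : V → Obs V} {S : ℝ≥0 → Obs V →L[ℝ] Obs V} (hS : IsSG g S) :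
    IsSG (fun x => -(J (g x))) (fun t => (J.comp (S t)).comp J) := by
  refine ⟨fun f => ?_, fun s t f => ?_, fun t => ?_, fun t f hf ξ => ?_, fun f => ?_,
    fun F f hf => ?_⟩
  · change J (S 0 (J f)) = f
    rw [hS.zero, J_J]
  · change J (S (s + t) (J f)) = J (S s (J (J (S t (J f)))))
    rw [hS.add, J_J]
  · change J (S t (J 1)) = 1
    have h1 : (J (1 : Obs V)) = 1 := rfl
    rw [h1, hS.one, h1]
  · change 0 ≤ J (S t (J f)) ξ
    rw [J_apply]
    exact hS.nonneg t _ (fun η => by rw [J_apply]; exact hf _) _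
  · have h1 := (J.continuous.tendsto (J f)).comp (hS.cont (J f))
    rw [J_J] at h1
    exact h1
  · have h1 := (J.continuous.tendsto _).comp (hS.gen F (J f) (J_dependsOn hf))
    rw [J_LF] at h1
    refine h1.congr fun t => ?_
    change J ((t : ℝ)⁻¹ • (S t (J f) - J f)) = (t : ℝ)⁻¹ • (J (S t (J f)) - f)
    rw [map_smul, map_sub, J_J]

end MP1060
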