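import Pool.Agent.Work.MP_1060d1_pr.SUB.Total
import Pool.Agent.Work.MP_1060d1_pr.SUB.FlipA

/-!
Main theorem: exponential ergodicity for monotone systems with submodular or supermodular drift, or
with nonincreasing total drift.
-/

open Filter Topology
open scoped NNReal

namespace MP1060

variable {d R : ℕ}

/-- the semigroup: existence and uniqueness, in the form used below -/
theorem exists_SG (c : Rates d R) : ∃ S : ℝ≥0 → Obs (Site d) →L[ℝ] Obs (Site d),
    IsSG (gD c) S ∧ IsIPS c (fun t f => S t f) ∧
      ∀ S', IsIPS c S' → S' = fun t f => S t f := by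
  obtain ⟨S, hS⟩ := exists_isSG (sys_gD c) (geo_gD c)
  refine ⟨S, hS, isIPS_of_isSG c S hS, fun S' hS' => ?_⟩
  obtain ⟨S'', h1, h2⟩ := isSG_of_isIPS c S' hS'
  have h3 := isSG_unique (sys_gD c) (geo_gD c) h1 hS
  funext t f
  rw [← h2, h3]

theorem expErgodicRate_of_gap (c : Rates d R) (hm : c.Monotone) (γ : ℝ)
    (h : ∀ S, IsSG (gD c) S → ∀ t : ℝ≥0,
      S t (occ 0) (fun _ => true) - S t (occ 0) (fun _ => false) ≤ Real.exp (-(γ * t))) :
    ExpErgodicRate c γ := by
  obtain ⟨S, hS', hS, hu⟩ := exists_SG c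
  obtain ⟨ρ, hρ⟩ := rho_exists hS'
    (fun f hf t => isSG_incO (sys_gD c) (mono_gD c hm) (geo_gD c) hS' f hf t) (occ 0) (occ_incO 0)
  exact ⟨_, hS, hu, ρ, fun t ξ => (hρ t ξ).trans (h S hS' t)⟩

/-- submodular drift: rate `c₁(𝟎)` -/
theorem expErgodic_submodular (c : Rates d R) (hm : c.Monotone) (hs : c.Submodular) :
    ExpErgodicRate c (c.c1 (fun _ => false)) := by
  refine expErgodicRate_of_gap c hm _ (fun S hS t => ?_)
  refine gap_submod (sys_gD c) (mono_gD c hm) (subm_gD c hs) (geo_gD c) hS _
    (c.nonneg1 _) (fun x => ?_) 0 t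
  rw [gD_apply, Rates.drift, if_neg (by rw [view_orig]; simp)]
  exact le_of_eq rfl

/-- exchange of zeros and ones -/
def Rates.flip (c : Rates d R) : Rates d R where
  c0 := fun p => c.c1 (fun y => !(p y))
  c1 := fun p => c.c0 (fun y => !(p y))
  nonneg0 := fun _ => c.nonneg1 _
  nonneg1 := fun _ => c.nonneg0 _

theorem flip_drift (c : Rates d R) (p : Pat d R) : c.flip.drift p = -c.drift (fun y => !(p y)) := by
  unfold Rates.drift Rates.flip
  by_cases h : p (orig d R) = true
  · simp [h]
  · have h' : p (orig d R) = false := by simpa using h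
    simp [h']

theorem flip_gD (c : Rates d R) (x : Site d) : gD c.flip x = -(J (gD c x)) := by
  ext ξ
  rw [gD_apply, flip_drift]
  rfl

theorem not_le_not {p q : Pat d R} (h : p ≤ q) : (fun y => !(q y)) ≤ (fun y => !(p y)) := by
  intro y
  have := h y
  revert this
  show p y ≤ q y → (!(q y)) ≤ (!(p y))
  generalize p y = a
  generalize q y = b
  revert a b
  decide

theorem flip_monotone (c : Rates d R) (hm : c.Monotone) : c.flip.Monotone := by
  intro p q h
  obtain ⟨h1, h0⟩ := hm _ _ (not_le_not h)
  exact ⟨h0, h1⟩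

theorem flip_submodular (c : Rates d R) (hs : c.Supermodular) : c.flip.Submodular := by
  intro p q
  have h := hs (fun y => !(p y)) (fun y => !(q y))
  have e1 : (fun y => !((p ⊔ q) y)) = (fun y => !(p y)) ⊓ (fun y => !(q y)) := by
    funext y
    simp only [Pi.sup_apply, Pi.inf_apply]
    cases p y <;> cases q y <;> rfl
  have e2 : (fun y => !((p ⊓ q) y)) = (fun y => !(p y)) ⊔ (fun y => !(q y)) := by
    funext y
    simp only [Pi.sup_apply, Pi.inf_apply]
    cases p y <;> cases q y <;> rfl
  rw [flip_drift, flip_drift, flip_drift, flip_drift, e1, e2]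
  linarith

/-- supermodular drift: rate `c₀(𝟏)` -/
theorem expErgodic_supermodular (c : Rates d R) (hm : c.Monotone) (hs : c.Supermodular) :
    ExpErgodicRate c (c.c0 (fun _ => true)) := by
  obtain ⟨S, hS', hS, hu⟩ := exists_SG c
  have hF : IsSG (gD c.flip) (fun t => (J.comp (S t)).comp J) := by
    have := isSG_flip hS'
    have e : (fun x => -(J (gD c x))) = gD c.flip := funext (fun x => (flip_gD c x).symm)
    rwa [e] at this
  obtain ⟨S', hS1, hu1, ρ, hρ⟩ :=
    expErgodic_submodular c.flip (flip_monotone c hm) (flip_submodular c hs)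
  have hSS := hu1 _ (isIPS_of_isSG c.flip _ hF)
  rw [← hSS] at hρ
  refine ⟨_, hS, hu, 1 - ρ, fun t ξ => ?_⟩
  have h := hρ t (fun y => !(ξ y))
  have e1 : J (occ (0 : Site d)) = 1 - occ 0 := by
    ext η
    rw [J_apply, ContinuousMap.sub_apply, ContinuousMap.one_apply, occ_apply, occ_apply]
    cases η 0 <;> simp
  have e2 : ((J.comp (S t)).comp J) (occ (0 : Site d)) (fun y => !(ξ y)) = 1 - S t (occ 0) ξ := by
    show S t (J (occ 0)) (fun x => !(!(ξ x))) = 1 - S t (occ 0) ξ
    rw [e1, map_sub, hS'.one]
    simp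
  simp only [e2] at h
  have e3 : c.flip.c1 (fun _ => false) = c.c0 (fun _ => true) := rfl
  rw [e3] at h
  rw [abs_sub_comm]
  have e4 : 1 - ρ - S t (occ 0) ξ = 1 - S t (occ 0) ξ - ρ := by ring
  rw [e4]
  exact h

/-- total drift: rate `e` -/
theorem expErgodic_total (c : Rates d R) (hm : c.Monotone) (e : ℝ) (hT : c.TotalDrift e) :
    ExpErgodicRate c e :=
  expErgodicRate_of_gap c hm e (fun _ hS t => total_gap c hm e hT hS t)

theorem addBirth_monotone (c : Rates d R) (ε : ℝ) (hε : 0 ≤ ε) (hm : c.Monotone) :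
    (c.addBirth ε hε).Monotone := by
  intro p q h
  obtain ⟨h1, h0⟩ := hm p q h
  exact ⟨by show c.c1 p + ε ≤ c.c1 q + ε; linarith, h0⟩

theorem addDeath_monotone (c : Rates d R) (ε : ℝ) (hε : 0 ≤ ε) (hm : c.Monotone) :
    (c.addDeath ε hε).Monotone := by
  intro p q h
  obtain ⟨h1, h0⟩ := hm p q h
  exact ⟨h1, by show c.c0 q + ε ≤ c.c0 p + ε; linarith⟩

theorem addBirth_drift (c : Rates d R) (ε : ℝ) (hε : 0 ≤ ε) (p : Pat d R) :
    (c.addBirth ε hε).drift p = c.drift p + (if p (orig d R) then 0 else ε) := by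
  unfold Rates.drift Rates.addBirth
  cases h : p (orig d R) <;> simp

theorem addDeath_drift (c : Rates d R) (ε : ℝ) (hε : 0 ≤ ε) (p : Pat d R) :
    (c.addDeath ε hε).drift p = c.drift p - (if p (orig d R) then ε else 0) := by
  unfold Rates.drift Rates.addDeath
  cases h : p (orig d R)
  · simp
  · simp
    ring

theorem ind_modular (ε : ℝ) (a b : Bool) :
    (if (a ⊔ b) = true then (0:ℝ) else ε) + (if (a ⊓ b) = true then 0 else ε)
      = (if a = true then 0 else ε) + (if b = true then 0 else ε) := by
  cases a <;> cases b <;> simp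

theorem ind_modular' (ε : ℝ) (a b : Bool) :
    (if (a ⊔ b) = true then ε else (0:ℝ)) + (if (a ⊓ b) = true then ε else 0)
      = (if a = true then ε else 0) + (if b = true then ε else 0) := by
  cases a <;> cases b <;> simp

theorem addBirth_submodular (c : Rates d R) (ε : ℝ) (hε : 0 ≤ ε) (hs : c.Submodular) :
    (c.addBirth ε hε).Submodular := by
  intro p q
  have h := hs p q
  have h2 := ind_modular ε (p (orig d R)) (q (orig d R))
  rw [addBirth_drift, addBirth_drift, addBirth_drift, addBirth_drift, Pi.sup_apply, Pi.inf_apply]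
  linarith

theorem addDeath_supermodular (c : Rates d R) (ε : ℝ) (hε : 0 ≤ ε) (hs : c.Supermodular) :
    (c.addDeath ε hε).Supermodular := by
  intro p q
  have h := hs p q
  have h2 := ind_modular' ε (p (orig d R)) (q (orig d R))
  rw [addDeath_drift, addDeath_drift, addDeath_drift, addDeath_drift, Pi.sup_apply, Pi.inf_apply]
  linarith

theorem orig_indicator (x : Site d) (ξ : Cfg d) (b : Bool) :
    (view x (Function.update ξ 0 b) : Pat d R) (orig d R) = if x = 0 then b else ξ x := by
  rw [view_orig]
  by_cases h : x = 0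
  · subst h
    simp
  · rw [Function.update_of_ne h, if_neg h]

theorem zero_mem_box : (0 : Site d) ∈ boxF d R := (orig d R).2

theorem addBirth_total (c : Rates d R) (ε e : ℝ) (hε : 0 ≤ ε) (hT : c.TotalDrift e) :
    (c.addBirth ε hε).TotalDrift (e + ε) := by
  intro ξ
  have h := hT ξ
  have e1 : ∀ x : Site d, (c.addBirth ε hε).drift (view x (Function.update ξ 0 true))
      - (c.addBirth ε hε).drift (view x (Function.update ξ 0 false))
      = (c.drift (view x (Function.update ξ 0 true)) - c.drift (view x (Function.update ξ 0 false)))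
        + (if x = 0 then -ε else 0) := by
    intro x
    rw [addBirth_drift, addBirth_drift, orig_indicator, orig_indicator]
    by_cases hx : x = 0
    · simp only [hx, if_true]
      simp
      ring
    · simp only [hx, if_false]
      ring
  rw [Finset.sum_congr rfl (fun x _ => e1 x), Finset.sum_add_distrib, Finset.sum_ite_eq',
    if_pos zero_mem_box]
  linarith

theorem addDeath_total (c : Rates d R) (ε e : ℝ) (hε : 0 ≤ ε) (hT : c.TotalDrift e) :
    (c.addDeath ε hε).TotalDrift (e + ε) := by
  intro ξ
  have h := hT ξ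
  have e1 : ∀ x : Site d, (c.addDeath ε hε).drift (view x (Function.update ξ 0 true))
      - (c.addDeath ε hε).drift (view x (Function.update ξ 0 false))
      = (c.drift (view x (Function.update ξ 0 true)) - c.drift (view x (Function.update ξ 0 false)))
        + (if x = 0 then -ε else 0) := by
    intro x
    rw [addDeath_drift, addDeath_drift, orig_indicator, orig_indicator]
    by_cases hx : x = 0
    · simp only [hx, if_true]
      simp
      ring
    · simp only [hx, if_false]
      ring
  rw [Finset.sum_congr rfl (fun x _ => e1 x), Finset.sum_add_distrib, Finset.sum_ite_eq',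
    if_pos zero_mem_box]
  linarith

end MP1060
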