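import Pool.Agent.Work.MP_1060d1_pr.SUB.AffDecay
import Pool.Agent.Work.MP_1060d1_pr.SUB.Main

/-!
Comparison of the infinite-volume semigroup with periodic finite-volume semigroups.
-/

open Filter Topology
open scoped NNReal

namespace MP1060

section Compare

variable {V : Type*} [DecidableEq V]

omit [DecidableEq V] in
theorem Sys.mono {g : V → Obs V} {K K' : ℝ} (hg : Sys g K) (h : K ≤ K') : Sys g K' where
  K_pos := lt_of_lt_of_le hg.K_pos h
  off := hg.off
  on := hg.on
  bd := fun x ξ => (hg.bd x ξ).trans h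

theorem LF_sub_norm' {g g' : V → Obs V} {K : ℝ} (hg : Sys g K) (hg' : Sys g' K) {w : V → ℝ}
    (hw : ∀ x, 0 < w x) (F H : Finset V) (hFH : F ⊆ H) (a : ℝ) (ha : 0 < a)
    (hout : ∀ x, x ∉ F → a ≤ w x) (heq : ∀ x ∈ F, w x < a → g x = g' x) (u : Obs V) :
    ‖LF g H u - LF g' F u‖ ≤ (2 * K / a) * ∑ x ∈ H, w x * ‖D x u‖ := by
  have hK := hg.K_pos
  have hsum : 0 ≤ ∑ x ∈ H, w x * ‖D x u‖ :=
    Finset.sum_nonneg (fun x _ => mul_nonneg (hw x).le (norm_nonneg _))
  refine (ContinuousMap.norm_le _ (by positivity)).2 ?_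
  intro ξ
  have hterm : ∀ x ∈ H, ‖g x ξ * D x u ξ - (if x ∈ F then g' x ξ * D x u ξ else 0)‖
      ≤ (2 * K / a) * (w x * ‖D x u‖) := by
    intro x hx
    have h2 : ‖D x u ξ‖ ≤ ‖D x u‖ := ContinuousMap.norm_coe_le_norm _ _
    have hstep : ∀ G : ℝ, |G| ≤ 2 * K → a ≤ w x → ‖G * D x u ξ‖ ≤ (2 * K / a) * (w x * ‖D x u‖) := by
      intro G hG haw
      rw [norm_mul, Real.norm_eq_abs]
      calc |G| * ‖D x u ξ‖ ≤ (2 * K) * ‖D x u‖ := mul_le_mul hG h2 (norm_nonneg _) (by positivity)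
        _ = (2 * K / a) * (a * ‖D x u‖) := by field_simp
        _ ≤ (2 * K / a) * (w x * ‖D x u‖) := by
            refine mul_le_mul_of_nonneg_left ?_ (by positivity)
            exact mul_le_mul_of_nonneg_right haw (norm_nonneg _)
    by_cases hxF : x ∈ F
    · rw [if_pos hxF, ← sub_mul]
      by_cases hwa : w x < a
      · rw [heq x hxF hwa, sub_self, zero_mul, norm_zero]
        exact mul_nonneg (by positivity) (mul_nonneg (hw x).le (norm_nonneg _))
      · refine hstep _ ?_ (not_lt.1 hwa)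
        have h3 := abs_le.1 (hg.bd x ξ)
        have h4 := abs_le.1 (hg'.bd x ξ)
        rw [abs_le]
        constructor <;> linarith [h3.1, h3.2, h4.1, h4.2]
    · rw [if_neg hxF, sub_zero]
      refine hstep _ ((hg.bd x ξ).trans (by linarith)) (hout x hxF)
  rw [ContinuousMap.sub_apply, LF_apply, LF_apply]
  have e : ∑ x ∈ F, g' x ξ * D x u ξ = ∑ x ∈ H, (if x ∈ F then g' x ξ * D x u ξ else 0) := by
    rw [Finset.sum_ite_mem, Finset.inter_eq_right.2 hFH]
  rw [e, ← Finset.sum_sub_distrib, Finset.mul_sum]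
  exact (norm_sum_le _ _).trans (Finset.sum_le_sum hterm)

theorem SG_sub_TF' {g g' : V → Obs V} {K : ℝ} (hg : Sys g K) (hg' : Sys g' K) (N : V → Finset V)
    (hN : ∀ x, DependsOn (g' x : (V → Bool) → ℝ) (N x : Set V)) (w : V → ℝ) (hw : ∀ x, 0 < w x)
    (κ : ℝ) (hκ0 : 0 ≤ κ) (hκ : ∀ y, ∑ x ∈ N y, w x ≤ κ * w y)
    {S : ℝ≥0 → Obs V →L[ℝ] Obs V} (hS : IsSG g S)
    (F₀ : Finset V) (f : Obs V)
    (hf : DependsOn (f : (V → Bool) → ℝ) (F₀ : Set V)) (F : Finset V) (a : ℝ)
    (ha : 0 < a) (hout : ∀ x, x ∉ F → a ≤ w x) (heq : ∀ x ∈ F, w x < a → g x = g' x) (t : ℝ≥0) :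
    ‖S t f - TF g' F t f‖
      ≤ t * ((2 * K / a) * (Real.exp (t * (2 * K * κ)) * ∑ x ∈ F₀, w x * ‖D x f‖)) := by
  have hK := hg.K_pos
  set H : Finset V := F ∪ (F₀ ∪ F.biUnion N) with hH
  have hFH : F ⊆ H := Finset.subset_union_left
  have key := duhamel (LF g' F) (fun s => S s.toNNReal) ?_ ?_ ?_ ?_ (fun u => LF g H u) f t
    ((2 * K / a) * (Real.exp (t * (2 * K * κ)) * ∑ x ∈ F₀, w x * ‖D x f‖)) t.2 ?_ ?_
  · simpa [TF] using key
  · intro s t hs ht f
    show S (s + t).toNNReal f = S s.toNNReal (S t.toNNReal f)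
    rw [Real.toNNReal_add hs ht, hS.add]
  · intro s hs f
    exact hS.norm_le _ f
  · intro f
    show S (Real.toNNReal 0) f = f
    rw [Real.toNNReal_zero, hS.zero]
  · intro f
    have h1 : Tendsto (fun s : ℝ => s.toNNReal) (𝓝[≥] 0) (𝓝 0) := by
      have h : Tendsto (fun h : ℝ => h.toNNReal) (𝓝 0) (𝓝 (Real.toNNReal 0)) :=
        continuous_real_toNNReal.tendsto 0
      rw [Real.toNNReal_zero] at h
      exact h.mono_left nhdsWithin_le_nhds
    exact (hS.cont f).comp h1
  · intro s _ _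
    have hdep : DependsOn (TF g' F s f : (V → Bool) → ℝ) (H : Set V) := by
      refine TF_dependsOn F H hFH ?_ f ?_ s
      · intro x hx
        refine (hN x).mono ?_
        intro y hy
        have hy' : y ∈ N x := by simpa using hy
        have : y ∈ H := by
          rw [hH, Finset.mem_union, Finset.mem_union, Finset.mem_biUnion]
          exact Or.inr (Or.inr ⟨x, hx, hy'⟩)
        simpa using this
      · refine hf.mono ?_
        intro y hy
        have hy' : y ∈ F₀ := by simpa using hy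
        have : y ∈ H := by
          rw [hH, Finset.mem_union, Finset.mem_union]
          exact Or.inr (Or.inl hy')
        simpa using this
    have h := (hS.gen H _ hdep).comp toNNReal_tendsto
    refine h.congr' ?_
    filter_upwards [self_mem_nhdsWithin] with h hh
    have hh' : (0:ℝ) ≤ h := (Set.mem_Ioi.1 hh).le
    simp only [Function.comp_apply, Real.coe_toNNReal _ hh']
    rfl
  · intro s hs hst
    refine (LF_sub_norm' hg hg' hw F H hFH a ha hout heq _).trans ?_
    refine mul_le_mul_of_nonneg_left ?_ (by positivity)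
    refine (TF_speed hg' N hN w hw κ hκ0 hκ F H hFH s hs f).trans ?_
    have h1 : Real.exp (s * (2 * K * κ)) ≤ Real.exp (t * (2 * K * κ)) := by
      refine Real.exp_le_exp.2 ?_
      exact mul_le_mul_of_nonneg_right hst (by positivity)
    exact mul_le_mul h1 (wsum_le w hw f F₀ H hf)
      (Finset.sum_nonneg (fun x _ => mul_nonneg (hw x).le (norm_nonneg _)))
      (Real.exp_pos _).le

end Compare

/-! ### the periodic systems -/

/-- the cyclic shift of `{-n, …, n}` -/
def sZ (n k : ℤ) : ℤ := if -n ≤ k ∧ k < n then k + 1 else if k = n then -n else k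

/-- the inverse cyclic shift -/
def tZ (n k : ℤ) : ℤ := if -n < k ∧ k ≤ n then k - 1 else if k = -n then n else k

theorem tZ_sZ (n : ℤ) (hn : 0 < n) (k : ℤ) : tZ n (sZ n k) = k := by
  unfold tZ sZ
  split_ifs <;> omega

theorem sZ_tZ (n : ℤ) (hn : 0 < n) (k : ℤ) : sZ n (tZ n k) = k := by
  unfold tZ sZ
  split_ifs <;> omega

theorem sZ_abs (n k : ℤ) : |sZ n k| ≤ |k| + 1 := by
  unfold sZ
  split_ifs with h1 h2
  · exact abs_add_le k 1
  · rw [h2, abs_neg]
    linarith [abs_nonneg n]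
  · linarith [abs_nonneg k]

theorem tZ_abs (n k : ℤ) : |tZ n k| ≤ |k| + 1 := by
  unfold tZ
  split_ifs with h1 h2
  · exact abs_sub k 1
  · rw [h2, abs_neg]
    linarith [abs_nonneg n]
  · linarith [abs_nonneg k]

/-- the cyclic shift on `ℤ^1` -/
def sS (n : ℕ) (x : Site 1) : Site 1 := fun _ => sZ n (x 0)

/-- its inverse -/
def tS (n : ℕ) (x : Site 1) : Site 1 := fun _ => tZ n (x 0)

theorem site_ext {x y : Site 1} (h : x 0 = y 0) : x = y := by
  funext i
  rw [Subsingleton.elim i 0]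
  exact h

theorem mem_box1 (n : ℕ) (x : Site 1) : x ∈ boxF 1 n ↔ -(n : ℤ) ≤ x 0 ∧ x 0 ≤ n := by
  rw [Finset.mem_Icc]
  constructor
  · intro h
    exact ⟨h.1 0, h.2 0⟩
  · intro h
    constructor
    · intro i
      rw [Subsingleton.elim i 0]
      exact h.1
    · intro i
      rw [Subsingleton.elim i 0]
      exact h.2

theorem cyc_sS (n : ℕ) (hn : 2 ≤ n) : Cyc (sS n) (tS n) (boxF 1 n) where
  ts := fun x => site_ext (tZ_sZ n (by omega) _)
  st := fun x => site_ext (sZ_tZ n (by omega) _)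
  memS := by
    intro x hx
    rw [mem_box1] at hx ⊢
    show -(n:ℤ) ≤ sZ n (x 0) ∧ sZ n (x 0) ≤ n
    unfold sZ
    split_ifs <;> omega
  memT := by
    intro x hx
    rw [mem_box1] at hx ⊢
    show -(n:ℤ) ≤ tZ n (x 0) ∧ tZ n (x 0) ≤ n
    unfold tZ
    split_ifs <;> omega
  ne1 := by
    intro x hx h
    rw [mem_box1] at hx
    have h' : sZ n (x 0) = x 0 := congrFun h 0
    unfold sZ at h'
    split_ifs at h' <;> omega
  ne2 := by
    intro x hx h
    rw [mem_box1] at hx
    have h' : sZ n (sZ n (x 0)) = x 0 := congrFun h 0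
    unfold sZ at h'
    split_ifs at h' <;> omega
  ne3 := by
    intro x hx h
    rw [mem_box1] at hx
    have h' : sZ n (sZ n (sZ n (x 0))) = x 0 := congrFun h 0
    unfold sZ at h'
    split_ifs at h' <;> omega

theorem cyc_tS (n : ℕ) (hn : 2 ≤ n) : Cyc (tS n) (sS n) (boxF 1 n) where
  ts := fun x => site_ext (sZ_tZ n (by omega) _)
  st := fun x => site_ext (tZ_sZ n (by omega) _)
  memS := (cyc_sS n hn).memT
  memT := (cyc_sS n hn).memS
  ne1 := by
    intro x hx h
    rw [mem_box1] at hx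
    have h' : tZ n (x 0) = x 0 := congrFun h 0
    unfold tZ at h'
    split_ifs at h' <;> omega
  ne2 := by
    intro x hx h
    rw [mem_box1] at hx
    have h' : tZ n (tZ n (x 0)) = x 0 := congrFun h 0
    unfold tZ at h'
    split_ifs at h' <;> omega
  ne3 := by
    intro x hx h
    rw [mem_box1] at hx
    have h' : tZ n (tZ n (tZ n (x 0))) = x 0 := congrFun h 0
    unfold tZ at h'
    split_ifs at h' <;> omega

theorem orb_sS (n : ℕ) (x : Site 1) (hx : x ∈ boxF 1 n) :
    ∃ k : ℕ, (sS n)^[k] (fun _ => -(n : ℤ)) = x := by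
  rw [mem_box1] at hx
  have h : ∀ k : ℕ, (k : ℤ) ≤ 2 * n → (sS n)^[k] (fun _ => -(n : ℤ)) = fun _ => -(n : ℤ) + k := by
    intro k
    induction k with
    | zero =>
      intro _
      funext i
      simp
    | succ k ih =>
      intro hk
      rw [Function.iterate_succ_apply', ih (by push_cast at hk; omega)]
      funext i
      show sZ n (-(n : ℤ) + k) = -(n : ℤ) + ((k + 1 : ℕ) : ℤ)
      unfold sZ
      push_cast at hk ⊢
      rw [if_pos (by omega)]
      ring
  refine ⟨(x 0 + n).toNat, ?_⟩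
  have e : (((x 0 + n).toNat : ℕ) : ℤ) = x 0 + n := Int.toNat_of_nonneg (by omega)
  rw [h _ (by rw [e]; omega), e]
  refine site_ext ?_
  show -(n : ℤ) + (x 0 + n) = x 0
  ring

theorem orb_tS (n : ℕ) (x : Site 1) (hx : x ∈ boxF 1 n) :
    ∃ k : ℕ, (tS n)^[k] (fun _ => (n : ℤ)) = x := by
  rw [mem_box1] at hx
  have h : ∀ k : ℕ, (k : ℤ) ≤ 2 * n → (tS n)^[k] (fun _ => (n : ℤ)) = fun _ => (n : ℤ) - k := by
    intro k
    induction k with
    | zero =>
      intro _
      funext i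
      simp
    | succ k ih =>
      intro hk
      rw [Function.iterate_succ_apply', ih (by push_cast at hk; omega)]
      funext i
      show tZ n ((n : ℤ) - k) = (n : ℤ) - ((k + 1 : ℕ) : ℤ)
      unfold tZ
      push_cast at hk ⊢
      rw [if_pos (by omega)]
      ring
  refine ⟨(n - x 0).toNat, ?_⟩
  have e : (((n - x 0).toNat : ℕ) : ℤ) = n - x 0 := Int.toNat_of_nonneg (by omega)
  rw [h _ (by rw [e]; omega), e]
  refine site_ext ?_
  show (n : ℤ) - (n - x 0) = x 0
  ring

theorem norm_site (x : Site 1) : ‖x‖ = ((|x 0| : ℤ) : ℝ) := by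
  rw [Pi.norm_def]
  simp [Int.norm_eq_abs]

theorem wt_le_of_abs (x y : Site 1) (h : |y 0| ≤ |x 0| + 1) : wt y ≤ Real.exp 1 * wt x := by
  unfold wt
  rw [← Real.exp_add]
  refine Real.exp_le_exp.2 ?_
  rw [norm_site, norm_site]
  have : ((|y 0| : ℤ) : ℝ) ≤ ((|x 0| + 1 : ℤ) : ℝ) := by exact_mod_cast h
  push_cast at this ⊢
  linarith

/-- neighbourhoods of the periodic systems -/
def nbP (n : ℕ) (x : Site 1) : Finset (Site 1) := {tS n x, x, sS n x}

theorem nbP_sum (n : ℕ) (y : Site 1) :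
    ∑ x ∈ nbP n y, wt x ≤ (3 * Real.exp 1) * wt y := by
  have hb : ∀ x ∈ nbP n y, wt x ≤ Real.exp 1 * wt y := by
    intro x hx
    rw [nbP, Finset.mem_insert, Finset.mem_insert, Finset.mem_singleton] at hx
    rcases hx with rfl | rfl | rfl
    · exact wt_le_of_abs _ _ (tZ_abs n (y 0))
    · exact wt_le_of_abs _ _ (by linarith)
    · exact wt_le_of_abs _ _ (sZ_abs n (y 0))
  have hwy : 0 < wt y := Real.exp_pos _
  calc ∑ x ∈ nbP n y, wt x ≤ ∑ _x ∈ nbP n y, Real.exp 1 * wt y := Finset.sum_le_sum hb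
    _ = ((nbP n y).card : ℝ) * (Real.exp 1 * wt y) := by rw [Finset.sum_const, nsmul_eq_mul]
    _ ≤ 3 * (Real.exp 1 * wt y) := by
        refine mul_le_mul_of_nonneg_right ?_ (by positivity)
        have h : (nbP n y).card ≤ 3 := Finset.card_le_three
        exact_mod_cast h
    _ = 3 * Real.exp 1 * wt y := by ring

theorem gA_range (a0 aL aR b0 bL bR : ℝ) (n : ℕ) (x : Site 1) :
    DependsOn (gA a0 aL aR b0 bL bR (sS n) (tS n) x : (Site 1 → Bool) → ℝ)
      (nbP n x : Set (Site 1)) := by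
  intro ξ η h
  rw [gA_apply, gA_apply, h (tS n x) (by simp [nbP]), h x (by simp [nbP]),
    h (sS n x) (by simp [nbP])]

theorem boxF_mono : Monotone (fun n => boxF 1 n) := by
  intro n m hnm
  refine Finset.Icc_subset_Icc ?_ ?_
  · intro i
    simp only [neg_le_neg_iff, Nat.cast_le]
    exact hnm
  · intro i
    simp only [Nat.cast_le]
    exact hnm

theorem boxF_ex (x : Site 1) : ∃ n, x ∈ boxF 1 n := by
  refine ⟨(|x 0|).toNat, ?_⟩
  rw [mem_box1]
  have e : (((|x 0|).toNat : ℕ) : ℤ) = |x 0| := Int.toNat_of_nonneg (abs_nonneg _)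
  rw [e]
  constructor
  · exact neg_abs_le _
  · exact le_abs_self _

/-- the gap in infinite volume, from the periodic systems -/
theorem gap_of_periodic {g : Site 1 → Obs (Site 1)} {K : ℝ} (hg : Sys g K)
    (a0 aL aR b0 bL bR : ℝ) (hA : ∀ n, Sys (gA a0 aL aR b0 bL bR (sS n) (tS n)) K)
    (heq : ∀ (n : ℕ) (x : Site 1), |x 0| < (n : ℤ) → g x = gA a0 aL aR b0 bL bR (sS n) (tS n) x)
    {S : ℝ≥0 → Obs (Site 1) →L[ℝ] Obs (Site 1)} (hS : IsSG g S) (t : ℝ≥0) (B : ℝ)
    (hB : ∀ n, 2 ≤ n → TF (gA a0 aL aR b0 bL bR (sS n) (tS n)) (boxF 1 n) t (occ 0)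
        (ind (boxF 1 n))
      - TF (gA a0 aL aR b0 bL bR (sS n) (tS n)) (boxF 1 n) t (occ 0) (fun _ => false) ≤ B) :
    S t (occ 0) (fun _ => true) - S t (occ 0) (fun _ => false) ≤ B := by
  have hocc : DependsOn (occ (0 : Site 1) : (Site 1 → Bool) → ℝ)
      (({0} : Finset (Site 1)) : Set (Site 1)) := by
    intro ξ η h
    rw [occ_apply, occ_apply, h 0 (by simp)]
  have hlim : Tendsto (fun n : ℕ => TF (gA a0 aL aR b0 bL bR (sS n) (tS n)) (boxF 1 n) t (occ 0))
      atTop (𝓝 (S t (occ 0))) := by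
    rw [tendsto_iff_norm_sub_tendsto_zero]
    have herr : Tendsto (fun n : ℕ => (t : ℝ) * ((2 * K / Real.exp n)
        * (Real.exp (t * (2 * K * (3 * Real.exp 1))) * ∑ x ∈ ({0} : Finset (Site 1)),
          wt x * ‖D x (occ 0)‖))) atTop (𝓝 0) := by
      have h1 : Tendsto (fun n : ℕ => Real.exp (n : ℝ)) atTop atTop :=
        Real.tendsto_exp_atTop.comp tendsto_natCast_atTop_atTop
      have h2 : Tendsto (fun n : ℕ => 2 * K / Real.exp (n : ℝ)) atTop (𝓝 0) :=
        h1.const_div_atTop _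
      have h3 := (h2.mul_const (Real.exp (t * (2 * K * (3 * Real.exp 1)))
        * ∑ x ∈ ({0} : Finset (Site 1)), wt x * ‖D x (occ 0)‖)).const_mul (t : ℝ)
      simpa using h3
    refine squeeze_zero' (Eventually.of_forall (fun n => norm_nonneg _)) ?_ herr
    filter_upwards [eventually_ge_atTop 1] with n hn
    rw [norm_sub_rev]
    refine SG_sub_TF' hg (hA n) (nbP n) (gA_range a0 aL aR b0 bL bR n) wt
      (fun x => Real.exp_pos _) (3 * Real.exp 1) (by positivity) (nbP_sum n) hS {0}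
      (occ 0) hocc (boxF 1 n) (Real.exp n) (Real.exp_pos _) ?_ ?_ t
    · intro x hx
      exact Real.exp_le_exp.2 (le_norm_of_not_mem_box n x hx)
    · intro x _ hw
      refine heq n x ?_
      have h1 : ‖x‖ < n := Real.exp_lt_exp.1 hw
      rw [norm_site] at h1
      exact_mod_cast h1
  have h1 := eval_tendsto hlim (ind_tendsto (fun n => boxF 1 n) boxF_mono boxF_ex)
  have h2 := eval_tendsto hlim (tendsto_const_nhds (x := (fun _ : Site 1 => false)))
  refine le_of_tendsto (h1.sub h2) ?_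
  filter_upwards [eventually_ge_atTop 2] with n hn
  exact hB n hn

end MP1060
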