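import Pool.Agent.Work.MP_1060d1_pr.SUB.AffLim

/-!
Affine nearest neighbour systems on `ℤ`: exponential ergodicity.
-/

open Filter Topology
open scoped NNReal

namespace MP1060

/-- the left neighbour of the origin -/
def lNb : ↥(boxF 1 1) := ⟨fun _ => -1, by
  rw [Finset.mem_Icc]
  constructor <;> intro i <;> norm_num⟩

/-- the right neighbour of the origin -/
def rNb : ↥(boxF 1 1) := ⟨fun _ => 1, by
  rw [Finset.mem_Icc]
  constructor <;> intro i <;> norm_num⟩

/-- the number of particles at the site `u` -/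
def num (p : Pat 1 1) (u : ↥(boxF 1 1)) : ℝ := if p u then 1 else 0

/-- `c₁ = a₀ + a_L ξ(-1) + a_R ξ(1)` if the origin is empty and
`c₀ = b₀ + b_L (1 - ξ(-1)) + b_R (1 - ξ(1))` if the origin is occupied -/
structure Rates.Affine (c : Rates 1 1) (a0 aL aR b0 bL bR : ℝ) : Prop where
  birth : ∀ p : Pat 1 1, p (orig 1 1) = false → c.c1 p = a0 + aL * num p lNb + aR * num p rNb
  death : ∀ p : Pat 1 1, p (orig 1 1) = true →
    c.c0 p = b0 + bL * (1 - num p lNb) + bR * (1 - num p rNb)

theorem ne_lo : lNb ≠ orig 1 1 := by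
  intro h
  have := congrFun (congrArg Subtype.val h) 0
  change (-1 : ℤ) = 0 at this
  omega

theorem ne_ro : rNb ≠ orig 1 1 := by
  intro h
  have := congrFun (congrArg Subtype.val h) 0
  change (1 : ℤ) = 0 at this
  omega

theorem ne_lr : lNb ≠ rNb := by
  intro h
  have := congrFun (congrArg Subtype.val h) 0
  change (-1 : ℤ) = 1 at this
  omega

section

variable {c : Rates 1 1} {a0 aL aR b0 bL bR : ℝ}

theorem Rates.Affine.drift_eq (h : c.Affine a0 aL aR b0 bL bR) (p : Pat 1 1) :
    c.drift p = adr a0 aL aR b0 bL bR (p lNb) (p (orig 1 1)) (p rNb) := by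
  unfold Rates.drift adr
  cases hp : p (orig 1 1) with
  | false =>
    simp only [Bool.false_eq_true, if_false]
    rw [h.birth p hp]
    rfl
  | true =>
    simp only [if_true]
    rw [h.death p hp]
    unfold num
    congr 1
    cases p lNb <;> cases p rNb <;> simp

theorem Rates.Affine.c1_zero (h : c.Affine a0 aL aR b0 bL bR) : c.c1 (fun _ => false) = a0 := by
  rw [h.birth _ rfl]
  simp [num]

theorem Rates.Affine.c0_one (h : c.Affine a0 aL aR b0 bL bR) : c.c0 (fun _ => true) = b0 := by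
  rw [h.death _ rfl]
  simp [num]

theorem Rates.Affine.coef (h : c.Affine a0 aL aR b0 bL bR) (hm : c.Monotone) :
    0 ≤ a0 ∧ 0 ≤ aL ∧ 0 ≤ aR ∧ 0 ≤ b0 ∧ 0 ≤ bL ∧ 0 ≤ bR := by
  have h1 := h.c1_zero
  have h0 := h.c0_one
  have hz : ∀ u : ↥(boxF 1 1), (fun _ => false) ≤ Function.update (fun _ => false : Pat 1 1) u true :=
    fun u v => Bool.false_le _
  have ho : ∀ u : ↥(boxF 1 1), Function.update (fun _ => true : Pat 1 1) u false ≤ (fun _ => true) :=
    fun u v => Bool.le_true _
  have e1 : ∀ u : ↥(boxF 1 1), num (Function.update (fun _ => false : Pat 1 1) u true) u = 1 := by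
    intro u
    simp [num]
  have e2 : ∀ u v : ↥(boxF 1 1), v ≠ u →
      num (Function.update (fun _ => false : Pat 1 1) u true) v = 0 := by
    intro u v hv
    simp [num, Function.update_of_ne hv]
  have e3 : ∀ u : ↥(boxF 1 1), num (Function.update (fun _ => true : Pat 1 1) u false) u = 0 := by
    intro u
    simp [num]
  have e4 : ∀ u v : ↥(boxF 1 1), v ≠ u →
      num (Function.update (fun _ => true : Pat 1 1) u false) v = 1 := by
    intro u v hv
    simp [num, Function.update_of_ne hv]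
  refine ⟨?_, ?_, ?_, ?_, ?_, ?_⟩
  · rw [← h1]
    exact c.nonneg1 _
  · have h2 := (hm _ _ (hz lNb)).1
    rw [h1, h.birth _ (by rw [Function.update_of_ne ne_lo.symm]), e1, e2 _ _ ne_lr.symm] at h2
    linarith
  · have h2 := (hm _ _ (hz rNb)).1
    rw [h1, h.birth _ (by rw [Function.update_of_ne ne_ro.symm]), e1, e2 _ _ ne_lr] at h2
    linarith
  · rw [← h0]
    exact c.nonneg0 _
  · have h2 := (hm _ _ (ho lNb)).2
    rw [h0, h.death _ (by rw [Function.update_of_ne ne_lo.symm]), e3, e4 _ _ ne_lr.symm] at h2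
    linarith
  · have h2 := (hm _ _ (ho rNb)).2
    rw [h0, h.death _ (by rw [Function.update_of_ne ne_ro.symm]), e3, e4 _ _ ne_lr] at h2
    linarith

theorem Rates.Affine.gD_eq (h : c.Affine a0 aL aR b0 bL bR) (n : ℕ) (x : Site 1)
    (hx : |x 0| < (n : ℤ)) : gD c x = gA a0 aL aR b0 bL bR (sS n) (tS n) x := by
  rw [abs_lt] at hx
  ext ξ
  rw [gD_apply, h.drift_eq, gA_apply, view_orig]
  have e1 : (view x ξ : Pat 1 1) lNb = ξ (tS n x) := by
    show ξ (x + fun _ => -1) = ξ (tS n x)
    congr 1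
    refine site_ext ?_
    show x 0 + -1 = tZ n (x 0)
    unfold tZ
    rw [if_pos (by omega)]
    ring
  have e2 : (view x ξ : Pat 1 1) rNb = ξ (sS n x) := by
    show ξ (x + fun _ => 1) = ξ (sS n x)
    congr 1
    refine site_ext ?_
    show x 0 + 1 = sZ n (x 0)
    unfold sZ
    rw [if_pos (by omega)]
  rw [e1, e2]

theorem gA_mirror {V : Type*} (a0 aL aR b0 bL bR : ℝ) (s t : V → V) :
    gA a0 aL aR b0 bL bR s t = gA a0 aR aL b0 bR bL t s := by
  funext x
  ext ξ
  rw [gA_apply, gA_apply]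
  unfold adr
  split_ifs <;> ring

theorem adr_submod (a0 aL aR b0 bL bR : ℝ) (hL : bL ≤ aL) (hR : bR ≤ aR)
    (l x r l' x' r' : Bool) :
    adr a0 aL aR b0 bL bR (l ⊔ l') (x ⊔ x') (r ⊔ r') + adr a0 aL aR b0 bL bR (l ⊓ l') (x ⊓ x') (r ⊓ r')
      ≤ adr a0 aL aR b0 bL bR l x r + adr a0 aL aR b0 bL bR l' x' r' := by
  cases l <;> cases x <;> cases r <;> cases l' <;> cases x' <;> cases r' <;>
    simp [adr] <;> linarith

theorem Rates.Affine.submodular (h : c.Affine a0 aL aR b0 bL bR) (hL : bL ≤ aL) (hR : bR ≤ aR) :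
    c.Submodular := by
  intro p q
  rw [h.drift_eq, h.drift_eq, h.drift_eq, h.drift_eq]
  exact adr_submod a0 aL aR b0 bL bR hL hR _ _ _ _ _ _

/-- exponential ergodicity with rate `c₁(𝟎)` if births react more strongly than deaths -/
theorem Rates.Affine.expErgodic (h : c.Affine a0 aL aR b0 bL bR) (hm : c.Monotone)
    (hs : bL + bR ≤ aL + aR) : ExpErgodicRate c a0 := by
  obtain ⟨ha0, haL, haR, hb0, hbL, hbR⟩ := h.coef hm
  by_cases hL : bL ≤ aL
  · by_cases hR : bR ≤ aR
    · have h1 := expErgodic_submodular c hm (h.submodular hL hR)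
      rwa [h.c1_zero] at h1
    · -- `a_L > b_L`, `a_R < b_R`
      rw [not_le] at hR
      have hp : 0 < aL - bL := by linarith
      have hρ : 0 ≤ (bR - aR) / (aL - bL) := div_nonneg (by linarith) hp.le
      have hρ1 : (bR - aR) / (aL - bL) ≤ 1 := by
        rw [div_le_one hp]
        linarith
      have eL : bL + (aL - bL) = aL := by ring
      have eR : aR + (bR - aR) / (aL - bL) * (aL - bL) = bR := by
        rw [div_mul_cancel₀ _ hp.ne']
        ring
      refine expErgodicRate_of_gap c hm _ (fun S hS t => ?_)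
      refine gap_of_periodic ((sys_gD c).mono (le_max_left c.K (1 + (a0 + aL + aR + b0 + bL + bR))))
        a0 aL aR b0 bL bR
        (fun n => (gA_sys a0 aL aR b0 bL bR ha0 haL haR hb0 hbL hbR (sS n) (tS n)).mono
          (le_max_right _ _)) (fun n x hx => h.gD_eq n x hx) hS t _ (fun n hn => ?_)
      have h2 := ring_gap (cyc_sS n hn) (c := bL) (d := aR) (p := aL - bL)
        (ρ := (bR - aR) / (aL - bL)) (a := a0) (b := b0) hbL haR hp.le hρ ha0 hb0 hρ1 0
        (fun _ => -(n : ℤ)) ((mem_box1 n 0).2 (by simp)) (orb_sS n) t t.2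
      rw [eL, eR] at h2
      exact h2
  · -- `a_L < b_L`, `a_R > b_R`
    rw [not_le] at hL
    have hp : 0 < aR - bR := by linarith
    have hρ : 0 ≤ (bL - aL) / (aR - bR) := div_nonneg (by linarith) hp.le
    have hρ1 : (bL - aL) / (aR - bR) ≤ 1 := by
      rw [div_le_one hp]
      linarith
    have eR : bR + (aR - bR) = aR := by ring
    have eL : aL + (bL - aL) / (aR - bR) * (aR - bR) = bL := by
      rw [div_mul_cancel₀ _ hp.ne']
      ring
    refine expErgodicRate_of_gap c hm _ (fun S hS t => ?_)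
    refine gap_of_periodic ((sys_gD c).mono (le_max_left c.K (1 + (a0 + aL + aR + b0 + bL + bR))))
      a0 aL aR b0 bL bR
      (fun n => (gA_sys a0 aL aR b0 bL bR ha0 haL haR hb0 hbL hbR (sS n) (tS n)).mono
        (le_max_right _ _)) (fun n x hx => h.gD_eq n x hx) hS t _ (fun n hn => ?_)
    have h2 := ring_gap (cyc_tS n hn) (c := bR) (d := aL) (p := aR - bR)
      (ρ := (bL - aL) / (aR - bR)) (a := a0) (b := b0) hbR haL hp.le hρ ha0 hb0 hρ1 0
      (fun _ => (n : ℤ)) ((mem_box1 n 0).2 (by simp)) (orb_tS n) t t.2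
    rw [eL, eR, ← gA_mirror] at h2
    exact h2

theorem expErgodicRate_of_flip {d R : ℕ} (c : Rates d R) (γ : ℝ) (h : ExpErgodicRate c.flip γ) :
    ExpErgodicRate c γ := by
  obtain ⟨S, hS', hS, hu⟩ := exists_SG c
  have hF : IsSG (gD c.flip) (fun t => (J.comp (S t)).comp J) := by
    have := isSG_flip hS'
    have e : (fun x => -(J (gD c x))) = gD c.flip := funext (fun x => (flip_gD c x).symm)
    rwa [e] at this
  obtain ⟨S', hS1, hu1, ρ, hρ⟩ := h
  have hSS := hu1 _ (isIPS_of_isSG c.flip _ hF)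
  rw [← hSS] at hρ
  refine ⟨_, hS, hu, 1 - ρ, fun t ξ => ?_⟩
  have h := hρ t (fun y => !(ξ y))
  have e1 : J (occ (0 : Site d)) = 1 - occ 0 := by
    ext η
    rw [J_apply, ContinuousMap.sub_apply, ContinuousMap.one_apply, occ_apply, occ_apply]
    cases η 0 <;> simp
  have e2 : ((J.comp (S t)).comp J) (occ (0 : Site d)) (fun y => !(ξ y)) = 1 - S t (occ 0) ξ := by
    show S t (J (occ 0)) (fun x => !(!(ξ x))) = 1 - S t (occ 0) ξ
    rw [e1, map_sub, hS'.one]
    simp
  simp only [e2] at h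
  rw [abs_sub_comm]
  have e4 : 1 - ρ - S t (occ 0) ξ = 1 - S t (occ 0) ξ - ρ := by ring
  rw [e4]
  exact h

theorem num_not (p : Pat 1 1) (u : ↥(boxF 1 1)) : num (fun y => !(p y)) u = 1 - num p u := by
  unfold num
  cases hp : p u <;> simp [hp]

theorem Rates.Affine.flip (h : c.Affine a0 aL aR b0 bL bR) : c.flip.Affine b0 bL bR a0 aL aR where
  birth := by
    intro p hp
    show c.c0 (fun y => !(p y)) = _
    rw [h.death _ (by rw [hp]; rfl), num_not, num_not]
    ring
  death := by
    intro p hp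
    show c.c1 (fun y => !(p y)) = _
    rw [h.birth _ (by rw [hp]; rfl), num_not, num_not]

/-- exponential ergodicity with rate `c₀(𝟏)` if deaths react more strongly than births -/
theorem Rates.Affine.expErgodic' (h : c.Affine a0 aL aR b0 bL bR) (hm : c.Monotone)
    (hs : aL + aR ≤ bL + bR) : ExpErgodicRate c b0 :=
  expErgodicRate_of_flip c b0 (h.flip.expErgodic (flip_monotone c hm) hs)

theorem Rates.Affine.addBirth (h : c.Affine a0 aL aR b0 bL bR) (e : ℝ) (he : 0 ≤ e) :
    (c.addBirth e he).Affine (a0 + e) aL aR b0 bL bR where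
  birth := by
    intro p hp
    show c.c1 p + e = _
    rw [h.birth p hp]
    ring
  death := fun p hp => h.death p hp

theorem Rates.Affine.addDeath (h : c.Affine a0 aL aR b0 bL bR) (e : ℝ) (he : 0 ≤ e) :
    (c.addDeath e he).Affine a0 aL aR (b0 + e) bL bR where
  birth := fun p hp => h.birth p hp
  death := by
    intro p hp
    show c.c0 p + e = _
    rw [h.death p hp]
    ring

end

/-- affine nearest neighbour systems on `ℤ` -/
theorem affine_main (c : Rates 1 1) (a0 aL aR b0 bL bR : ℝ) (h : c.Affine a0 aL aR b0 bL bR)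
    (hm : c.Monotone) (e : ℝ) (he : 0 ≤ e) :
    (bL + bR ≤ aL + aR → (c.addBirth e he).Monotone ∧
      ExpErgodicRate (c.addBirth e he) (c.c1 (fun _ => false) + e)) ∧
    (aL + aR ≤ bL + bR → (c.addDeath e he).Monotone ∧
      ExpErgodicRate (c.addDeath e he) (c.c0 (fun _ => true) + e)) := by
  constructor
  · intro hs
    refine ⟨addBirth_monotone c e he hm, ?_⟩
    rw [h.c1_zero]
    exact (h.addBirth e he).expErgodic (addBirth_monotone c e he hm) hs
  · intro hs
    refine ⟨addDeath_monotone c e he hm, ?_⟩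
    rw [h.c0_one]
    exact (h.addDeath e he).expErgodic' (addDeath_monotone c e he hm) hs

end MP1060
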