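import Pool.Agent.Work.MP_1060d1_pr.SUB.Lim

/-!
Decay of the gap between the two extreme initial configurations for submodular drifts.
-/

open Filter Topology
open scoped NNReal

namespace MP1060

variable {V : Type*} [DecidableEq V]

/-- squeeze to a limit -/
theorem rho_exists {g : V → Obs V} {S : ℝ≥0 → Obs V →L[ℝ] Obs V} (hS : IsSG g S)
    (hinc : ∀ (f : Obs V), IncO f → ∀ t, IncO (S t f)) (f : Obs V) (hf : IncO f) :
    ∃ ρ : ℝ, ∀ (t : ℝ≥0) (ξ : V → Bool),
      |S t f ξ - ρ| ≤ S t f (fun _ => true) - S t f (fun _ => false) := by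
  have hlo : ∀ t ξ, S t f (fun _ => false) ≤ S t f ξ := fun t ξ =>
    (hinc f hf t).mono (fun _ => Bool.false_le _)
  have hhi : ∀ t ξ, S t f ξ ≤ S t f (fun _ => true) := fun t ξ =>
    (hinc f hf t).mono (fun _ => Bool.le_true _)
  have ha : ∀ s t : ℝ≥0, S t f (fun _ => false) ≤ S (s + t) f (fun _ => false) := by
    intro s t
    have h := hS.nonneg s (S t f - (S t f (fun _ => false)) • 1) (fun ξ => by
      have := hlo t ξ
      simp only [ContinuousMap.sub_apply, ContinuousMap.smul_apply, ContinuousMap.one_apply,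
        smul_eq_mul, mul_one]
      linarith) (fun _ => false)
    rw [map_sub, map_smul, hS.one, ← hS.add] at h
    simp only [ContinuousMap.sub_apply, ContinuousMap.smul_apply, ContinuousMap.one_apply,
        smul_eq_mul, mul_one] at h
    linarith
  have hb : ∀ s t : ℝ≥0, S (s + t) f (fun _ => true) ≤ S t f (fun _ => true) := by
    intro s t
    have h := hS.nonneg s ((S t f (fun _ => true)) • 1 - S t f) (fun ξ => by
      have := hhi t ξ
      simp only [ContinuousMap.sub_apply, ContinuousMap.smul_apply, ContinuousMap.one_apply,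
        smul_eq_mul, mul_one]
      linarith) (fun _ => true)
    rw [map_sub, map_smul, hS.one, ← hS.add] at h
    simp only [ContinuousMap.sub_apply, ContinuousMap.smul_apply, ContinuousMap.one_apply,
        smul_eq_mul, mul_one] at h
    linarith
  have hab : ∀ s t : ℝ≥0, S s f (fun _ => false) ≤ S t f (fun _ => true) := by
    intro s t
    calc S s f (fun _ => false) ≤ S (t + s) f (fun _ => false) := ha t s
      _ ≤ S (t + s) f (fun _ => true) := hhi _ _
      _ = S (s + t) f (fun _ => true) := by rw [add_comm]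
      _ ≤ S t f (fun _ => true) := hb s t
  refine ⟨⨆ s : ℝ≥0, S s f (fun _ => false), fun t ξ => ?_⟩
  have hbdd : BddAbove (Set.range fun s : ℝ≥0 => S s f (fun _ => false)) :=
    ⟨S 0 f (fun _ => true), by
      rintro _ ⟨s, rfl⟩
      exact hab s 0⟩
  have h1 : S t f (fun _ => false) ≤ ⨆ s : ℝ≥0, S s f (fun _ => false) := le_ciSup hbdd t
  have h2 : (⨆ s : ℝ≥0, S s f (fun _ => false)) ≤ S t f (fun _ => true) :=
    ciSup_le (fun s => hab s t)
  have h3 := hlo t ξ
  have h4 := hhi t ξ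
  rw [abs_le]
  constructor <;> linarith

theorem TF_eval_hasDerivAt (g : V → Obs V) (Λ : Finset V) (f : Obs V) (ξ : V → Bool) (t : ℝ) :
    HasDerivAt (fun t : ℝ => TF g Λ t f ξ) (LF g Λ (TF g Λ t f) ξ) t := by
  have h := ((ContinuousMap.evalCLM ℝ ξ : Obs V →L[ℝ] ℝ).hasFDerivAt
    (x := eT (LF g Λ) t f)).comp_hasDerivAt t (eT_hasDerivAt (LF g Λ) f t)
  exact h

theorem TF_gap {g : V → Obs V} {K : ℝ} (hg : Sys g K) (hm : Mono g) (hs : Subm g)
    (γ : ℝ) (hγ0 : 0 ≤ γ) (hγ : ∀ x, γ ≤ g x (fun _ => false)) (Λ : Finset V) (o : V) (t : ℝ)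
    (ht : 0 ≤ t) :
    TF g Λ t (occ o) (ind Λ) - TF g Λ t (occ o) (fun _ => false) ≤ Real.exp (-(γ * t)) := by
  set u : ℝ → ℝ := fun s => TF g Λ s (occ o) (ind Λ) - TF g Λ s (occ o) (fun _ => false) with hu
  set u' : ℝ → ℝ := fun s => LF g Λ (TF g Λ s (occ o)) (ind Λ)
    - LF g Λ (TF g Λ s (occ o)) (fun _ => false) with hu'
  have hd : ∀ s, HasDerivAt u (u' s) s := fun s =>
    (TF_eval_hasDerivAt g Λ (occ o) (ind Λ) s).sub (TF_eval_hasDerivAt g Λ (occ o) _ s)
  have hbound : ∀ s, 0 ≤ s → u' s ≤ -(γ * u s) := by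
    intro s hs0
    have hI := TF_incO hg hm Λ s hs0 (occ o) (occ_incO o)
    have hSu := TF_subO hg hm hs Λ s hs0 (occ o) (occ_incO o) (occ_subO o)
    have h1 : LF g Λ (TF g Λ s (occ o)) (ind Λ) ≤ 0 := by
      rw [LF_apply]
      refine Finset.sum_nonpos (fun x hx => ?_)
      exact mul_nonpos_of_nonpos_of_nonneg (hg.on x _ (by simp [ind, hx])) (hI x _)
    have h2 : γ * u s ≤ LF g Λ (TF g Λ s (occ o)) (fun _ => false) := by
      rw [LF_apply]
      calc γ * u s ≤ γ * ∑ x ∈ Λ, D x (TF g Λ s (occ o)) (fun _ => false) :=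
            mul_le_mul_of_nonneg_left (hSu.star Λ) hγ0
        _ = ∑ x ∈ Λ, γ * D x (TF g Λ s (occ o)) (fun _ => false) := by rw [Finset.mul_sum]
        _ ≤ ∑ x ∈ Λ, g x (fun _ => false) * D x (TF g Λ s (occ o)) (fun _ => false) :=
            Finset.sum_le_sum (fun x _ => mul_le_mul_of_nonneg_right (hγ x) (hI x _))
    show LF g Λ (TF g Λ s (occ o)) (ind Λ) - LF g Λ (TF g Λ s (occ o)) (fun _ => false)
      ≤ -(γ * u s)
    linarith
  have hv : ∀ s, HasDerivAt (fun s => Real.exp (γ * s) * u s)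
      (Real.exp (γ * s) * γ * u s + Real.exp (γ * s) * u' s) s := by
    intro s
    have h1 : HasDerivAt (fun s => Real.exp (γ * s)) (Real.exp (γ * s) * γ) s := by
      have := ((hasDerivAt_id s).const_mul γ).exp
      simpa using this
    exact h1.mul (hd s)
  have h0 : u 0 ≤ 1 := by
    have e : ∀ ξ, TF g Λ 0 (occ o) ξ = occ o ξ := by
      intro ξ
      show eT (LF g Λ) 0 (occ o) ξ = occ o ξ
      rw [eT_zero]
      rfl
    show TF g Λ 0 (occ o) (ind Λ) - TF g Λ 0 (occ o) (fun _ => false) ≤ 1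
    rw [e, e, occ_apply, occ_apply]
    split_ifs <;> norm_num
  have hfin := image_le_of_deriv_right_le_deriv_boundary
    (f := fun s => Real.exp (γ * s) * u s)
    (f' := fun s => Real.exp (γ * s) * γ * u s + Real.exp (γ * s) * u' s)
    (a := 0) (b := t) (B := fun _ => 1) (B' := fun _ => 0)
    (fun s _ => (hv s).continuousAt.continuousWithinAt)
    (fun s _ => (hv s).hasDerivWithinAt) (by simpa using h0) continuousOn_const
    (fun s _ => hasDerivWithinAt_const _ _ _)
    (fun s hs1 => by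
      have h1 := hbound s hs1.1
      have h2 := mul_le_mul_of_nonneg_left h1 (Real.exp_pos (γ * s)).le
      linarith) (x := t) ⟨ht, le_rfl⟩
  have h3 : Real.exp (γ * t) * u t ≤ 1 := hfin
  rw [Real.exp_neg]
  rw [← one_div, le_div_iff₀ (Real.exp_pos _), mul_comm]
  exact h3

theorem eval_tendsto {F : ℕ → Obs V} {f : Obs V} (hF : Tendsto F atTop (𝓝 f))
    {x : ℕ → V → Bool} {y : V → Bool} (hx : Tendsto x atTop (𝓝 y)) :
    Tendsto (fun n => F n (x n)) atTop (𝓝 (f y)) := by
  have h : Continuous (fun p : Obs V × (V → Bool) => p.1 p.2) := continuous_eval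
  exact (h.tendsto (f, y)).comp (hF.prodMk_nhds hx)

theorem gap_submod {g : V → Obs V} {K : ℝ} (hg : Sys g K) (hm : Mono g) (hs : Subm g)
    {N : V → Finset V} {w : V → ℝ} {κ : ℝ}
    {Λ : ℕ → Finset V} (hG : Geo g N w κ Λ) {S : ℝ≥0 → Obs V →L[ℝ] Obs V} (hS : IsSG g S)
    (γ : ℝ) (hγ0 : 0 ≤ γ) (hγ : ∀ x, γ ≤ g x (fun _ => false)) (o : V) (t : ℝ≥0) :
    S t (occ o) (fun _ => true) - S t (occ o) (fun _ => false) ≤ Real.exp (-(γ * t)) := by
  have hex : ∀ x, ∃ n, x ∈ Λ n := by
    intro x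
    obtain ⟨n, hn⟩ := exists_nat_gt (w x)
    refine ⟨n, ?_⟩
    by_contra hx
    exact absurd (hG.out n x hx) (not_le.2 hn)
  have h1 := eval_tendsto (lim_all hg hG hS (occ o) t) (ind_tendsto Λ hG.mono hex)
  have h2 := eval_tendsto (lim_all hg hG hS (occ o) t)
    (tendsto_const_nhds (x := (fun _ : V => false)))
  exact le_of_tendsto' (h1.sub h2) (fun n => TF_gap hg hm hs γ hγ0 hγ (Λ n) o t t.2)

end MP1060
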