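import Pool.Agent.Work.MP_1060d1_pr.SUB.AffCone
import Pool.Agent.Work.MP_1060d1_pr.SUB.Decay

/-!
Affine nearest neighbour systems on a cycle: invariance of the cone and decay of the gap.
-/

open Filter Topology
open scoped NNReal

namespace MP1060

variable {V : Type*} [DecidableEq V]

section Ring

variable {s t : V → V} {F : Finset V} (hC : Cyc s t F) {ρ : ℝ} (hρ : 0 ≤ ρ)

/-- maps on a bond disjoint from `(x, s x)` -/
theorem BB_wr_off (φ : Bool → Bool → Bool) (u v x : V) (hu : x ≠ u) (hv : x ≠ v)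
    (hu' : s x ≠ u) (hv' : s x ≠ v) (f : Obs V) (ξ : V → Bool) :
    BB ρ s x (f.comp (wr φ u v)) ξ = BB ρ s x f (wr φ u v ξ) :=
  BB_comp_off ρ s x f _ (fun ξ b => wr_comm φ u v x hu hv ξ b)
    (fun ξ b => wr_comm φ u v (s x) hu' hv' ξ b) ξ

include hC in
theorem Cyc.far {x y : V} (h1 : y ≠ t x) (h2 : y ≠ x) (h3 : y ≠ s x) :
    x ≠ y ∧ x ≠ s y ∧ s x ≠ y ∧ s x ≠ s y := by
  refine ⟨fun h => h2 h.symm, fun h => h1 ?_, fun h => h3 h.symm, fun h => h2 ?_⟩
  · rw [h, hC.ts]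
  · rw [← hC.ts x, h, hC.ts]

include hC in
theorem Cyc.distinct {x : V} (hx : x ∈ F) : t x ≠ x ∧ t x ≠ s x ∧ x ≠ s x := by
  obtain ⟨h21, h31, h41, h32, h42, h43⟩ := hC.sites hx
  exact ⟨fun h => h21 h.symm, fun h => h31 h.symm, fun h => h32 h.symm⟩

variable {f : Obs V} (hS : SubO f) (hB : RatO ρ s F f)

include hC hρ hS hB in
theorem BB_sum_cl {x : V} (hx : x ∈ F) (ξ : V → Bool) :
    0 ≤ ∑ y ∈ F, BB ρ s x (f.comp (wr fK y (s y))) ξ := by
  obtain ⟨d1, d2, d3⟩ := hC.distinct hx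
  refine sum_three _ (t x) x (s x) (hC.memT x hx) hx (hC.memS x hx) d1 d2 d3
    (near_cl hC hρ hS hB hx ξ) (fun y hy h1 h2 h3 => ?_)
  obtain ⟨a1, a2, a3, a4⟩ := hC.far h1 h2 h3
  rw [BB_wr_off fK y (s y) x a1 a2 a3 a4]
  exact hB x hx _

include hC hρ hS hB in
theorem BB_sum_cr {x : V} (hx : x ∈ F) (ξ : V → Bool) :
    0 ≤ ∑ y ∈ F, BB ρ s x (f.comp (wr fK (s y) y)) ξ := by
  obtain ⟨d1, d2, d3⟩ := hC.distinct hx
  refine sum_three _ (t x) x (s x) (hC.memT x hx) hx (hC.memS x hx) d1 d2 d3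
    (near_cr hC hρ hS hB hx ξ) (fun y hy h1 h2 h3 => ?_)
  obtain ⟨a1, a2, a3, a4⟩ := hC.far h1 h2 h3
  rw [BB_wr_off fK (s y) y x a2 a1 a4 a3]
  exact hB x hx _

include hC hρ hS hB in
theorem BB_sum_mm {x : V} (hx : x ∈ F) (ξ : V → Bool) :
    0 ≤ ∑ y ∈ F, (BB ρ s x (f.comp (wr orK y (s y))) ξ
      + ρ * BB ρ s x (f.comp (wr andK (s y) y)) ξ) := by
  obtain ⟨d1, d2, d3⟩ := hC.distinct hx
  refine sum_three _ (t x) x (s x) (hC.memT x hx) hx (hC.memS x hx) d1 d2 d3
    (near_mm hC hρ hS hB hx ξ) (fun y hy h1 h2 h3 => ?_)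
  obtain ⟨a1, a2, a3, a4⟩ := hC.far h1 h2 h3
  rw [BB_wr_off orK y (s y) x a1 a2 a3 a4, BB_wr_off andK (s y) y x a2 a1 a4 a3]
  exact add_nonneg (hB x hx _) (mul_nonneg hρ (hB x hx _))

include hC hρ hS hB in
theorem BB_sum_tr {x : V} (hx : x ∈ F) (ξ : V → Bool) :
    0 ≤ ∑ y ∈ F, BB ρ s x (f.comp (wr trK y y)) ξ := by
  obtain ⟨d1, d2, d3⟩ := hC.distinct hx
  refine sum_three _ (t x) x (s x) (hC.memT x hx) hx (hC.memS x hx) d1 d2 d3 ?_
    (fun y hy h1 h2 h3 => ?_)
  · have e1 : BB ρ s x (f.comp (wr trK (t x) (t x))) ξ = BB ρ s x f (wr trK (t x) (t x) ξ) :=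
      BB_wr_off trK _ _ x d1.symm d1.symm d2.symm d2.symm f ξ
    have h1 := hB x hx (wr trK (t x) (t x) ξ)
    have h2 := hB x hx ξ
    have h3' := hS x (s x) ξ d3
    rw [DD_apply] at h3'
    have h3 := mul_nonneg hρ (neg_nonneg.2 h3')
    rw [e1]
    unfold BB at h1 h2 ⊢
    have k1 : ∀ a b : Bool, wr trK x x (Function.update (Function.update ξ x a) (s x) b)
        = Function.update (Function.update ξ x true) (s x) b := by
      intro a b
      rw [wr_apply, trK, Function.update_comm d3, Function.update_idem, Function.update_comm d3.symm]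
    have k2 : ∀ a b : Bool, wr trK (s x) (s x) (Function.update (Function.update ξ x a) (s x) b)
        = Function.update (Function.update ξ x a) (s x) true := by
      intro a b
      rw [wr_apply, trK, Function.update_idem]
    simp only [ContinuousMap.comp_apply, k1, k2]
    linarith
  · have a1 : x ≠ y := fun h => h2 h.symm
    have a2 : s x ≠ y := fun h => h3 h.symm
    rw [BB_wr_off trK y y x a1 a1 a2 a2]
    exact hB x hx _

include hC hρ hS hB in
theorem BB_sum_fa {x : V} (hx : x ∈ F) (ξ : V → Bool) :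
    0 ≤ ∑ y ∈ F, BB ρ s x (f.comp (wr faK y y)) ξ := by
  obtain ⟨d1, d2, d3⟩ := hC.distinct hx
  refine sum_three _ (t x) x (s x) (hC.memT x hx) hx (hC.memS x hx) d1 d2 d3 ?_
    (fun y hy h1 h2 h3 => ?_)
  · have e1 : BB ρ s x (f.comp (wr faK (t x) (t x))) ξ = BB ρ s x f (wr faK (t x) (t x) ξ) :=
      BB_wr_off faK _ _ x d1.symm d1.symm d2.symm d2.symm f ξ
    have h1 := hB x hx (wr faK (t x) (t x) ξ)
    have h2 := hB x hx ξ
    have h3 := hS x (s x) ξ d3
    rw [DD_apply] at h3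
    rw [e1]
    unfold BB at h1 h2 ⊢
    have k1 : ∀ a b : Bool, wr faK x x (Function.update (Function.update ξ x a) (s x) b)
        = Function.update (Function.update ξ x false) (s x) b := by
      intro a b
      rw [wr_apply, faK, Function.update_comm d3, Function.update_idem, Function.update_comm d3.symm]
    have k2 : ∀ a b : Bool, wr faK (s x) (s x) (Function.update (Function.update ξ x a) (s x) b)
        = Function.update (Function.update ξ x a) (s x) false := by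
      intro a b
      rw [wr_apply, faK, Function.update_idem]
    simp only [ContinuousMap.comp_apply, k1, k2]
    linarith
  · have a1 : x ≠ y := fun h => h2 h.symm
    have a2 : s x ≠ y := fun h => h3 h.symm
    rw [BB_wr_off faK y y x a1 a1 a2 a2]
    exact hB x hx _

/-- second differences of the bond maps -/
theorem DD_wr_nonpos (φ : Bool → Bool → Bool)
    (hφ : ∀ a a' b b', a ≤ a' → b ≤ b' → φ a b ≤ φ a' b') (f : Obs V) (hS : SubO f)
    (u v : V) (y z : V) (hyz : y ≠ z) (ξ : V → Bool)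
    (hon : ∀ ζ, u ≠ v → DD u v (f.comp (wr φ u v)) ζ ≤ 0) :
    DD y z (f.comp (wr φ u v)) ξ ≤ 0 := by
  by_cases h1 : z ≠ u ∧ z ≠ v
  · exact DD_wr_off hS φ hφ u v y z hyz (Or.inl h1) ξ
  by_cases h2 : y ≠ u ∧ y ≠ v
  · exact DD_wr_off hS φ hφ u v y z hyz (Or.inr h2) ξ
  have h3 : (y = u ∧ z = v) ∨ (y = v ∧ z = u) := by
    by_cases a : z = u
    · by_cases b : y = u
      · exact absurd (b.trans a.symm) hyz
      · right
        refine ⟨?_, a⟩
        by_contra hh
        exact h2 ⟨b, hh⟩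
    · left
      have a' : z = v := by
        by_contra hh
        exact h1 ⟨a, hh⟩
      refine ⟨?_, a'⟩
      by_contra hh
      refine h2 ⟨hh, fun e => hyz (e.trans a'.symm)⟩
  rcases h3 with ⟨rfl, rfl⟩ | ⟨rfl, rfl⟩
  · exact hon ξ hyz
  · rw [DD_comm hyz]
    exact hon ξ hyz.symm

theorem DD_fK (f : Obs V) (u v : V) (huv : u ≠ v) (ξ : V → Bool) :
    DD u v (f.comp (wr fK u v)) ξ ≤ 0 := by
  rw [DD_wr_on f fK u v huv]
  simp [fK]

/-- the combination of the two mixed maps on a bond -/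
theorem DD_mm {x : V} (hx : x ∈ F) (hxs : x ≠ s x) (hρ : 0 ≤ ρ) (f : Obs V) (hS : SubO f)
    (hB : RatO ρ s F f) (y z : V) (hyz : y ≠ z) (ξ : V → Bool) :
    DD y z (f.comp (wr orK x (s x))) ξ + ρ * DD y z (f.comp (wr andK (s x) x)) ξ ≤ 0 := by
  have hon : ∀ ζ, DD x (s x) (f.comp (wr orK x (s x))) ζ
      + ρ * DD x (s x) (f.comp (wr andK (s x) x)) ζ ≤ 0 := by
    intro ζ
    rw [DD_wr_on f orK x (s x) hxs, DD_comm hxs, DD_wr_on f andK (s x) x hxs.symm]
    have h1 := hB x hx ζ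
    have h2 := hS x (s x) ζ hxs
    have h3 := mul_nonneg hρ (neg_nonneg.2 h2)
    unfold BB at h1
    rw [DD_apply] at h2 h3
    have k : ∀ a b : Bool, Function.update (Function.update ζ (s x) b) x a
        = Function.update (Function.update ζ x a) (s x) b := by
      intro a b
      rw [Function.update_comm hxs]
    simp only [orK, andK, k, Bool.true_or, Bool.false_or, Bool.or_true, Bool.or_false,
      Bool.true_and, Bool.false_and, Bool.and_true, Bool.and_false]
    linarith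
  by_cases h1 : z ≠ x ∧ z ≠ s x
  · have a1 := DD_wr_off hS orK orK_mono x (s x) y z hyz (Or.inl h1) ξ
    have a2 := DD_wr_off hS andK andK_mono (s x) x y z hyz (Or.inl ⟨h1.2, h1.1⟩) ξ
    have a3 := mul_nonneg hρ (neg_nonneg.2 a2)
    linarith
  by_cases h2 : y ≠ x ∧ y ≠ s x
  · have a1 := DD_wr_off hS orK orK_mono x (s x) y z hyz (Or.inr h2) ξ
    have a2 := DD_wr_off hS andK andK_mono (s x) x y z hyz (Or.inr ⟨h2.2, h2.1⟩) ξ
    have a3 := mul_nonneg hρ (neg_nonneg.2 a2)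
    linarith
  have h3 : (y = x ∧ z = s x) ∨ (y = s x ∧ z = x) := by
    by_cases a : z = x
    · by_cases b : y = x
      · exact absurd (b.trans a.symm) hyz
      · right
        refine ⟨?_, a⟩
        by_contra hh
        exact h2 ⟨b, hh⟩
    · left
      have a' : z = s x := by
        by_contra hh
        exact h1 ⟨a, hh⟩
      refine ⟨?_, a'⟩
      by_contra hh
      refine h2 ⟨hh, fun e => hyz (e.trans a'.symm)⟩
  rcases h3 with ⟨rfl, rfl⟩ | ⟨rfl, rfl⟩
  · exact hon ξ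
  · rw [DD_comm hyz, DD_comm hyz]
    exact hon ξ

end Ring

end MP1060
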