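import Pool.Agent.Work.MP_1060d1_pr.SUB.ExpB

/-!
Spin systems on `V → Bool`: bounded finite-volume generators on `C(V → Bool, ℝ)`.
A system is given by its drift functions `g : V → C(V → Bool, ℝ)`:
`g x ξ` is the rate of `0 → 1` at `x` if `ξ x = false`, and minus the rate of `1 → 0` if `ξ x = true`.
-/

open Filter Topology
open scoped NNReal

namespace MP1060

variable {V : Type*} [DecidableEq V]

/-- real observables -/
abbrev Obs (V : Type*) := C(V → Bool, ℝ)

/-- the map `ξ ↦ ξ^{x,b}` -/
def setC (x : V) (b : Bool) : C(V → Bool, V → Bool) :=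
  ⟨fun ξ => Function.update ξ x b, continuous_id.update x continuous_const⟩

@[simp] theorem setC_apply (x : V) (b : Bool) (ξ : V → Bool) :
    setC x b ξ = Function.update ξ x b := rfl

/-- `(sub x b f)(ξ) = f(ξ^{x,b})` -/
noncomputable def sub (x : V) (b : Bool) : Obs V →L[ℝ] Obs V :=
  LinearMap.mkContinuous
    { toFun := fun f => f.comp (setC x b)
      map_add' := fun _ _ => rfl
      map_smul' := fun _ _ => rfl } 1 (by
    intro f
    rw [one_mul]
    refine (ContinuousMap.norm_le _ (norm_nonneg f)).2 ?_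
    intro ξ
    exact ContinuousMap.norm_coe_le_norm f _)

@[simp] theorem sub_apply (x : V) (b : Bool) (f : Obs V) (ξ : V → Bool) :
    sub x b f ξ = f (Function.update ξ x b) := rfl

/-- discrete derivative in direction `x` -/
noncomputable def D (x : V) : Obs V →L[ℝ] Obs V := sub x true - sub x false

theorem D_apply (x : V) (f : Obs V) (ξ : V → Bool) :
    D x f ξ = f (Function.update ξ x true) - f (Function.update ξ x false) := rfl

/-- finite-volume generator: only the sites of `F` flip -/
noncomputable def LF (g : V → Obs V) (F : Finset V) : Obs V →L[ℝ] Obs V :=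
  ∑ x ∈ F, (ContinuousLinearMap.mul ℝ (Obs V) (g x)).comp (D x)

theorem LF_apply (g : V → Obs V) (F : Finset V) (f : Obs V) (ξ : V → Bool) :
    LF g F f ξ = ∑ x ∈ F, g x ξ * D x f ξ := by
  unfold LF
  rw [sum_apply, ContinuousMap.coe_sum, Finset.sum_apply]
  rfl

/-- the occupation variable of `x` -/
def occ (x : V) : Obs V :=
  ⟨fun ξ => if ξ x then 1 else 0, by
    have h : Continuous (fun b : Bool => (if b then (1:ℝ) else 0)) := continuous_of_discreteTopology
    exact h.comp (continuous_apply x)⟩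

theorem occ_apply (x : V) (ξ : V → Bool) : occ x ξ = if ξ x then 1 else 0 := rfl

/-- the finite-volume semigroup -/
noncomputable def TF (g : V → Obs V) (F : Finset V) (t : ℝ) : Obs V →L[ℝ] Obs V :=
  eT (LF g F) t

/-- sign and size conditions on the drift functions -/
structure Sys (g : V → Obs V) (K : ℝ) : Prop where
  K_pos : 0 < K
  off : ∀ x ξ, ξ x = false → 0 ≤ g x ξ
  on : ∀ x ξ, ξ x = true → g x ξ ≤ 0
  bd : ∀ x ξ, |g x ξ| ≤ K

/-- monotone rates -/
def Mono (g : V → Obs V) : Prop :=
  ∀ x y ξ, x ≠ y → 0 ≤ D y (g x) ξ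

/-- second difference -/
noncomputable def DD (y z : V) (f : Obs V) (ξ : V → Bool) : ℝ := D y (D z f) ξ

/-- submodular drift -/
def Subm (g : V → Obs V) : Prop :=
  ∀ x y z ξ, y ≠ z → DD y z (g x) ξ ≤ 0

/-- increasing observables -/
def IncO (f : Obs V) : Prop := ∀ y ξ, 0 ≤ D y f ξ

/-- submodular observables -/
def SubO (f : Obs V) : Prop := ∀ y z ξ, y ≠ z → DD y z f ξ ≤ 0

theorem DD_apply (y z : V) (f : Obs V) (ξ : V → Bool) :
    DD y z f ξ = (f (Function.update (Function.update ξ y true) z true)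
      - f (Function.update (Function.update ξ y true) z false))
      - (f (Function.update (Function.update ξ y false) z true)
      - f (Function.update (Function.update ξ y false) z false)) := rfl

/-- a Markov (Feller) semigroup on `C(V → Bool, ℝ)` whose generator is given by the drift functions
`g` on functions of finitely many coordinates -/
structure IsSG (g : V → Obs V) (S : ℝ≥0 → Obs V →L[ℝ] Obs V) : Prop where
  zero : ∀ f, S 0 f = f
  add : ∀ s t f, S (s + t) f = S s (S t f)
  one : ∀ t, S t 1 = 1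
  nonneg : ∀ t (f : Obs V), (∀ ξ, 0 ≤ f ξ) → ∀ ξ, 0 ≤ S t f ξ
  cont : ∀ f, Tendsto (fun t => S t f) (𝓝 0) (𝓝 f)
  gen : ∀ (F : Finset V) (f : Obs V), DependsOn (f : (V → Bool) → ℝ) (F : Set V) →
    Tendsto (fun t : ℝ≥0 => (t : ℝ)⁻¹ • (S t f - f)) (𝓝[>] 0) (𝓝 (LF g F f))

/-- geometry: ranges `N x`, weights `w`, exhaustion `Λ` -/
structure Geo (g : V → Obs V) (N : V → Finset V) (w : V → ℝ) (κ : ℝ) (Λ : ℕ → Finset V) :
    Prop where
  range : ∀ x, DependsOn (g x : (V → Bool) → ℝ) (N x : Set V)
  w_pos : ∀ x, 0 < w x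
  κ_nonneg : 0 ≤ κ
  sum : ∀ y, ∑ x ∈ N y, w x ≤ κ * w y
  mono : Monotone Λ
  out : ∀ n x, x ∉ Λ n → (n : ℝ) ≤ w x

end MP1060
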