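import Pool.Agent.Work.MP_1060d1_pr.SUB.Base

/-!
The cones of increasing observables and of increasing submodular observables are invariant under the
finite-volume semigroups of monotone systems and of monotone systems with submodular drift.
-/

open Filter Topology
open scoped NNReal

namespace MP1060

variable {V : Type*} [DecidableEq V]

theorem continuous_D_eval (y : V) (ξ : V → Bool) : Continuous fun f : Obs V => D y f ξ :=
  (continuous_eval_const (F := Obs V) ξ).comp (D y).continuous

theorem continuous_DD_eval (y z : V) (ξ : V → Bool) : Continuous fun f : Obs V => DD y z f ξ :=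
  (continuous_eval_const (F := Obs V) ξ).comp ((D y).continuous.comp (D z).continuous)

theorem D_self_update (x : V) (b : Bool) (f : Obs V) (ξ : V → Bool) :
    D x f (Function.update ξ x b) = D x f ξ := by
  rw [D_apply, D_apply, Function.update_idem, Function.update_idem]

theorem DD_comm {y z : V} (h : y ≠ z) (f : Obs V) (ξ : V → Bool) : DD y z f ξ = DD z y f ξ := by
  rw [DD_apply, DD_apply, Function.update_comm h, Function.update_comm h,
    Function.update_comm h, Function.update_comm h]
  ring

/-- the discrete derivative of the generator -/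
theorem D_LF (g : V → Obs V) (F : Finset V) (f : Obs V) (y : V) (ξ : V → Bool) :
    D y (LF g F f) ξ = ∑ x ∈ F, (g x (Function.update ξ y true) * D x f (Function.update ξ y true) -
      g x (Function.update ξ y false) * D x f (Function.update ξ y false)) := by
  rw [D_apply, LF_apply, LF_apply, ← Finset.sum_sub_distrib]

theorem DD_LF (g : V → Obs V) (F : Finset V) (f : Obs V) (y z : V) (ξ : V → Bool) :
    DD y z (LF g F f) ξ = ∑ x ∈ F,
      ((g x (Function.update (Function.update ξ y true) z true) *
          D x f (Function.update (Function.update ξ y true) z true) -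
        g x (Function.update (Function.update ξ y true) z false) *
          D x f (Function.update (Function.update ξ y true) z false)) -
      (g x (Function.update (Function.update ξ y false) z true) *
          D x f (Function.update (Function.update ξ y false) z true) -
        g x (Function.update (Function.update ξ y false) z false) *
          D x f (Function.update (Function.update ξ y false) z false))) := by
  rw [DD_apply, LF_apply, LF_apply, LF_apply, LF_apply, ← Finset.sum_sub_distrib,
    ← Finset.sum_sub_distrib, ← Finset.sum_sub_distrib]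

/-- one site, first differences -/
theorem inc_site {g : V → Obs V} {K : ℝ} (hg : Sys g K) (hm : Mono g) {f : Obs V} (hf : IncO f)
    (x y : V) (ξ : V → Bool) :
    -(2 * K * D y f ξ) ≤
      g x (Function.update ξ y true) * D x f (Function.update ξ y true) -
        g x (Function.update ξ y false) * D x f (Function.update ξ y false) := by
  have hK := hg.K_pos
  have hfy := hf y ξ
  by_cases hxy : x = y
  · subst hxy
    rw [D_self_update, D_self_update]
    have h1 := (abs_le.1 (hg.bd x (Function.update ξ x true))).1
    have h0 := (abs_le.1 (hg.bd x (Function.update ξ x false))).2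
    nlinarith
  · have ha := hm x y ξ hxy
    rw [D_apply] at ha
    set a1 := g x (Function.update ξ y true) with ha1
    set a0 := g x (Function.update ξ y false) with ha0
    have hb1 := hf x (Function.update ξ y true)
    have hb0 := hf x (Function.update ξ y false)
    have hbd : D x f (Function.update ξ y true) - D x f (Function.update ξ y false) =
        D y f (Function.update ξ x true) - D y f (Function.update ξ x false) := by
      have h1 := DD_comm (fun h => hxy h.symm : y ≠ x) f ξ
      exact h1
    set b1 := D x f (Function.update ξ y true) with hb1'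
    set b0 := D x f (Function.update ξ y false) with hb0'
    have hx1 : Function.update ξ y true x = ξ x := Function.update_of_ne hxy _ _
    have hx0 : Function.update ξ y false x = ξ x := Function.update_of_ne hxy _ _
    have hc1 := hf y (Function.update ξ x true)
    have hc0 := hf y (Function.update ξ x false)
    cases hξ : ξ x with
    | false =>
      have h1 : Function.update ξ x false = ξ := by rw [← hξ, Function.update_eq_self]
      have h2 : 0 ≤ a0 := hg.off x _ (by rw [hx0, hξ])
      have h3 : a0 ≤ K := (abs_le.1 (hg.bd x _)).2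
      rw [h1] at hbd
      have e1 : a1 * b1 - a0 * b0 = (a1 - a0) * b1 + a0 * (b1 - b0) := by ring
      rw [e1, hbd]
      have h4 : 0 ≤ (a1 - a0) * b1 := mul_nonneg ha hb1
      have h5 : 0 ≤ a0 * D y f (Function.update ξ x true) := mul_nonneg h2 hc1
      have h6 : a0 * D y f ξ ≤ K * D y f ξ := mul_le_mul_of_nonneg_right h3 hfy
      have h7 : 0 ≤ K * D y f ξ := mul_nonneg hK.le hfy
      nlinarith
    | true =>
      have h1 : Function.update ξ x true = ξ := by rw [← hξ, Function.update_eq_self]
      have h2 : a1 ≤ 0 := hg.on x _ (by rw [hx1, hξ])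
      have h3 : -K ≤ a1 := (abs_le.1 (hg.bd x _)).1
      rw [h1] at hbd
      have e1 : a1 * b1 - a0 * b0 = (a1 - a0) * b0 + a1 * (b1 - b0) := by ring
      rw [e1, hbd]
      have h4 : 0 ≤ (a1 - a0) * b0 := mul_nonneg ha hb0
      have h5 : 0 ≤ (-a1) * D y f (Function.update ξ x false) := mul_nonneg (by linarith) hc0
      have h6 : (-a1) * D y f ξ ≤ K * D y f ξ := mul_le_mul_of_nonneg_right (by linarith) hfy
      have h7 : 0 ≤ K * D y f ξ := mul_nonneg hK.le hfy
      nlinarith

omit [DecidableEq V] in
theorem hcoef {g : V → Obs V} {K : ℝ} (hg : Sys g K) (F : Finset V) :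
    0 < 1 / (2 * ((F.card : ℝ) + 1) * K) ∧
      1 / (2 * ((F.card : ℝ) + 1) * K) * ((F.card : ℝ) * (2 * K)) ≤ 1 := by
  have hK := hg.K_pos
  have hc : (0 : ℝ) ≤ F.card := Nat.cast_nonneg _
  refine ⟨by positivity, ?_⟩
  rw [div_mul_eq_mul_div, one_mul, div_le_one (by positivity)]
  nlinarith

theorem IncO_step {g : V → Obs V} {K : ℝ} (hg : Sys g K) (hm : Mono g) (F : Finset V)
    {f : Obs V} (hf : IncO f) :
    IncO (f + (1 / (2 * ((F.card : ℝ) + 1) * K)) • LF g F f) := by
  intro y ξ
  obtain ⟨h1, h2⟩ := hcoef hg F
  set h := 1 / (2 * ((F.card : ℝ) + 1) * K) with hh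
  rw [map_add, map_smul]
  change 0 ≤ D y f ξ + h * D y (LF g F f) ξ
  rw [D_LF]
  have h3 : -((F.card : ℝ) * (2 * K * D y f ξ)) ≤
      ∑ x ∈ F, (g x (Function.update ξ y true) * D x f (Function.update ξ y true) -
      g x (Function.update ξ y false) * D x f (Function.update ξ y false)) := by
    have h4 := Finset.sum_le_sum fun x (_ : x ∈ F) => inc_site hg hm hf x y ξ
    rw [Finset.sum_const, nsmul_eq_mul] at h4
    linarith
  have h5 := mul_le_mul_of_nonneg_left h3 h1.le
  have h6 := mul_le_mul_of_nonneg_right h2 (hf y ξ)
  nlinarith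

theorem TF_incO {g : V → Obs V} {K : ℝ} (hg : Sys g K) (hm : Mono g) (F : Finset V) (t : ℝ)
    (ht : 0 ≤ t) (f : Obs V) (hf : IncO f) : IncO (TF g F t f) := by
  refine eT_mem_cone (LF g F) {f : Obs V | IncO f} ?_ ?_ ?_ ?_ _ (hcoef hg F).1 ?_ t ht f hf
  · have h1 : {f : Obs V | IncO f} = ⋂ y : V, ⋂ ξ : V → Bool, {f : Obs V | 0 ≤ D y f ξ} := by
      ext f
      simp only [Set.mem_ofPred_eq, Set.mem_iInter]
      rfl
    rw [h1]
    exact isClosed_iInter fun y => isClosed_iInter fun ξ =>
      isClosed_le continuous_const (continuous_D_eval y ξ)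
  · intro y ξ
    rw [map_zero]
    exact le_rfl
  · intro f hf f' hf' y ξ
    rw [map_add]
    exact add_nonneg (hf y ξ) (hf' y ξ)
  · intro a ha f hf y ξ
    rw [map_smul]
    exact mul_nonneg ha (hf y ξ)
  · intro f hf
    exact IncO_step hg hm F hf

/-- one site, second differences -/
theorem sub_site {g : V → Obs V} {K : ℝ} (hg : Sys g K) (hm : Mono g) (hs : Subm g) {f : Obs V}
    (hf : IncO f) (hf2 : SubO f) (x y z : V) (hyz : y ≠ z) (ξ : V → Bool) :
    ((g x (Function.update (Function.update ξ y true) z true) *
          D x f (Function.update (Function.update ξ y true) z true) -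
        g x (Function.update (Function.update ξ y true) z false) *
          D x f (Function.update (Function.update ξ y true) z false)) -
      (g x (Function.update (Function.update ξ y false) z true) *
          D x f (Function.update (Function.update ξ y false) z true) -
        g x (Function.update (Function.update ξ y false) z false) *
          D x f (Function.update (Function.update ξ y false) z false))) ≤
      2 * K * (-DD y z f ξ) := by
  have hK := hg.K_pos
  have hgs := hs x y z ξ hyz
  rw [DD_apply] at hgs
  have hDD := hf2 y z ξ hyz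
  have hzy : z ≠ y := fun h => hyz h.symm
  -- the boundary cases
  have hedge : ∀ (u w : V), u ≠ w → ∀ a11 a10 a01 a00 : ℝ,
      a11 ≤ 0 → -K ≤ a11 → a10 ≤ 0 → 0 ≤ a01 → a01 ≤ K → 0 ≤ a00 →
      (a11 - a10) - (a01 - a00) ≤ 0 →
      (a11 - a01) * D u f (Function.update ξ w true) -
        (a10 - a00) * D u f (Function.update ξ w false) ≤ 2 * K * (-DD w u f ξ) := by
    intro u w huw a11 a10 a01 a00 h1 h2 h3 h4 h5 h6 h7
    have h8 := hf2 w u ξ fun h => huw h.symm
    have h9 : DD w u f ξ = D u f (Function.update ξ w true) - D u f (Function.update ξ w false) :=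
      rfl
    have hb0 := hf u (Function.update ξ w false)
    set b1 := D u f (Function.update ξ w true)
    set b0 := D u f (Function.update ξ w false)
    rw [h9] at h8 ⊢
    have e1 : (a11 - a01) * b1 - (a10 - a00) * b0 =
        (a01 - a11) * (-(b1 - b0)) - ((a01 - a11) - (a00 - a10)) * b0 := by ring
    rw [e1]
    have h10 : 0 ≤ ((a01 - a11) - (a00 - a10)) * b0 := mul_nonneg (by linarith) hb0
    have h11 : (a01 - a11) * (-(b1 - b0)) ≤ 2 * K * (-(b1 - b0)) :=
      mul_le_mul_of_nonneg_right (by linarith) (by linarith)
    linarith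
  by_cases hxy : x = y
  · subst hxy
    have e : ∀ i j : Bool, D x f (Function.update (Function.update ξ x i) z j) =
        D x f (Function.update ξ z j) := by
      intro i j
      rw [Function.update_comm hyz, D_self_update]
    rw [e, e, e, e]
    have hv : ∀ i j : Bool, Function.update (Function.update ξ x i) z j x = i := by
      intro i j
      rw [Function.update_of_ne hyz, Function.update_self]
    have h := hedge x z hyz
      (g x (Function.update (Function.update ξ x true) z true))
      (g x (Function.update (Function.update ξ x true) z false))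
      (g x (Function.update (Function.update ξ x false) z true))
      (g x (Function.update (Function.update ξ x false) z false))
      (hg.on x _ (hv _ _)) (abs_le.1 (hg.bd x _)).1 (hg.on x _ (hv _ _))
      (hg.off x _ (hv _ _)) (abs_le.1 (hg.bd x _)).2 (hg.off x _ (hv _ _)) hgs
    rw [DD_comm hzy] at h
    linarith
  by_cases hxz : x = z
  · subst hxz
    have e : ∀ i j : Bool, D x f (Function.update (Function.update ξ y i) x j) =
        D x f (Function.update ξ y i) := by
      intro i j
      rw [D_self_update]
    rw [e, e, e, e]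
    have hv : ∀ i j : Bool, Function.update (Function.update ξ y i) x j x = j := by
      intro i j
      rw [Function.update_self]
    have h := hedge x y hzy
      (g x (Function.update (Function.update ξ y true) x true))
      (g x (Function.update (Function.update ξ y false) x true))
      (g x (Function.update (Function.update ξ y true) x false))
      (g x (Function.update (Function.update ξ y false) x false))
      (hg.on x _ (hv _ _)) (abs_le.1 (hg.bd x _)).1 (hg.on x _ (hv _ _))
      (hg.off x _ (hv _ _)) (abs_le.1 (hg.bd x _)).2 (hg.off x _ (hv _ _)) (by linarith)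
    linarith
  · -- the interior case
    have hyx : y ≠ x := fun h => hxy h.symm
    have hzx : z ≠ x := fun h => hxz h.symm
    set ξ11 := Function.update (Function.update ξ y true) z true with h11
    set ξ10 := Function.update (Function.update ξ y true) z false with h10
    set ξ01 := Function.update (Function.update ξ y false) z true with h01
    set ξ00 := Function.update (Function.update ξ y false) z false with h00
    have m1 : g x ξ00 ≤ g x ξ10 := by
      have := hm x y (Function.update ξ z false) hxy
      rw [D_apply, Function.update_comm hzy, Function.update_comm hzy] at this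
      linarith
    have m2 : g x ξ00 ≤ g x ξ01 := by
      have := hm x z (Function.update ξ y false) hxz
      rw [D_apply] at this
      linarith
    have b00 := hf x ξ00
    have b11 := hf x ξ11
    have d1 : D x f ξ11 ≤ D x f ξ10 := by
      have := hf2 z x (Function.update ξ y true) hzx
      change D x f ξ11 - D x f ξ10 ≤ 0 at this
      linarith
    have d2 : D x f ξ11 ≤ D x f ξ01 := by
      have := hf2 y x (Function.update ξ z true) hyx
      change D x f (Function.update (Function.update ξ z true) y true) -
        D x f (Function.update (Function.update ξ z true) y false) ≤ 0 at this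
      rw [Function.update_comm hzy, Function.update_comm hzy] at this
      linarith
    have hcube : D x f ξ11 - D x f ξ10 - D x f ξ01 + D x f ξ00 =
        DD y z f (Function.update ξ x true) - DD y z f (Function.update ξ x false) := by
      simp only [h11, h10, h01, h00, D_apply, DD_apply]
      have e : ∀ i j l : Bool, Function.update (Function.update (Function.update ξ x l) y i) z j =
          Function.update (Function.update (Function.update ξ y i) z j) x l := by
        intro i j l
        rw [Function.update_comm hxy, Function.update_comm hxz]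
      rw [e, e, e, e, e, e, e, e]
      ring
    have hx00 : ξ00 x = ξ x := by
      rw [h00, Function.update_of_ne hxz, Function.update_of_ne hxy]
    have c1 := hf2 y z (Function.update ξ x true) hyz
    have c0 := hf2 y z (Function.update ξ x false) hyz
    have hfirst : g x ξ00 * (DD y z f (Function.update ξ x true) -
        DD y z f (Function.update ξ x false)) ≤ K * (-DD y z f ξ) := by
      cases hξ : ξ x with
      | false =>
        have h1 : Function.update ξ x false = ξ := by rw [← hξ, Function.update_eq_self]
        have h2 : 0 ≤ g x ξ00 := hg.off x _ (by rw [hx00, hξ])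
        have h3 : g x ξ00 ≤ K := (abs_le.1 (hg.bd x _)).2
        rw [h1]
        have h4 : 0 ≤ g x ξ00 * (-DD y z f (Function.update ξ x true)) :=
          mul_nonneg h2 (by linarith)
        have h5 : g x ξ00 * (-DD y z f ξ) ≤ K * (-DD y z f ξ) :=
          mul_le_mul_of_nonneg_right h3 (by linarith)
        nlinarith
      | true =>
        have h1 : Function.update ξ x true = ξ := by rw [← hξ, Function.update_eq_self]
        have h2 : g x ξ00 ≤ 0 := hg.on x _ (by rw [hx00, hξ])
        have h3 : -K ≤ g x ξ00 := (abs_le.1 (hg.bd x _)).1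
        rw [h1]
        have h4 : 0 ≤ (-g x ξ00) * (-DD y z f (Function.update ξ x false)) :=
          mul_nonneg (by linarith) (by linarith)
        have h5 : (-g x ξ00) * (-DD y z f ξ) ≤ K * (-DD y z f ξ) :=
          mul_le_mul_of_nonneg_right (by linarith) (by linarith)
        nlinarith
    have e1 : g x ξ11 * D x f ξ11 - g x ξ10 * D x f ξ10 -
        (g x ξ01 * D x f ξ01 - g x ξ00 * D x f ξ00) =
        g x ξ00 * (D x f ξ11 - D x f ξ10 - D x f ξ01 + D x f ξ00) +
        ((g x ξ11 - g x ξ00) * D x f ξ11 - (g x ξ10 - g x ξ00) * D x f ξ10 -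
          (g x ξ01 - g x ξ00) * D x f ξ01) := by ring
    have h12 : (g x ξ11 - g x ξ00) * D x f ξ11 ≤
        ((g x ξ10 - g x ξ00) + (g x ξ01 - g x ξ00)) * D x f ξ11 :=
      mul_le_mul_of_nonneg_right (by linarith) b11
    have h13 : (g x ξ10 - g x ξ00) * D x f ξ11 ≤ (g x ξ10 - g x ξ00) * D x f ξ10 :=
      mul_le_mul_of_nonneg_left d1 (by linarith)
    have h14 : (g x ξ01 - g x ξ00) * D x f ξ11 ≤ (g x ξ01 - g x ξ00) * D x f ξ01 :=
      mul_le_mul_of_nonneg_left d2 (by linarith)
    have h15 : 0 ≤ K * (-DD y z f ξ) := mul_nonneg hK.le (by linarith)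
    rw [e1, hcube]
    nlinarith

theorem SubO_step {g : V → Obs V} {K : ℝ} (hg : Sys g K) (hm : Mono g) (hs : Subm g)
    (F : Finset V) {f : Obs V} (hf : IncO f) (hf2 : SubO f) :
    SubO (f + (1 / (2 * ((F.card : ℝ) + 1) * K)) • LF g F f) := by
  intro y z ξ hyz
  obtain ⟨h1, h2⟩ := hcoef hg F
  set h := 1 / (2 * ((F.card : ℝ) + 1) * K) with hh
  have h0 : DD y z (f + h • LF g F f) ξ = DD y z f ξ + h * DD y z (LF g F f) ξ := by
    unfold DD
    rw [map_add, map_add, map_smul, map_smul]
    rfl
  rw [h0, DD_LF]
  have h3 := Finset.sum_le_sum fun x (_ : x ∈ F) => sub_site hg hm hs hf hf2 x y z hyz ξ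
  rw [Finset.sum_const, nsmul_eq_mul] at h3
  have h5 := mul_le_mul_of_nonneg_left h3 h1.le
  have h6 := mul_le_mul_of_nonneg_right h2 (neg_nonneg.2 (hf2 y z ξ hyz))
  nlinarith

theorem TF_subO {g : V → Obs V} {K : ℝ} (hg : Sys g K) (hm : Mono g) (hs : Subm g)
    (F : Finset V) (t : ℝ) (ht : 0 ≤ t) (f : Obs V) (hf : IncO f) (hf2 : SubO f) :
    SubO (TF g F t f) := by
  refine (eT_mem_cone (LF g F) {f : Obs V | IncO f ∧ SubO f} ?_ ?_ ?_ ?_ _ (hcoef hg F).1 ?_ t ht f
    ⟨hf, hf2⟩).2
  · have h1 : {f : Obs V | IncO f ∧ SubO f} =
        (⋂ y : V, ⋂ ξ : V → Bool, {f : Obs V | 0 ≤ D y f ξ}) ∩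
        (⋂ y : V, ⋂ z : V, ⋂ ξ : V → Bool, ⋂ _ : y ≠ z, {f : Obs V | DD y z f ξ ≤ 0}) := by
      ext f
      simp only [Set.mem_ofPred_eq, Set.mem_inter_iff, Set.mem_iInter]
      rfl
    rw [h1]
    refine IsClosed.inter (isClosed_iInter fun y => isClosed_iInter fun ξ =>
      isClosed_le continuous_const (continuous_D_eval y ξ)) ?_
    exact isClosed_iInter fun y => isClosed_iInter fun z => isClosed_iInter fun ξ =>
      isClosed_iInter fun _ => isClosed_le (continuous_DD_eval y z ξ) continuous_const
  · refine ⟨fun y ξ => ?_, fun y z ξ _ => ?_⟩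
    · rw [map_zero]
      exact le_rfl
    · unfold DD
      rw [map_zero, map_zero]
      exact le_rfl
  · rintro f ⟨h1, h2⟩ f' ⟨h1', h2'⟩
    refine ⟨fun y ξ => ?_, fun y z ξ hyz => ?_⟩
    · rw [map_add]
      exact add_nonneg (h1 y ξ) (h1' y ξ)
    · unfold DD
      rw [map_add, map_add]
      exact add_nonpos (h2 y z ξ hyz) (h2' y z ξ hyz)
  · rintro a ha f ⟨h1, h2⟩
    refine ⟨fun y ξ => ?_, fun y z ξ hyz => ?_⟩
    · rw [map_smul]
      exact mul_nonneg ha (h1 y ξ)
    · unfold DD
      rw [map_smul, map_smul]
      exact mul_nonpos_of_nonneg_of_nonpos ha (h2 y z ξ hyz)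
  · rintro f ⟨h1, h2⟩
    exact ⟨IncO_step hg hm F h1, SubO_step hg hm hs F h1 h2⟩

end MP1060
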