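import Pool.Agent.Work.MP_1060d1_pr.SUB.Base

/-!
Interacting particle systems on `{0,1}^{ℤ^d}` with finite range `R` (MP_1060d1_pr).
-/

open Filter Topology
open scoped NNReal

namespace MP1060

/-- sites -/
abbrev Site (d : ℕ) := Fin d → ℤ

/-- configurations (`true = 1`, `false = 0`) -/
abbrev Cfg (d : ℕ) := Site d → Bool

/-- the box `Λ_R = {-R,…,R}^d` -/
noncomputable abbrev boxF (d R : ℕ) : Finset (Site d) := Finset.Icc (fun _ => -(R : ℤ)) (fun _ => (R : ℤ))

/-- patterns on `Λ_R` -/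
abbrev Pat (d R : ℕ) := ↥(boxF d R) → Bool

/-- the pattern seen from the site `x` -/
def view {d R : ℕ} (x : Site d) (ξ : Cfg d) : Pat d R := fun y => ξ (x + y)

/-- transition rates `c₀, c₁ : {0,1}^{Λ_R} → [0,∞)` -/
structure Rates (d R : ℕ) where
  c0 : Pat d R → ℝ
  c1 : Pat d R → ℝ
  nonneg0 : ∀ p, 0 ≤ c0 p
  nonneg1 : ∀ p, 0 ≤ c1 p

variable {d R : ℕ}

/-- monotone rates -/
def Rates.Monotone (c : Rates d R) : Prop :=
  ∀ p q : Pat d R, p ≤ q → c.c1 p ≤ c.c1 q ∧ c.c0 q ≤ c.c0 p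

/-- the generator; for `f` depending on finitely many coordinates only finitely many terms of the
sum are nonzero -/
noncomputable def gen (c : Rates d R) (f : Cfg d → ℝ) (ξ : Cfg d) : ℝ :=
  ∑' x : Site d, (c.c1 (view x ξ) * (f (Function.update ξ x true) - f ξ)
    + c.c0 (view x ξ) * (f (Function.update ξ x false) - f ξ))

/-- continuous observables -/
abbrev CF (d : ℕ) := C(Cfg d, ℝ)

/-- `S` is a strongly continuous Markov semigroup on the continuous observables -/
structure IsMarkov (S : ℝ≥0 → CF d → CF d) : Prop where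
  zero : ∀ f, S 0 f = f
  add : ∀ s t f, S (s + t) f = S s (S t f)
  map_add : ∀ t f h, S t (f + h) = S t f + S t h
  map_smul : ∀ t (a : ℝ) f, S t (a • f) = a • S t f
  one : ∀ t, S t 1 = 1
  nonneg : ∀ t (f : CF d), (∀ ξ, 0 ≤ f ξ) → ∀ ξ, 0 ≤ S t f ξ
  cont : ∀ f, Tendsto (fun t => S t f) (𝓝 0) (𝓝 f)

/-- `S` is the Markov semigroup of the particle system with rates `c` -/
structure IsIPS (c : Rates d R) (S : ℝ≥0 → CF d → CF d) : Prop where
  markov : IsMarkov S
  gen : ∀ (F : Finset (Site d)) (f : CF d), DependsOn (f : Cfg d → ℝ) (F : Set (Site d)) →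
    TendstoUniformly (fun (t : ℝ≥0) (ξ : Cfg d) => (S t f ξ - f ξ) / t) (gen c f) (𝓝[>] 0)

/-- the origin as an element of the box -/
def orig (d R : ℕ) : ↥(boxF d R) := ⟨0, by
  rw [Finset.mem_Icc]
  constructor <;> intro i <;> simp⟩

/-- the drift: birth rate on patterns with an empty origin, minus the death rate on the others -/
def Rates.drift (c : Rates d R) (p : Pat d R) : ℝ := if p (orig d R) then - c.c0 p else c.c1 p

/-- the drift is submodular -/
def Rates.Submodular (c : Rates d R) : Prop :=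
  ∀ p q : Pat d R, c.drift (p ⊔ q) + c.drift (p ⊓ q) ≤ c.drift p + c.drift q

/-- the drift is supermodular -/
def Rates.Supermodular (c : Rates d R) : Prop :=
  ∀ p q : Pat d R, c.drift p + c.drift q ≤ c.drift (p ⊔ q) + c.drift (p ⊓ q)

/-- adding one particle at the origin lowers the total drift by at least `e` -/
def Rates.TotalDrift (c : Rates d R) (e : ℝ) : Prop :=
  ∀ ξ : Cfg d, ∑ x ∈ boxF d R, (c.drift (view x (Function.update ξ 0 true))
    - c.drift (view x (Function.update ξ 0 false))) ≤ -e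

/-- `(c₀, c₁ + ε)` -/
def Rates.addBirth (c : Rates d R) (ε : ℝ) (hε : 0 ≤ ε) : Rates d R where
  c0 := c.c0
  c1 := fun p => c.c1 p + ε
  nonneg0 := c.nonneg0
  nonneg1 := fun p => add_nonneg (c.nonneg1 p) hε

/-- `(c₀ + ε, c₁)` -/
def Rates.addDeath (c : Rates d R) (ε : ℝ) (hε : 0 ≤ ε) : Rates d R where
  c0 := fun p => c.c0 p + ε
  c1 := c.c1
  nonneg0 := fun p => add_nonneg (c.nonneg0 p) hε
  nonneg1 := c.nonneg1

/-- the particle system with rates `c` exists, is unique, and is exponentially ergodic with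
constant `1` and rate `γ`: `|P^ξ(X_t(0) = 1) - ρ| ≤ e^{-γ t}` for all `ξ`, `t` -/
def ExpErgodicRate (c : Rates d R) (γ : ℝ) : Prop :=
  ∃ S : ℝ≥0 → CF d → CF d, IsIPS c S ∧ (∀ S', IsIPS c S' → S' = S) ∧
    ∃ ρ : ℝ, ∀ (t : ℝ≥0) (ξ : Cfg d), |S t (occ 0) ξ - ρ| ≤ Real.exp (-(γ * t))

/-! ### the Z^d layer -/

theorem view_continuous (x : Site d) : Continuous (fun ξ : Cfg d => (view x ξ : Pat d R)) :=
  continuous_pi (fun _ => continuous_apply _)

/-- drift functions of the rates `c` -/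
noncomputable def gD (c : Rates d R) (x : Site d) : Obs (Site d) :=
  ⟨fun ξ => c.drift (view x ξ),
    (continuous_of_discreteTopology (f := c.drift)).comp (view_continuous x)⟩

theorem gD_apply (c : Rates d R) (x : Site d) (ξ : Cfg d) : gD c x ξ = c.drift (view x ξ) := rfl

theorem view_orig (x : Site d) (ξ : Cfg d) : (view x ξ : Pat d R) (orig d R) = ξ x := by
  show ξ (x + 0) = ξ x
  rw [add_zero]

theorem view_mono (x : Site d) {ξ η : Cfg d} (h : ξ ≤ η) :
    (view x ξ : Pat d R) ≤ view x η := fun _ => h _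

end MP1060
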