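import Mathlib

/-!
Exponentials of bounded operators on a real Banach space: invariance of closed cones,
bounds for sublinear functionals, and the Duhamel comparison with a contraction semigroup.
-/

open Filter Topology

namespace MP1060

variable {E : Type*} [NormedAddCommGroup E] [NormedSpace ℝ E] [CompleteSpace E]

/-- `e^{tA}` -/
noncomputable def eT (A : E →L[ℝ] E) (t : ℝ) : E →L[ℝ] E := NormedSpace.exp (t • A)

theorem eT_zero (A : E →L[ℝ] E) : eT A 0 = 1 := by
  unfold eT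
  rw [zero_smul, NormedSpace.exp_zero]

theorem exp_add_comm (A B : E →L[ℝ] E) (h : Commute A B) :
    NormedSpace.exp (A + B) = NormedSpace.exp A * NormedSpace.exp B := by
  let _ : NormedAlgebra ℚ (E →L[ℝ] E) := NormedAlgebra.restrictScalars ℚ ℝ _
  exact NormedSpace.exp_add_of_commute h

theorem eT_add (A : E →L[ℝ] E) (s t : ℝ) : eT A (s + t) = eT A s * eT A t := by
  unfold eT
  rw [add_smul]
  exact exp_add_comm _ _ (((Commute.refl A).smul_left s).smul_right t)

theorem eT_add_apply (A : E →L[ℝ] E) (s t : ℝ) (f : E) : eT A (s + t) f = eT A s (eT A t f) := by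
  rw [eT_add]
  rfl

theorem eT_hasDerivAt (A : E →L[ℝ] E) (f : E) (t : ℝ) :
    HasDerivAt (fun t : ℝ => eT A t f) (A (eT A t f)) t := by
  have h := hasDerivAt_exp_smul_const' (𝕂 := ℝ) A t
  have h2 := h.clm_apply (hasDerivAt_const t f)
  simpa [eT] using h2

theorem eT_comm (A : E →L[ℝ] E) (f : E) (t : ℝ) : A (eT A t f) = eT A t (A f) := by
  have h : Commute A (NormedSpace.exp (t • A)) := by
    let _ : NormedAlgebra ℚ (E →L[ℝ] E) := NormedAlgebra.restrictScalars ℚ ℝ _
    exact ((Commute.refl A).smul_right t).exp_right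
  exact congrArg (fun B : E →L[ℝ] E => B f) h.eq

theorem exp_hasSum (A : E →L[ℝ] E) (f : E) :
    HasSum (fun n : ℕ => ((n.factorial : ℝ)⁻¹) • (A ^ n) f) (NormedSpace.exp A f) := by
  have h := NormedSpace.exp_series_hasSum_exp' (𝕂 := ℝ) A
  exact (ContinuousLinearMap.apply ℝ E f).hasSum h

/-- `e^{tA} = e^{-t/h} e^{(t/h)(1 + hA)}` -/
theorem eT_shift (A : E →L[ℝ] E) (t h : ℝ) (hh : 0 < h) (f : E) :
    eT A t f = Real.exp (-(t / h)) • NormedSpace.exp ((t / h) • (1 + h • A)) f := by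
  have h1 : (t / h) • (1 + h • A) = (t / h) • (1 : E →L[ℝ] E) + t • A := by
    rw [smul_add, smul_smul, div_mul_cancel₀ _ hh.ne']
  have h2 : Commute ((t / h) • (1 : E →L[ℝ] E)) (t • A) :=
    ((Commute.one_left A).smul_left _).smul_right _
  have h3 : NormedSpace.exp ((t / h) • (1 : E →L[ℝ] E)) = Real.exp (t / h) • (1 : E →L[ℝ] E) := by
    have h4 := NormedSpace.algebraMap_exp_comm (𝕂 := ℝ) (𝔸 := E →L[ℝ] E) (t / h)
    rw [Algebra.algebraMap_eq_smul_one, Algebra.algebraMap_eq_smul_one] at h4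
    rw [← h4, Real.exp_eq_exp_ℝ]
  rw [h1, exp_add_comm _ _ h2, h3]
  unfold eT
  simp only [smul_mul_assoc, one_mul]
  rw [smul_apply, smul_smul, ← Real.exp_add]
  simp

/-- powers preserve a set preserved by `M` -/
theorem pow_mem_of (M : E →L[ℝ] E) (K : Set E) (hM : ∀ f ∈ K, M f ∈ K) (n : ℕ) (f : E)
    (hf : f ∈ K) : (M ^ n) f ∈ K := by
  induction n with
  | zero => simpa using hf
  | succ n ih =>
    rw [pow_succ']
    exact hM _ ih

/-- closed convex cones preserved by `1 + hA` are preserved by `e^{tA}`, `t ≥ 0` -/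
theorem eT_mem_cone (A : E →L[ℝ] E) (K : Set E) (hK : IsClosed K) (h0 : (0 : E) ∈ K)
    (hadd : ∀ f ∈ K, ∀ g ∈ K, f + g ∈ K) (hsmul : ∀ a : ℝ, 0 ≤ a → ∀ f ∈ K, a • f ∈ K)
    (h : ℝ) (hh : 0 < h) (hM : ∀ f ∈ K, f + h • A f ∈ K) (t : ℝ) (ht : 0 ≤ t) (f : E)
    (hf : f ∈ K) : eT A t f ∈ K := by
  rw [eT_shift A t h hh f]
  refine hsmul _ (Real.exp_pos _).le _ ?_
  have hs := exp_hasSum ((t / h) • (1 + h • A)) f
  refine hK.mem_of_tendsto hs.tendsto_sum_nat (Eventually.of_forall ?_)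
  intro n
  have hterm : ∀ k : ℕ, ((k.factorial : ℝ)⁻¹) • (((t / h) • (1 + h • A)) ^ k) f ∈ K := by
    intro k
    refine hsmul _ (by positivity) _ ?_
    refine pow_mem_of _ K ?_ k f hf
    intro g hg
    rw [smul_apply]
    refine hsmul _ (by positivity) _ ?_
    exact hM g hg
  induction n with
  | zero => simpa using h0
  | succ n ih =>
    rw [Finset.sum_range_succ]
    exact hadd _ ih _ (hterm n)

/-- growth bound for sublinear functionals -/
theorem eT_bound (A : E →L[ℝ] E) (p : E → ℝ) (hc : Continuous p) (hp : ∀ f, 0 ≤ p f)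
    (h0 : p 0 = 0) (hadd : ∀ f g, p (f + g) ≤ p f + p g)
    (hsmul : ∀ a : ℝ, 0 ≤ a → ∀ f, p (a • f) = a * p f)
    (h κ : ℝ) (hh : 0 < h) (hκ : 0 ≤ κ) (hM : ∀ f, p (f + h • A f) ≤ (1 + h * κ) * p f)
    (t : ℝ) (ht : 0 ≤ t) (f : E) : p (eT A t f) ≤ Real.exp (t * κ) * p f := by
  rw [eT_shift A t h hh f, hsmul _ (Real.exp_pos _).le]
  have hs := exp_hasSum ((t / h) • (1 + h • A)) f
  have hb : 0 ≤ (t / h) * (1 + h * κ) := by positivity
  have hpow : ∀ k : ℕ, p ((((t / h) • (1 + h • A)) ^ k) f) ≤ ((t / h) * (1 + h * κ)) ^ k * p f := by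
    intro k
    induction k with
    | zero => simp
    | succ k ih =>
      rw [pow_succ', pow_succ']
      have e1 : (((t / h) • (1 + h • A)) * ((t / h) • (1 + h • A)) ^ k) f
          = (t / h) • ((((t / h) • (1 + h • A)) ^ k) f + h • A ((((t / h) • (1 + h • A)) ^ k) f)) :=
        rfl
      rw [e1, hsmul _ (by positivity)]
      calc t / h * p ((((t / h) • (1 + h • A)) ^ k) f + h • A ((((t / h) • (1 + h • A)) ^ k) f))
          ≤ t / h * ((1 + h * κ) * p ((((t / h) • (1 + h • A)) ^ k) f)) := by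
            refine mul_le_mul_of_nonneg_left (hM _) (by positivity)
        _ ≤ t / h * ((1 + h * κ) * (((t / h) * (1 + h * κ)) ^ k * p f)) := by
            refine mul_le_mul_of_nonneg_left ?_ (by positivity)
            exact mul_le_mul_of_nonneg_left ih (by positivity)
        _ = t / h * (1 + h * κ) * (t / h * (1 + h * κ)) ^ k * p f := by ring
  have hpart : ∀ n : ℕ, p (∑ k ∈ Finset.range n,
      ((k.factorial : ℝ)⁻¹) • (((t / h) • (1 + h • A)) ^ k) f)
      ≤ (∑ k ∈ Finset.range n, ((t / h) * (1 + h * κ)) ^ k / k.factorial) * p f := by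
    intro n
    induction n with
    | zero => simp [h0]
    | succ n ih =>
      rw [Finset.sum_range_succ, Finset.sum_range_succ, add_mul]
      refine (hadd _ _).trans (add_le_add ih ?_)
      have hf0 : (0:ℝ) ≤ ((n.factorial : ℝ)⁻¹) := by positivity
      rw [hsmul _ hf0]
      calc ((n.factorial : ℝ)⁻¹) * p ((((t / h) • (1 + h • A)) ^ n) f)
          ≤ ((n.factorial : ℝ)⁻¹) * (((t / h) * (1 + h * κ)) ^ n * p f) :=
            mul_le_mul_of_nonneg_left (hpow n) hf0
        _ = ((t / h) * (1 + h * κ)) ^ n / n.factorial * p f := by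
            rw [div_eq_mul_inv (((t / h) * (1 + h * κ)) ^ n)]
            ring
  have hlim : Tendsto (fun n : ℕ => p (∑ k ∈ Finset.range n,
      ((k.factorial : ℝ)⁻¹) • (((t / h) • (1 + h • A)) ^ k) f)) atTop
      (𝓝 (p (NormedSpace.exp ((t / h) • (1 + h • A)) f))) :=
    (hc.tendsto _).comp hs.tendsto_sum_nat
  have hle : p (NormedSpace.exp ((t / h) • (1 + h • A)) f)
      ≤ Real.exp ((t / h) * (1 + h * κ)) * p f := by
    refine le_of_tendsto' hlim (fun n => (hpart n).trans ?_)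
    exact mul_le_mul_of_nonneg_right (Real.sum_le_exp_of_nonneg hb n) (hp f)
  calc Real.exp (-(t / h)) * p (NormedSpace.exp ((t / h) • (1 + h • A)) f)
      ≤ Real.exp (-(t / h)) * (Real.exp ((t / h) * (1 + h * κ)) * p f) :=
        mul_le_mul_of_nonneg_left hle (Real.exp_pos _).le
    _ = Real.exp (t * κ) * p f := by
        rw [← mul_assoc, ← Real.exp_add]
        congr 2
        field_simp
        ring

/-- if `e^{sA}` contracts, then `‖e^{tA} f - f‖ ≤ t ‖A f‖` -/
theorem eT_sub_le (A : E →L[ℝ] E) (hc : ∀ s : ℝ, 0 ≤ s → ∀ f, ‖eT A s f‖ ≤ ‖f‖) (t : ℝ)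
    (ht : 0 ≤ t) (f : E) : ‖eT A t f - f‖ ≤ t * ‖A f‖ := by
  have h1 := norm_image_sub_le_of_norm_deriv_right_le_segment
    (f := fun s : ℝ => eT A s f) (f' := fun s => A (eT A s f)) (a := 0) (b := t) (C := ‖A f‖)
    (fun s _ => (eT_hasDerivAt A f s).continuousAt.continuousWithinAt)
    (fun s _ => (eT_hasDerivAt A f s).hasDerivWithinAt)
    (fun s hs => by rw [eT_comm]; exact hc s hs.1 _) t ⟨ht, le_rfl⟩
  simpa [eT_zero, mul_comm] using h1

/-- second order expansion -/
theorem eT_sub_sub_le (A : E →L[ℝ] E) (hc : ∀ s : ℝ, 0 ≤ s → ∀ f, ‖eT A s f‖ ≤ ‖f‖) (t : ℝ)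
    (ht : 0 ≤ t) (f : E) : ‖eT A t f - f - t • A f‖ ≤ t * (t * ‖A (A f)‖) := by
  have hd : ∀ s : ℝ, HasDerivAt (fun s : ℝ => eT A s f - s • A f) (A (eT A s f) - A f) s := by
    intro s
    have := (hasDerivAt_id s).smul_const (A f)
    exact (eT_hasDerivAt A f s).sub (by simpa using this)
  have h1 := norm_image_sub_le_of_norm_deriv_right_le_segment
    (f := fun s : ℝ => eT A s f - s • A f) (f' := fun s => A (eT A s f) - A f)
    (a := 0) (b := t) (C := t * ‖A (A f)‖)
    (fun s _ => (hd s).continuousAt.continuousWithinAt)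
    (fun s _ => (hd s).hasDerivWithinAt)
    (fun s hs => by
      rw [eT_comm]
      exact (eT_sub_le A hc s hs.1 _).trans
        (mul_le_mul_of_nonneg_right hs.2.le (norm_nonneg _))) t ⟨ht, le_rfl⟩
  have e : eT A t f - t • A f - (eT A 0 f - (0 : ℝ) • A f) = eT A t f - f - t • A f := by
    rw [eT_zero, zero_smul, sub_zero]
    simp only [one_apply_eq_self]
    abel
  rw [← e]
  calc _ ≤ _ := h1
    _ = _ := by ring

/-- Duhamel comparison of `e^{tA}` with a contraction semigroup `S` (right derivatives suffice). -/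
theorem duhamel (A : E →L[ℝ] E) (S : ℝ → E →L[ℝ] E)
    (hadd : ∀ s t : ℝ, 0 ≤ s → 0 ≤ t → ∀ f, S (s + t) f = S s (S t f))
    (hc : ∀ s : ℝ, 0 ≤ s → ∀ f, ‖S s f‖ ≤ ‖f‖) (hS0 : ∀ f, S 0 f = f)
    (hcont : ∀ f, Tendsto (fun s : ℝ => S s f) (𝓝[≥] 0) (𝓝 f))
    (B : E → E) (f : E) (t ε : ℝ) (ht : 0 ≤ t)
    (hB : ∀ s : ℝ, 0 ≤ s → s ≤ t →
      Tendsto (fun h : ℝ => h⁻¹ • (S h (eT A s f) - eT A s f)) (𝓝[>] 0) (𝓝 (B (eT A s f))))
    (hε : ∀ s : ℝ, 0 ≤ s → s ≤ t → ‖B (eT A s f) - A (eT A s f)‖ ≤ ε) :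
    ‖S t f - eT A t f‖ ≤ t * ε := by
  -- strong continuity of `S` on `[0, ∞)`
  have hSle : ∀ g : E, ∀ s s' : ℝ, 0 ≤ s → s ≤ s' → ‖S s' g - S s g‖ ≤ ‖S (s' - s) g - g‖ := by
    intro g s s' hs hss
    have e : S s' g = S s (S (s' - s) g) := by
      rw [← hadd s (s' - s) hs (by linarith)]
      congr 2
      ring
    rw [e, ← map_sub]
    exact hc s hs _
  have hSc : ∀ g : E, ContinuousOn (fun s => S s g) (Set.Ici 0) := by
    intro g
    rw [Metric.continuousOn_iff]
    intro s hs ε' hε'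
    have h1 := (Metric.tendsto_nhdsWithin_nhds.1 (hcont g)) ε' hε'
    obtain ⟨δ, hδ, h2⟩ := h1
    refine ⟨δ, hδ, ?_⟩
    intro s' hs' hd
    rcases le_total s s' with hle | hle
    · have h3 := @h2 (s' - s) (by simpa using hle) (by
        rw [Real.dist_eq] at hd
        rw [Real.dist_eq, sub_zero]
        exact hd)
      rw [dist_eq_norm] at h3 ⊢
      exact (hSle g s s' hs hle).trans_lt h3
    · have h3 := @h2 (s - s') (by simpa using hle) (by
        rw [Real.dist_eq, abs_sub_comm] at hd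
        rw [Real.dist_eq, sub_zero]
        exact hd)
      rw [dist_eq_norm] at h3
      rw [dist_comm, dist_eq_norm]
      exact (hSle g s' s hs' hle).trans_lt h3
  set u : ℝ → E := fun s => eT A (t - s) f with hu
  have hud : ∀ s, HasDerivAt u (-(A (u s))) s := by
    intro s
    have h1 := (eT_hasDerivAt A f (t - s)).scomp s ((hasDerivAt_const s t).sub (hasDerivAt_id s))
    simpa [hu, Function.comp_def] using h1
  have hφc : ContinuousOn (fun s => S s (u s)) (Set.Icc 0 t) := by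
    intro s hs
    have h1 : Tendsto (fun s' => S s' (u s') - S s' (u s)) (𝓝[Set.Icc 0 t] s) (𝓝 0) := by
      have h2 : Tendsto (fun s' => ‖u s' - u s‖) (𝓝[Set.Icc 0 t] s) (𝓝 0) := by
        have h3 : Tendsto u (𝓝[Set.Icc 0 t] s) (𝓝 (u s)) :=
          (hud s).continuousAt.continuousWithinAt
        exact tendsto_iff_norm_sub_tendsto_zero.1 h3
      refine squeeze_zero_norm' ?_ h2
      filter_upwards [self_mem_nhdsWithin] with s' hs'
      rw [← map_sub]
      exact hc s' hs'.1 _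
    have h2 : Tendsto (fun s' => S s' (u s)) (𝓝[Set.Icc 0 t] s) (𝓝 (S s (u s))) :=
      ((hSc (u s)) s hs.1).mono (fun x hx => hx.1)
    have h3 := h1.add h2
    simpa [ContinuousWithinAt] using h3
  have hφd : ∀ s ∈ Set.Ico 0 t,
      HasDerivWithinAt (fun s => S s (u s)) (S s (B (u s) - A (u s))) (Set.Ici s) s := by
    intro s hs
    rw [← hasDerivWithinAt_Ioi_iff_Ici, hasDerivWithinAt_iff_tendsto_slope' (by simp)]
    have hsh : Tendsto (fun s' : ℝ => s' - s) (𝓝[>] s) (𝓝[>] 0) := by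
      refine tendsto_nhdsWithin_iff.2 ⟨?_, ?_⟩
      · have : Tendsto (fun s' : ℝ => s' - s) (𝓝 s) (𝓝 (s - s)) :=
          (continuous_id.sub continuous_const).tendsto s
        rw [sub_self] at this
        exact this.mono_left nhdsWithin_le_nhds
      · filter_upwards [self_mem_nhdsWithin] with s' hs'
        exact Set.mem_Ioi.2 (sub_pos.2 (Set.mem_Ioi.1 hs'))
    have h1 : Tendsto (fun s' : ℝ => (s' - s)⁻¹ • (S (s' - s) (u s) - u s)) (𝓝[>] s)
        (𝓝 (B (u s))) := by
      have h := hB (t - s) (by linarith [hs.2]) (by linarith [hs.1])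
      exact h.comp hsh
    have h2 : Tendsto (fun s' : ℝ => (s' - s)⁻¹ • (u s' - u s)) (𝓝[>] s) (𝓝 (-(A (u s)))) := by
      have h := ((hud s).hasDerivWithinAt (s := Set.Ioi s))
      rw [hasDerivWithinAt_iff_tendsto_slope' (by simp)] at h
      exact h
    have h3 : Tendsto (fun s' : ℝ => S (s' - s) ((s' - s)⁻¹ • (u s' - u s))) (𝓝[>] s)
        (𝓝 (-(A (u s)))) := by
      have h4 : Tendsto (fun s' : ℝ => S (s' - s) ((s' - s)⁻¹ • (u s' - u s))
          - S (s' - s) (-(A (u s)))) (𝓝[>] s) (𝓝 0) := by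
        refine squeeze_zero_norm' ?_ (tendsto_iff_norm_sub_tendsto_zero.1 h2)
        filter_upwards [self_mem_nhdsWithin] with s' hs'
        rw [← map_sub]
        exact hc _ (sub_pos.2 hs').le _
      have h5 : Tendsto (fun s' : ℝ => S (s' - s) (-(A (u s)))) (𝓝[>] s) (𝓝 (-(A (u s)))) := by
        exact ((hcont (-(A (u s)))).mono_left (nhdsWithin_mono _ Set.Ioi_subset_Ici_self)).comp hsh
      have h6 := h4.add h5
      simpa using h6
    have h7 : Tendsto (fun s' : ℝ => S s ((s' - s)⁻¹ • (S (s' - s) (u s) - u s)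
        + S (s' - s) ((s' - s)⁻¹ • (u s' - u s)))) (𝓝[>] s) (𝓝 (S s (B (u s) + -(A (u s))))) :=
      ((S s).continuous.tendsto _).comp (h1.add h3)
    rw [sub_eq_add_neg]
    refine h7.congr' ?_
    filter_upwards [self_mem_nhdsWithin] with s' hs'
    have hs1 : 0 ≤ s' - s := (sub_pos.2 hs').le
    have e1 : S s' (u s') = S s (S (s' - s) (u s')) := by
      rw [← hadd s (s' - s) hs.1 hs1]
      congr 2
      ring
    rw [slope_def_module, e1, map_smul, ← smul_add, map_smul]
    congr 1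
    rw [← map_sub]
    congr 1
    rw [map_sub]
    abel
  have hfin := norm_image_sub_le_of_norm_deriv_right_le_segment hφc hφd
    (fun s hs => (hc s hs.1 _).trans (hε (t - s) (by linarith [hs.2]) (by linarith [hs.1])))
    t ⟨ht, le_rfl⟩
  have e0 : u t = f := by simp [hu, eT_zero]
  have e1 : S 0 (u 0) = eT A t f := by rw [hS0]; simp [hu]
  simp only [e0, e1, sub_zero] at hfin
  rw [mul_comm]
  exact hfin

end MP1060
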