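import Pool.Agent.Work.MP_1060d1_pr.SUB.Defs

/-!
The lattice layer: `IsIPS c S ↔ IsSG (gD c) S`, and the hypotheses `Sys`, `Mono`, `Subm`, `Geo`
for the drift functions of rates on `ℤ^d`.
-/

open Filter Topology
open scoped NNReal

namespace MP1060

variable {d R : ℕ}

/-- size of the rates -/
noncomputable def Rates.K (c : Rates d R) : ℝ := 1 + ∑ p : Pat d R, (c.c0 p + c.c1 p)

theorem Rates.K_pos (c : Rates d R) : 0 < c.K := by
  have : 0 ≤ ∑ p : Pat d R, (c.c0 p + c.c1 p) :=
    Finset.sum_nonneg (fun p _ => add_nonneg (c.nonneg0 p) (c.nonneg1 p))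
  unfold Rates.K
  linarith

theorem Rates.le_K (c : Rates d R) (p : Pat d R) : c.c0 p + c.c1 p ≤ c.K := by
  have := Finset.single_le_sum (f := fun p : Pat d R => c.c0 p + c.c1 p)
    (fun p _ => add_nonneg (c.nonneg0 p) (c.nonneg1 p)) (Finset.mem_univ p)
  unfold Rates.K
  linarith

theorem sys_gD (c : Rates d R) : Sys (gD c) c.K where
  K_pos := c.K_pos
  off := by
    intro x ξ h
    rw [gD_apply, Rates.drift, view_orig, h]
    simpa using c.nonneg1 _
  on := by
    intro x ξ h
    rw [gD_apply, Rates.drift, view_orig, h]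
    simpa using c.nonneg0 _
  bd := by
    intro x ξ
    have h0 := c.nonneg0 (view x ξ)
    have h1 := c.nonneg1 (view x ξ)
    have h2 := c.le_K (view x ξ)
    rw [gD_apply, Rates.drift, abs_le]
    split_ifs <;> constructor <;> linarith

theorem mono_gD (c : Rates d R) (hc : c.Monotone) : Mono (gD c) := by
  intro x y ξ hxy
  rw [D_apply, gD_apply, gD_apply, Rates.drift, Rates.drift, view_orig, view_orig,
    Function.update_of_ne hxy, Function.update_of_ne hxy]
  have hle : (view x (Function.update ξ y false) : Pat d R) ≤ view x (Function.update ξ y true) := by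
    refine view_mono x ?_
    intro z
    by_cases hz : z = y
    · subst hz
      simp
    · rw [Function.update_of_ne hz, Function.update_of_ne hz]
  obtain ⟨h1, h0⟩ := hc _ _ hle
  split_ifs <;> linarith

theorem subm_gD (c : Rates d R) (hc : c.Submodular) : Subm (gD c) := by
  intro x y z ξ hyz
  rw [DD_apply]
  set p : Pat d R := view x (Function.update (Function.update ξ y true) z false) with hp
  set q : Pat d R := view x (Function.update (Function.update ξ y false) z true) with hq
  have h := hc p q
  have e1 : p ⊔ q = view x (Function.update (Function.update ξ y true) z true) := by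
    funext u
    rw [Pi.sup_apply, hp, hq]
    simp only [view]
    by_cases hz : x + (u : Site d) = z
    · rw [hz]
      simp
    · rw [Function.update_of_ne hz, Function.update_of_ne hz, Function.update_of_ne hz]
      by_cases hy : x + (u : Site d) = y
      · rw [hy]
        simp
      · rw [Function.update_of_ne hy, Function.update_of_ne hy]
        simp
  have e2 : p ⊓ q = view x (Function.update (Function.update ξ y false) z false) := by
    funext u
    rw [Pi.inf_apply, hp, hq]
    simp only [view]
    by_cases hz : x + (u : Site d) = z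
    · rw [hz]
      simp
    · rw [Function.update_of_ne hz, Function.update_of_ne hz, Function.update_of_ne hz]
      by_cases hy : x + (u : Site d) = y
      · rw [hy]
        simp
      · rw [Function.update_of_ne hy, Function.update_of_ne hy]
        simp
  rw [e1, e2] at h
  simp only [gD_apply]
  linarith

/-- neighbourhoods -/
noncomputable def nb (R : ℕ) (x : Site d) : Finset (Site d) := (boxF d R).image (fun y => x + y)

/-- weights -/
noncomputable def wt (x : Site d) : ℝ := Real.exp ‖x‖

theorem norm_le_of_mem_box (y : Site d) (hy : y ∈ boxF d R) : ‖y‖ ≤ R := by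
  rw [Finset.mem_Icc] at hy
  refine (pi_norm_le_iff_of_nonneg (by positivity)).2 (fun i => ?_)
  have h1 := hy.1 i
  have h2 := hy.2 i
  rw [Int.norm_eq_abs]
  simp only at h1 h2
  rw [abs_le]
  constructor
  · have : ((-(R:ℤ) : ℤ) : ℝ) ≤ ((y i : ℤ) : ℝ) := by exact_mod_cast h1
    simpa using this
  · exact_mod_cast h2

theorem le_norm_of_not_mem_box (n : ℕ) (x : Site d) (hx : x ∉ boxF d n) : (n : ℝ) ≤ ‖x‖ := by
  by_contra h
  push Not at h
  apply hx
  rw [Finset.mem_Icc]
  have h1 : ∀ i, |((x i : ℤ) : ℝ)| < n := by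
    intro i
    have := norm_le_pi_norm x i
    rw [Int.norm_eq_abs] at this
    exact lt_of_le_of_lt this h
  constructor
  · intro i
    have := (abs_lt.1 (h1 i)).1
    have h2 : ((-(n:ℤ) : ℤ) : ℝ) < ((x i : ℤ) : ℝ) := by simpa using this
    have h3 : -(n:ℤ) < x i := by exact_mod_cast h2
    exact h3.le
  · intro i
    have := (abs_lt.1 (h1 i)).2
    have h3 : x i < (n:ℤ) := by exact_mod_cast this
    exact h3.le

theorem geo_gD (c : Rates d R) :
    Geo (gD c) (nb R) wt ((boxF d R).card * Real.exp R) (fun n => boxF d n) where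
  range := by
    intro x ξ η h
    rw [gD_apply, gD_apply]
    have : (view x ξ : Pat d R) = view x η := by
      funext y
      refine h _ ?_
      rw [Finset.mem_coe, nb, Finset.mem_image]
      exact ⟨y, y.2, rfl⟩
    rw [this]
  w_pos := fun x => Real.exp_pos _
  κ_nonneg := by positivity
  sum := by
    intro y
    have hb : ∀ x ∈ nb R y, wt x ≤ Real.exp R * wt y := by
      intro x hx
      rw [nb, Finset.mem_image] at hx
      obtain ⟨u, hu, rfl⟩ := hx
      rw [wt, wt, ← Real.exp_add]
      refine Real.exp_le_exp.2 ?_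
      have := norm_add_le y u
      have h2 := norm_le_of_mem_box u hu
      linarith
    calc ∑ x ∈ nb R y, wt x ≤ ∑ _x ∈ nb R y, Real.exp R * wt y := Finset.sum_le_sum hb
      _ = (nb R y).card * (Real.exp R * wt y) := by rw [Finset.sum_const, nsmul_eq_mul]
      _ ≤ (boxF d R).card * (Real.exp R * wt y) := by
          refine mul_le_mul_of_nonneg_right ?_ ?_
          · exact_mod_cast Finset.card_image_le
          · unfold wt
            positivity
      _ = (boxF d R).card * Real.exp R * wt y := by ring
  mono := by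
    intro n m hnm
    refine Finset.Icc_subset_Icc ?_ ?_
    · intro i
      simp only [neg_le_neg_iff, Nat.cast_le]
      exact hnm
    · intro i
      simp only [Nat.cast_le]
      exact hnm
  out := by
    intro n x hx
    have h := le_norm_of_not_mem_box n x hx
    have h2 := Real.add_one_le_exp ‖x‖
    unfold wt
    linarith

theorem gen_eq (c : Rates d R) (F : Finset (Site d)) (f : C(Cfg d, ℝ))
    (hf : DependsOn (f : Cfg d → ℝ) (F : Set (Site d))) (ξ : Cfg d) :
    gen c f ξ = LF (gD c) F f ξ := by
  have hterm : ∀ x : Site d, c.c1 (view x ξ) * (f (Function.update ξ x true) - f ξ)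
      + c.c0 (view x ξ) * (f (Function.update ξ x false) - f ξ) = gD c x ξ * D x f ξ := by
    intro x
    rw [gD_apply, D_apply, Rates.drift, view_orig]
    by_cases h : ξ x = true
    · rw [if_pos h]
      have e : Function.update ξ x true = ξ := by
        rw [← h]
        exact Function.update_eq_self x ξ
      rw [e]
      ring
    · rw [if_neg h]
      have h' : ξ x = false := by simpa using h
      have e : Function.update ξ x false = ξ := by
        rw [← h']
        exact Function.update_eq_self x ξ
      rw [e]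
      ring
  unfold gen
  rw [LF_apply, tsum_eq_sum (s := F)]
  · exact Finset.sum_congr rfl (fun x _ => hterm x)
  · intro x hx
    have hD : ∀ b : Bool, f (Function.update ξ x b) = f ξ := by
      intro b
      refine hf (fun y hy => ?_)
      have hyx : y ≠ x := by
        rintro rfl
        exact hx (by simpa using hy)
      rw [Function.update_of_ne hyx]
    rw [hD, hD]
    ring

theorem gen_iff (c : Rates d R) (S : ℝ≥0 → CF d → CF d) (F : Finset (Site d)) (f : CF d)
    (hf : DependsOn (f : Cfg d → ℝ) (F : Set (Site d))) :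
    TendstoUniformly (fun (t : ℝ≥0) (ξ : Cfg d) => (S t f ξ - f ξ) / t) (gen c f) (𝓝[>] 0) ↔
      Tendsto (fun t : ℝ≥0 => (t : ℝ)⁻¹ • (S t f - f)) (𝓝[>] 0) (𝓝 (LF (gD c) F f)) := by
  rw [ContinuousMap.tendsto_iff_tendstoUniformly]
  have e1 : gen c f = (LF (gD c) F f : Cfg d → ℝ) := funext (gen_eq c F f hf)
  have e2 : (fun (t : ℝ≥0) (ξ : Cfg d) => (S t f ξ - f ξ) / t)
      = fun (t : ℝ≥0) => ((((t : ℝ)⁻¹ • (S t f - f) : C(Cfg d, ℝ))) : Cfg d → ℝ) := by
    funext t ξ
    rw [ContinuousMap.smul_apply, ContinuousMap.sub_apply, smul_eq_mul, div_eq_inv_mul]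
  rw [e1, e2]

theorem isIPS_of_isSG (c : Rates d R) (S : ℝ≥0 → Obs (Site d) →L[ℝ] Obs (Site d))
    (h : IsSG (gD c) S) : IsIPS c (fun t f => S t f) :=
  ⟨⟨h.zero, h.add, fun t f g => map_add (S t) f g, fun t a f => map_smul (S t) a f, h.one,
    h.nonneg, h.cont⟩, fun F f hf => (gen_iff c _ F f hf).2 (h.gen F f hf)⟩

theorem IsMarkov.norm_le {S : ℝ≥0 → CF d → CF d} (hS : IsMarkov S) (t : ℝ≥0) (f : CF d) :
    ‖S t f‖ ≤ ‖f‖ := by
  have hneg : S t (-f) = -(S t f) := by
    have := hS.map_smul t (-1) f
    simpa using this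
  refine (ContinuousMap.norm_le _ (norm_nonneg f)).2 (fun ξ => ?_)
  have hb : ∀ η, -‖f‖ ≤ f η ∧ f η ≤ ‖f‖ := fun η =>
    abs_le.1 (ContinuousMap.norm_coe_le_norm f η)
  have e1 := hS.nonneg t (‖f‖ • 1 + -f) (fun η => by
    have := (hb η).2
    simp only [ContinuousMap.add_apply, ContinuousMap.neg_apply, ContinuousMap.smul_apply,
      ContinuousMap.one_apply, smul_eq_mul, mul_one]
    linarith) ξ
  have e2 := hS.nonneg t (‖f‖ • 1 + f) (fun η => by
    have := (hb η).1
    simp only [ContinuousMap.add_apply, ContinuousMap.smul_apply, ContinuousMap.one_apply,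
      smul_eq_mul, mul_one]
    linarith) ξ
  rw [hS.map_add, hS.map_smul, hS.one, hneg] at e1
  rw [hS.map_add, hS.map_smul, hS.one] at e2
  simp only [ContinuousMap.add_apply, ContinuousMap.neg_apply, ContinuousMap.smul_apply,
    ContinuousMap.one_apply, smul_eq_mul, mul_one] at e1 e2
  rw [Real.norm_eq_abs, abs_le]
  constructor <;> linarith

theorem isSG_of_isIPS (c : Rates d R) (S : ℝ≥0 → CF d → CF d) (h : IsIPS c S) :
    ∃ S' : ℝ≥0 → Obs (Site d) →L[ℝ] Obs (Site d), IsSG (gD c) S' ∧ ∀ t f, S' t f = S t f := by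
  refine ⟨fun t => LinearMap.mkContinuous
    { toFun := S t
      map_add' := h.markov.map_add t
      map_smul' := h.markov.map_smul t } 1 (fun f => by
        rw [one_mul]
        exact h.markov.norm_le t f), ?_, fun _ _ => rfl⟩
  exact ⟨h.markov.zero, h.markov.add, h.markov.one, h.markov.nonneg, h.markov.cont,
    fun F f hf => (gen_iff c S F f hf).1 (h.gen F f hf)⟩

end MP1060
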