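import Pool.Agent.Work.MP_1060d1_pr.SUB.Base

/-!
Finite speed of propagation: weighted bounds for the discrete derivatives of `TF g F t f`.
-/

open Filter Topology
open scoped NNReal

namespace MP1060

variable {V : Type*} [DecidableEq V]

/-- the increment of one term of the generator in direction `x` -/
theorem term_bound {g : V → Obs V} {K : ℝ} (hg : Sys g K) (N : V → Finset V)
    (hN : ∀ x, DependsOn (g x : (V → Bool) → ℝ) (N x : Set V)) (f : Obs V) (x y : V)
    (ξ : V → Bool) :
    ∃ a : ℝ, 0 ≤ a ∧ a ≤ 2 * K ∧
      |(g y (Function.update ξ x true) * D y f (Function.update ξ x true)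
        - g y (Function.update ξ x false) * D y f (Function.update ξ x false)) + a * D x f ξ|
        ≤ a * ‖D x f‖ + (if x ∈ N y then 2 * K * ‖D y f‖ else 0) := by
  have hK := hg.K_pos
  have hbd : ∀ z η, g z η ≤ K ∧ -K ≤ g z η := fun z η =>
    ⟨(abs_le.1 (hg.bd z η)).2, (abs_le.1 (hg.bd z η)).1⟩
  have hnn : 0 ≤ (if x ∈ N y then 2 * K * ‖D y f‖ else 0) := by
    split_ifs
    · exact mul_nonneg (by linarith) (norm_nonneg _)
    · exact le_rfl
  rcases eq_or_ne y x with rfl | hyx
  · refine ⟨g y (Function.update ξ y false) - g y (Function.update ξ y true), ?_, ?_, ?_⟩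
    · have h1 := hg.off y (Function.update ξ y false) (by simp)
      have h2 := hg.on y (Function.update ξ y true) (by simp)
      linarith
    · have h1 := (hbd y (Function.update ξ y false)).1
      have h2 := (hbd y (Function.update ξ y true)).2
      linarith
    · have e1 : D y f (Function.update ξ y true) = D y f ξ := by
        rw [D_apply, D_apply, Function.update_idem, Function.update_idem]
      have e2 : D y f (Function.update ξ y false) = D y f ξ := by
        rw [D_apply, D_apply, Function.update_idem, Function.update_idem]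
      rw [e1, e2]
      have e3 : (g y (Function.update ξ y true) * D y f ξ
          - g y (Function.update ξ y false) * D y f ξ)
          + (g y (Function.update ξ y false) - g y (Function.update ξ y true)) * D y f ξ = 0 := by
        ring
      rw [e3, abs_zero]
      have h1 := hg.off y (Function.update ξ y false) (by simp)
      have h2 := hg.on y (Function.update ξ y true) (by simp)
      exact add_nonneg (mul_nonneg (by linarith) (norm_nonneg _)) hnn
  · -- the influence of `x` on `g y`
    have hinf : |(g y (Function.update ξ x true) - g y (Function.update ξ x false))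
        * D y f (Function.update ξ x true)| ≤ (if x ∈ N y then 2 * K * ‖D y f‖ else 0) := by
      by_cases hx : x ∈ N y
      · rw [if_pos hx, abs_mul]
        refine mul_le_mul ?_ (ContinuousMap.norm_coe_le_norm (D y f) _) (abs_nonneg _) (by linarith)
        have h1 := hbd y (Function.update ξ x true)
        have h2 := hbd y (Function.update ξ x false)
        rw [abs_le]
        constructor <;> linarith [h1.1, h1.2, h2.1, h2.2]
      · rw [if_neg hx]
        have e : g y (Function.update ξ x true) = g y (Function.update ξ x false) := by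
          refine hN y ?_
          intro z hz
          have hzx : z ≠ x := fun h => hx (by rw [← h]; exact hz)
          rw [Function.update_of_ne hzx, Function.update_of_ne hzx]
        rw [e, sub_self, zero_mul, abs_zero]
    have hsecond : D y f (Function.update ξ x true) - D y f (Function.update ξ x false)
        = D x f (Function.update ξ y true) - D x f (Function.update ξ y false) := by
      simp only [D_apply]
      rw [Function.update_comm hyx true true ξ, Function.update_comm hyx false true ξ,
        Function.update_comm hyx true false ξ, Function.update_comm hyx false false ξ]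
      ring
    have hval : Function.update ξ x false y = ξ y := Function.update_of_ne hyx _ _
    have hsplit : ∀ a : ℝ, (g y (Function.update ξ x true) * D y f (Function.update ξ x true)
        - g y (Function.update ξ x false) * D y f (Function.update ξ x false)) + a * D x f ξ
        = (g y (Function.update ξ x true) - g y (Function.update ξ x false))
            * D y f (Function.update ξ x true)
          + (g y (Function.update ξ x false)
              * (D x f (Function.update ξ y true) - D x f (Function.update ξ y false))
            + a * D x f ξ) := by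
      intro a
      rw [← hsecond]
      ring
    rcases Bool.eq_false_or_eq_true (ξ y) with h | h
    · -- `ξ y = true`
      have hc : g y (Function.update ξ x false) ≤ 0 := hg.on y _ (by rw [hval]; exact h)
      refine ⟨-g y (Function.update ξ x false), by linarith, ?_, ?_⟩
      · have := (hbd y (Function.update ξ x false)).2
        linarith
      · rw [hsplit]
        have e : Function.update ξ y true = ξ := by rw [← h, Function.update_eq_self]
        rw [e]
        have e2 : g y (Function.update ξ x false) * (D x f ξ - D x f (Function.update ξ y false))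
            + -g y (Function.update ξ x false) * D x f ξ
            = -g y (Function.update ξ x false) * D x f (Function.update ξ y false) := by ring
        rw [e2, add_comm]
        refine (abs_add_le _ _).trans (add_le_add ?_ hinf)
        rw [abs_mul, abs_of_nonneg (by linarith : 0 ≤ -g y (Function.update ξ x false))]
        exact mul_le_mul_of_nonneg_left (ContinuousMap.norm_coe_le_norm (D x f) _) (by linarith)
    · have hc : 0 ≤ g y (Function.update ξ x false) := hg.off y _ (by rw [hval]; exact h)
      refine ⟨g y (Function.update ξ x false), hc, ?_, ?_⟩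
      · have := (hbd y (Function.update ξ x false)).1
        linarith
      · rw [hsplit]
        have e : Function.update ξ y false = ξ := by rw [← h, Function.update_eq_self]
        rw [e]
        have e2 : g y (Function.update ξ x false) * (D x f (Function.update ξ y true) - D x f ξ)
            + g y (Function.update ξ x false) * D x f ξ
            = g y (Function.update ξ x false) * D x f (Function.update ξ y true) := by ring
        rw [e2, add_comm]
        refine (abs_add_le _ _).trans (add_le_add ?_ hinf)
        rw [abs_mul, abs_of_nonneg hc]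
        exact mul_le_mul_of_nonneg_left (ContinuousMap.norm_coe_le_norm (D x f) _) hc

/-- one step of the Euler scheme -/
theorem step_bound {g : V → Obs V} {K : ℝ} (hg : Sys g K) (N : V → Finset V)
    (hN : ∀ x, DependsOn (g x : (V → Bool) → ℝ) (N x : Set V)) (F : Finset V) (h : ℝ)
    (hh : 0 ≤ h) (hh1 : h * ((F.card : ℝ) * (2 * K)) ≤ 1) (f : Obs V) (x : V) :
    ‖D x (f + h • LF g F f)‖
      ≤ ‖D x f‖ + h * ∑ y ∈ F, (if x ∈ N y then 2 * K * ‖D y f‖ else 0) := by
  have hK := hg.K_pos
  have hnn : ∀ y, 0 ≤ (if x ∈ N y then 2 * K * ‖D y f‖ else 0) := by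
    intro y
    split_ifs
    · exact mul_nonneg (by linarith) (norm_nonneg _)
    · exact le_rfl
  refine (ContinuousMap.norm_le _ (add_nonneg (norm_nonneg _)
    (mul_nonneg hh (Finset.sum_nonneg (fun y _ => hnn y))))).2 ?_
  intro ξ
  choose a ha0 haK hab using fun y => term_bound hg N hN f x y ξ
  have e : D x (f + h • LF g F f) ξ = D x f ξ * (1 - h * ∑ y ∈ F, a y)
      + h * ∑ y ∈ F, ((g y (Function.update ξ x true) * D y f (Function.update ξ x true)
        - g y (Function.update ξ x false) * D y f (Function.update ξ x false))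
          + a y * D x f ξ) := by
    have e1 : D x (f + h • LF g F f) ξ = D x f ξ + h * (LF g F f (Function.update ξ x true)
        - LF g F f (Function.update ξ x false)) := by
      rw [D_apply, D_apply]
      simp only [ContinuousMap.add_apply, ContinuousMap.smul_apply, smul_eq_mul]
      ring
    rw [e1, LF_apply, LF_apply, ← Finset.sum_sub_distrib, Finset.sum_add_distrib, ← Finset.sum_mul]
    ring
  rw [e, Real.norm_eq_abs]
  have hsum : h * ∑ y ∈ F, a y ≤ 1 := by
    refine le_trans ?_ hh1
    refine mul_le_mul_of_nonneg_left ?_ hh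
    calc ∑ y ∈ F, a y ≤ ∑ _y ∈ F, 2 * K := Finset.sum_le_sum (fun y _ => haK y)
      _ = (F.card : ℝ) * (2 * K) := by rw [Finset.sum_const, nsmul_eq_mul]
  have h1 : |D x f ξ * (1 - h * ∑ y ∈ F, a y)| ≤ ‖D x f‖ * (1 - h * ∑ y ∈ F, a y) := by
    rw [abs_mul, abs_of_nonneg (by linarith : 0 ≤ 1 - h * ∑ y ∈ F, a y)]
    exact mul_le_mul_of_nonneg_right (ContinuousMap.norm_coe_le_norm (D x f) ξ) (by linarith)
  have h2 : |h * ∑ y ∈ F, ((g y (Function.update ξ x true) * D y f (Function.update ξ x true)
        - g y (Function.update ξ x false) * D y f (Function.update ξ x false))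
          + a y * D x f ξ)|
      ≤ h * ∑ y ∈ F, (a y * ‖D x f‖ + (if x ∈ N y then 2 * K * ‖D y f‖ else 0)) := by
    rw [abs_mul, abs_of_nonneg hh]
    refine mul_le_mul_of_nonneg_left ?_ hh
    refine (Finset.abs_sum_le_sum_abs _ _).trans ?_
    exact Finset.sum_le_sum (fun y _ => hab y)
  refine (abs_add_le _ _).trans ((add_le_add h1 h2).trans (le_of_eq ?_))
  rw [Finset.sum_add_distrib, ← Finset.sum_mul]
  ring

theorem TF_speed {g : V → Obs V} {K : ℝ} (hg : Sys g K) (N : V → Finset V)
    (hN : ∀ x, DependsOn (g x : (V → Bool) → ℝ) (N x : Set V)) (w : V → ℝ) (hw : ∀ x, 0 < w x)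
    (κ : ℝ) (hκ0 : 0 ≤ κ) (hκ : ∀ y, ∑ x ∈ N y, w x ≤ κ * w y) (F G : Finset V) (hFG : F ⊆ G)
    (t : ℝ) (ht : 0 ≤ t) (f : Obs V) :
    ∑ x ∈ G, w x * ‖D x (TF g F t f)‖
      ≤ Real.exp (t * (2 * K * κ)) * ∑ x ∈ G, w x * ‖D x f‖ := by
  have hK := hg.K_pos
  have hden : 0 < (2 * (F.card : ℝ) + 2) * K := by positivity
  have hh : 0 < 1 / ((2 * (F.card : ℝ) + 2) * K) := by positivity
  have hh1 : 1 / ((2 * (F.card : ℝ) + 2) * K) * ((F.card : ℝ) * (2 * K)) ≤ 1 := by
    rw [one_div, inv_mul_le_iff₀ hden]
    nlinarith
  refine eT_bound (LF g F) (fun f => ∑ x ∈ G, w x * ‖D x f‖) ?_ ?_ ?_ ?_ ?_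
    (1 / ((2 * (F.card : ℝ) + 2) * K)) (2 * K * κ) hh (by positivity) ?_ t ht f
  · exact continuous_finsetSum _ (fun x _ => ((D x).continuous.norm).const_mul (w x))
  · intro f
    exact Finset.sum_nonneg (fun x _ => mul_nonneg (hw x).le (norm_nonneg _))
  · simp
  · intro f g'
    rw [← Finset.sum_add_distrib]
    refine Finset.sum_le_sum (fun x _ => ?_)
    rw [← mul_add, map_add]
    exact mul_le_mul_of_nonneg_left (norm_add_le _ _) (hw x).le
  · intro a ha f
    rw [Finset.mul_sum]
    refine Finset.sum_congr rfl (fun x _ => ?_)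
    rw [map_smul, norm_smul, Real.norm_of_nonneg ha]
    ring
  · intro f
    set h := 1 / ((2 * (F.card : ℝ) + 2) * K) with hhdef
    have hS : ∑ x ∈ G, w x * ∑ y ∈ F, (if x ∈ N y then 2 * K * ‖D y f‖ else 0)
        ≤ 2 * K * κ * ∑ x ∈ G, w x * ‖D x f‖ := by
      calc ∑ x ∈ G, w x * ∑ y ∈ F, (if x ∈ N y then 2 * K * ‖D y f‖ else 0)
          = ∑ y ∈ F, ∑ x ∈ G, w x * (if x ∈ N y then 2 * K * ‖D y f‖ else 0) := by
            simp_rw [Finset.mul_sum]
            rw [Finset.sum_comm]
        _ = ∑ y ∈ F, 2 * K * ‖D y f‖ * ∑ x ∈ G with x ∈ N y, w x := by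
            refine Finset.sum_congr rfl (fun y _ => ?_)
            rw [Finset.sum_filter, Finset.mul_sum]
            refine Finset.sum_congr rfl (fun x _ => ?_)
            split_ifs <;> ring
        _ ≤ ∑ y ∈ F, 2 * K * ‖D y f‖ * (κ * w y) := by
            refine Finset.sum_le_sum (fun y _ => ?_)
            refine mul_le_mul_of_nonneg_left ?_ (mul_nonneg (by linarith) (norm_nonneg _))
            refine le_trans ?_ (hκ y)
            refine Finset.sum_le_sum_of_subset_of_nonneg ?_ (fun x _ _ => (hw x).le)
            intro x hx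
            exact (Finset.mem_filter.1 hx).2
        _ ≤ ∑ y ∈ G, 2 * K * ‖D y f‖ * (κ * w y) := by
            refine Finset.sum_le_sum_of_subset_of_nonneg hFG (fun y _ _ => ?_)
            exact mul_nonneg (mul_nonneg (by linarith) (norm_nonneg _)) (mul_nonneg hκ0 (hw y).le)
        _ = 2 * K * κ * ∑ x ∈ G, w x * ‖D x f‖ := by
            rw [Finset.mul_sum]
            exact Finset.sum_congr rfl (fun y _ => by ring)
    calc ∑ x ∈ G, w x * ‖D x (f + h • LF g F f)‖
        ≤ ∑ x ∈ G, w x * (‖D x f‖ + h * ∑ y ∈ F, (if x ∈ N y then 2 * K * ‖D y f‖ else 0)) :=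
          Finset.sum_le_sum (fun x _ => mul_le_mul_of_nonneg_left
            (step_bound hg N hN F h hh.le hh1 f x) (hw x).le)
      _ = ∑ x ∈ G, w x * ‖D x f‖
          + h * ∑ x ∈ G, w x * ∑ y ∈ F, (if x ∈ N y then 2 * K * ‖D y f‖ else 0) := by
          rw [Finset.mul_sum, ← Finset.sum_add_distrib]
          exact Finset.sum_congr rfl (fun x _ => by ring)
      _ ≤ ∑ x ∈ G, w x * ‖D x f‖ + h * (2 * K * κ * ∑ x ∈ G, w x * ‖D x f‖) :=
          add_le_add_right (mul_le_mul_of_nonneg_left hS hh.le) _
      _ = (1 + h * (2 * K * κ)) * ∑ x ∈ G, w x * ‖D x f‖ := by ring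

end MP1060
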