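import Pool.Agent.Work.MP_1060d1_pr.SUB.Pos
import Pool.Agent.Work.MP_1060d1_pr.SUB.Cone
import Pool.Agent.Work.MP_1060d1_pr.SUB.Order
import Pool.Agent.Work.MP_1060d1_pr.SUB.Speed

/-!
Infinite volume: convergence of the finite-volume semigroups, existence and uniqueness.
-/

open Filter Topology
open scoped NNReal

namespace MP1060

variable {V : Type*} [DecidableEq V]

section Lim

theorem LF_sub_norm {g : V → Obs V} {K : ℝ} (hg : Sys g K) {w : V → ℝ} (hw : ∀ x, 0 < w x)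
    (F H : Finset V) (hFH : F ⊆ H) (a : ℝ) (ha : 0 < a) (hout : ∀ x, x ∉ F → a ≤ w x)
    (u : Obs V) :
    ‖LF g H u - LF g F u‖ ≤ (K / a) * ∑ x ∈ H, w x * ‖D x u‖ := by
  have hK := hg.K_pos
  have hsum : 0 ≤ ∑ x ∈ H, w x * ‖D x u‖ :=
    Finset.sum_nonneg (fun x _ => mul_nonneg (hw x).le (norm_nonneg _))
  refine (ContinuousMap.norm_le _ (by positivity)).2 ?_
  intro ξ
  rw [ContinuousMap.sub_apply, LF_apply, LF_apply, ← Finset.sum_sdiff hFH, add_sub_cancel_right]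
  calc ‖∑ x ∈ H \ F, g x ξ * D x u ξ‖ ≤ ∑ x ∈ H \ F, ‖g x ξ * D x u ξ‖ := norm_sum_le _ _
    _ ≤ ∑ x ∈ H \ F, (K / a) * (w x * ‖D x u‖) := by
        refine Finset.sum_le_sum (fun x hx => ?_)
        have hxF := (Finset.mem_sdiff.1 hx).2
        have h1 : ‖g x ξ‖ ≤ K := hg.bd x ξ
        have h2 : ‖D x u ξ‖ ≤ ‖D x u‖ := ContinuousMap.norm_coe_le_norm _ _
        have h3 := hout x hxF
        rw [norm_mul]
        calc ‖g x ξ‖ * ‖D x u ξ‖ ≤ K * ‖D x u‖ := mul_le_mul h1 h2 (norm_nonneg _) hK.le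
          _ = (K / a) * (a * ‖D x u‖) := by field_simp
          _ ≤ (K / a) * (w x * ‖D x u‖) := by
              refine mul_le_mul_of_nonneg_left ?_ (by positivity)
              exact mul_le_mul_of_nonneg_right h3 (norm_nonneg _)
    _ = (K / a) * ∑ x ∈ H \ F, w x * ‖D x u‖ := by rw [Finset.mul_sum]
    _ ≤ (K / a) * ∑ x ∈ H, w x * ‖D x u‖ := by
        refine mul_le_mul_of_nonneg_left ?_ (by positivity)
        exact Finset.sum_le_sum_of_subset_of_nonneg Finset.sdiff_subset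
          (fun x _ _ => mul_nonneg (hw x).le (norm_nonneg _))

theorem D_eq_zero_of_dependsOn (f : Obs V) (F : Finset V)
    (hf : DependsOn (f : (V → Bool) → ℝ) (F : Set V)) (x : V) (hx : x ∉ F) : D x f = 0 := by
  ext ξ
  rw [D_apply]
  have : f (Function.update ξ x true) = f (Function.update ξ x false) := by
    refine hf (fun y hy => ?_)
    have hyx : y ≠ x := by
      rintro rfl
      exact hx (by simpa using hy)
    rw [Function.update_of_ne hyx, Function.update_of_ne hyx]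
  rw [this, sub_self]
  rfl

theorem wsum_le (w : V → ℝ) (hw : ∀ x, 0 < w x) (f : Obs V) (F H : Finset V)
    (hf : DependsOn (f : (V → Bool) → ℝ) (F : Set V)) :
    ∑ x ∈ H, w x * ‖D x f‖ ≤ ∑ x ∈ F, w x * ‖D x f‖ := by
  have h1 : ∑ x ∈ H ∪ F, w x * ‖D x f‖ = ∑ x ∈ F, w x * ‖D x f‖ := by
    refine (Finset.sum_subset Finset.subset_union_right (fun x _ hx => ?_)).symm
    rw [D_eq_zero_of_dependsOn f F hf x hx, norm_zero, mul_zero]
  rw [← h1]
  exact Finset.sum_le_sum_of_subset_of_nonneg Finset.subset_union_left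
    (fun x _ _ => mul_nonneg (hw x).le (norm_nonneg _))

/-- the error of replacing the generator -/
theorem TF_gen_err {g : V → Obs V} {K : ℝ} (hg : Sys g K) {N : V → Finset V} {w : V → ℝ} {κ : ℝ}
    {Λ : ℕ → Finset V} (hG : Geo g N w κ Λ) (F₀ : Finset V) (f : Obs V)
    (hf : DependsOn (f : (V → Bool) → ℝ) (F₀ : Set V)) (F H : Finset V) (hFH : F ⊆ H) (a : ℝ)
    (ha : 0 < a) (hout : ∀ x, x ∉ F → a ≤ w x) (s t : ℝ) (hs : 0 ≤ s) (hst : s ≤ t) :
    ‖LF g H (TF g F s f) - LF g F (TF g F s f)‖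
      ≤ (K / a) * (Real.exp (t * (2 * K * κ)) * ∑ x ∈ F₀, w x * ‖D x f‖) := by
  have hK := hg.K_pos
  have hκ := hG.κ_nonneg
  refine (LF_sub_norm hg hG.w_pos F H hFH a ha hout _).trans ?_
  refine mul_le_mul_of_nonneg_left ?_ (by positivity)
  refine (TF_speed hg N hG.range w hG.w_pos κ hG.κ_nonneg hG.sum F H hFH s hs f).trans ?_
  have h1 : Real.exp (s * (2 * K * κ)) ≤ Real.exp (t * (2 * K * κ)) := by
    refine Real.exp_le_exp.2 ?_
    exact mul_le_mul_of_nonneg_right hst (by positivity)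
  exact mul_le_mul h1 (wsum_le w hG.w_pos f F₀ H hf)
    (Finset.sum_nonneg (fun x _ => mul_nonneg (hG.w_pos x).le (norm_nonneg _)))
    (Real.exp_pos _).le

theorem TF_sub_TF {g : V → Obs V} {K : ℝ} (hg : Sys g K) {N : V → Finset V} {w : V → ℝ} {κ : ℝ}
    {Λ : ℕ → Finset V} (hG : Geo g N w κ Λ) (F₀ : Finset V) (f : Obs V)
    (hf : DependsOn (f : (V → Bool) → ℝ) (F₀ : Set V)) (F H : Finset V) (hFH : F ⊆ H) (a : ℝ)
    (ha : 0 < a) (hout : ∀ x, x ∉ F → a ≤ w x) (t : ℝ) (ht : 0 ≤ t) :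
    ‖TF g H t f - TF g F t f‖
      ≤ t * ((K / a) * (Real.exp (t * (2 * K * κ)) * ∑ x ∈ F₀, w x * ‖D x f‖)) := by
  refine duhamel (LF g F) (TF g H) ?_ ?_ ?_ ?_ (fun u => LF g H u) f t _ ht ?_ ?_
  · intro s t _ _ f
    exact eT_add_apply _ s t f
  · intro s hs f
    exact TF_norm_le hg H s hs f
  · intro f
    show eT (LF g H) 0 f = f
    rw [eT_zero]
    rfl
  · intro f
    have h := (eT_hasDerivAt (LF g H) f 0).continuousAt.tendsto
    rw [eT_zero] at h
    exact h.mono_left nhdsWithin_le_nhds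
  · intro s _ _
    have h := hasDerivAt_iff_tendsto_slope_zero.1 (eT_hasDerivAt (LF g H) (eT (LF g F) s f) 0)
    have h2 := h.mono_left (nhdsWithin_mono 0 (fun x (hx : x ∈ Set.Ioi (0:ℝ)) => ne_of_gt hx))
    simpa [eT_zero, TF] using h2
  · intro s hs hst
    exact TF_gen_err hg hG F₀ f hf F H hFH a ha hout s t hs hst

theorem IsSG.norm_le {g : V → Obs V} {S : ℝ≥0 → Obs V →L[ℝ] Obs V} (hS : IsSG g S) (t : ℝ≥0)
    (f : Obs V) : ‖S t f‖ ≤ ‖f‖ :=
  norm_le_of_pos_one (S t) (hS.one t) (hS.nonneg t) f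

theorem toNNReal_tendsto : Tendsto (fun h : ℝ => h.toNNReal) (𝓝[>] 0) (𝓝[>] 0) := by
  refine tendsto_nhdsWithin_iff.2 ⟨?_, ?_⟩
  · have h : Tendsto (fun h : ℝ => h.toNNReal) (𝓝 0) (𝓝 (Real.toNNReal 0)) :=
      continuous_real_toNNReal.tendsto 0
    rw [Real.toNNReal_zero] at h
    exact h.mono_left nhdsWithin_le_nhds
  · filter_upwards [self_mem_nhdsWithin] with h hh
    exact Real.toNNReal_pos.2 hh

theorem SG_sub_TF {g : V → Obs V} {K : ℝ} (hg : Sys g K) {N : V → Finset V} {w : V → ℝ} {κ : ℝ}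
    {Λ : ℕ → Finset V} (hG : Geo g N w κ Λ) {S : ℝ≥0 → Obs V →L[ℝ] Obs V} (hS : IsSG g S)
    (F₀ : Finset V) (f : Obs V)
    (hf : DependsOn (f : (V → Bool) → ℝ) (F₀ : Set V)) (F : Finset V) (a : ℝ)
    (ha : 0 < a) (hout : ∀ x, x ∉ F → a ≤ w x) (t : ℝ≥0) :
    ‖S t f - TF g F t f‖
      ≤ t * ((K / a) * (Real.exp (t * (2 * K * κ)) * ∑ x ∈ F₀, w x * ‖D x f‖)) := by
  set H : Finset V := F ∪ (F₀ ∪ F.biUnion N) with hH
  have hFH : F ⊆ H := Finset.subset_union_left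
  have key := duhamel (LF g F) (fun s => S s.toNNReal) ?_ ?_ ?_ ?_ (fun u => LF g H u) f t
    ((K / a) * (Real.exp (t * (2 * K * κ)) * ∑ x ∈ F₀, w x * ‖D x f‖)) t.2 ?_ ?_
  · simpa [TF] using key
  · intro s t hs ht f
    show S (s + t).toNNReal f = S s.toNNReal (S t.toNNReal f)
    rw [Real.toNNReal_add hs ht, hS.add]
  · intro s hs f
    exact hS.norm_le _ f
  · intro f
    show S (Real.toNNReal 0) f = f
    rw [Real.toNNReal_zero, hS.zero]
  · intro f
    have h1 : Tendsto (fun s : ℝ => s.toNNReal) (𝓝[≥] 0) (𝓝 0) := by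
      have h : Tendsto (fun h : ℝ => h.toNNReal) (𝓝 0) (𝓝 (Real.toNNReal 0)) :=
        continuous_real_toNNReal.tendsto 0
      rw [Real.toNNReal_zero] at h
      exact h.mono_left nhdsWithin_le_nhds
    exact (hS.cont f).comp h1
  · intro s _ _
    have hdep : DependsOn (TF g F s f : (V → Bool) → ℝ) (H : Set V) := by
      refine TF_dependsOn F H hFH ?_ f ?_ s
      · intro x hx
        refine (hG.range x).mono ?_
        intro y hy
        have hy' : y ∈ N x := by simpa using hy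
        have : y ∈ H := by
          rw [hH, Finset.mem_union, Finset.mem_union, Finset.mem_biUnion]
          exact Or.inr (Or.inr ⟨x, hx, hy'⟩)
        simpa using this
      · refine hf.mono ?_
        intro y hy
        have hy' : y ∈ F₀ := by simpa using hy
        have : y ∈ H := by
          rw [hH, Finset.mem_union, Finset.mem_union]
          exact Or.inr (Or.inl hy')
        simpa using this
    have h := (hS.gen H _ hdep).comp toNNReal_tendsto
    refine h.congr' ?_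
    filter_upwards [self_mem_nhdsWithin] with h hh
    have hh' : (0:ℝ) ≤ h := (Set.mem_Ioi.1 hh).le
    simp only [Function.comp_apply, Real.coe_toNNReal _ hh']
    rfl
  · intro s hs hst
    exact TF_gen_err hg hG F₀ f hf F H hFH a ha hout s t hs hst

theorem err_tendsto (C : ℝ) (t : ℝ) :
    Tendsto (fun n : ℕ => t * ((C / ((n : ℝ) + 1)))) atTop (𝓝 0) := by
  have h := tendsto_one_div_add_atTop_nhds_zero_nat (𝕜 := ℝ)
  have h2 := (h.const_mul C).const_mul t
  simpa [div_eq_mul_inv] using h2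

/-- convergence of the finite-volume semigroups -/
theorem lim_cyl {g : V → Obs V} {K : ℝ} (hg : Sys g K) {N : V → Finset V} {w : V → ℝ} {κ : ℝ}
    {Λ : ℕ → Finset V} (hG : Geo g N w κ Λ) {S : ℝ≥0 → Obs V →L[ℝ] Obs V} (hS : IsSG g S)
    (F : Finset V) (f : Obs V) (hf : DependsOn (f : (V → Bool) → ℝ) (F : Set V)) (t : ℝ≥0) :
    Tendsto (fun n => TF g (Λ n) t f) atTop (𝓝 (S t f)) := by
  rw [← tendsto_add_atTop_iff_nat 1, tendsto_iff_norm_sub_tendsto_zero]
  refine squeeze_zero (fun n => norm_nonneg _) (fun n => ?_)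
    (err_tendsto (K * (Real.exp (t * (2 * K * κ)) * ∑ x ∈ F, w x * ‖D x f‖)) t)
  have h := SG_sub_TF hg hG hS F f hf (Λ (n + 1)) ((n : ℝ) + 1) (by positivity)
    (fun x hx => by
      have := hG.out (n + 1) x hx
      push_cast at this
      exact this) t
  rw [norm_sub_rev]
  refine h.trans (le_of_eq ?_)
  ring

theorem lim_all {g : V → Obs V} {K : ℝ} (hg : Sys g K) {N : V → Finset V} {w : V → ℝ} {κ : ℝ}
    {Λ : ℕ → Finset V} (hG : Geo g N w κ Λ) {S : ℝ≥0 → Obs V →L[ℝ] Obs V} (hS : IsSG g S)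
    (f : Obs V) (t : ℝ≥0) :
    Tendsto (fun n => TF g (Λ n) t f) atTop (𝓝 (S t f)) := by
  rw [Metric.tendsto_atTop]
  intro ε hε
  obtain ⟨F, f', hf', hff⟩ := exists_cyl_near f (ε / 3) (by positivity)
  obtain ⟨n₀, hn₀⟩ := (Metric.tendsto_atTop.1 (lim_cyl hg hG hS F f' hf' t)) (ε / 3) (by positivity)
  refine ⟨n₀, fun n hn => ?_⟩
  have h1 := hn₀ n hn
  rw [dist_eq_norm] at h1 ⊢
  have e : TF g (Λ n) t f - S t f = TF g (Λ n) t (f - f') + (TF g (Λ n) t f' - S t f')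
      - S t (f - f') := by
    rw [map_sub, map_sub]
    abel
  rw [e]
  have h2 := TF_norm_le hg (Λ n) t t.2 (f - f')
  have h3 := hS.norm_le t (f - f')
  calc ‖TF g (Λ n) t (f - f') + (TF g (Λ n) t f' - S t f') - S t (f - f')‖
      ≤ ‖TF g (Λ n) t (f - f')‖ + ‖TF g (Λ n) t f' - S t f'‖ + ‖S t (f - f')‖ :=
        (norm_sub_le _ _).trans (add_le_add_left (norm_add_le _ _) _)
    _ < ε := by linarith

theorem isSG_unique {g : V → Obs V} {K : ℝ} (hg : Sys g K) {N : V → Finset V} {w : V → ℝ} {κ : ℝ}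
    {Λ : ℕ → Finset V} (hG : Geo g N w κ Λ) {S S' : ℝ≥0 → Obs V →L[ℝ] Obs V} (hS : IsSG g S)
    (hS' : IsSG g S') : S = S' := by
  funext t
  refine ContinuousLinearMap.ext (fun f => ?_)
  exact tendsto_nhds_unique (lim_all hg hG hS f t) (lim_all hg hG hS' f t)

theorem isSG_incO {g : V → Obs V} {K : ℝ} (hg : Sys g K) (hm : Mono g) {N : V → Finset V}
    {w : V → ℝ} {κ : ℝ}
    {Λ : ℕ → Finset V} (hG : Geo g N w κ Λ) {S : ℝ≥0 → Obs V →L[ℝ] Obs V} (hS : IsSG g S)
    (f : Obs V) (hf : IncO f) (t : ℝ≥0) : IncO (S t f) :=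
  IncO_closed.mem_of_tendsto (lim_all hg hG hS f t)
    (Eventually.of_forall (fun n => TF_incO hg hm (Λ n) t t.2 f hf))

/-- the finite-volume semigroups form a Cauchy sequence -/
theorem cauchy_cyl {g : V → Obs V} {K : ℝ} (hg : Sys g K) {N : V → Finset V} {w : V → ℝ} {κ : ℝ}
    {Λ : ℕ → Finset V} (hG : Geo g N w κ Λ)
    (F : Finset V) (f : Obs V) (hf : DependsOn (f : (V → Bool) → ℝ) (F : Set V)) (t : ℝ)
    (ht : 0 ≤ t) (ε : ℝ) (hε : 0 < ε) :
    ∃ n₀, ∀ n ≥ n₀, ∀ m ≥ n, ‖TF g (Λ m) t f - TF g (Λ n) t f‖ < ε := by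
  have h := err_tendsto (K * (Real.exp (t * (2 * K * κ)) * ∑ x ∈ F, w x * ‖D x f‖)) t
  obtain ⟨n₀, hn₀⟩ := (Metric.tendsto_atTop.1 h) ε hε
  refine ⟨n₀ + 1, fun n hn m hm => ?_⟩
  obtain ⟨k, rfl⟩ : ∃ k, n = k + 1 := ⟨n - 1, by omega⟩
  have h1 := hn₀ k (by omega)
  rw [Real.dist_eq, sub_zero] at h1
  have h2 := TF_sub_TF hg hG F f hf (Λ (k + 1)) (Λ m) (hG.mono hm) ((k : ℝ) + 1) (by positivity)
    (fun x hx => by
      have := hG.out (k + 1) x hx
      push_cast at this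
      exact this) t ht
  refine lt_of_le_of_lt (h2.trans (le_of_eq ?_)) (lt_of_le_of_lt (le_abs_self _) h1)
  ring

theorem cauchy_all {g : V → Obs V} {K : ℝ} (hg : Sys g K) {N : V → Finset V} {w : V → ℝ} {κ : ℝ}
    {Λ : ℕ → Finset V} (hG : Geo g N w κ Λ) (f : Obs V) (t : ℝ) (ht : 0 ≤ t) :
    CauchySeq (fun n => TF g (Λ n) t f) := by
  rw [Metric.cauchySeq_iff']
  intro ε hε
  obtain ⟨F, f', hf', hff⟩ := exists_cyl_near f (ε / 3) (by positivity)
  obtain ⟨n₀, hn₀⟩ := cauchy_cyl hg hG F f' hf' t ht (ε / 3) (by positivity)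
  refine ⟨n₀, fun m hm => ?_⟩
  have h1 := hn₀ n₀ le_rfl m hm
  rw [dist_eq_norm]
  have e : TF g (Λ m) t f - TF g (Λ n₀) t f = TF g (Λ m) t (f - f')
      + (TF g (Λ m) t f' - TF g (Λ n₀) t f') - TF g (Λ n₀) t (f - f') := by
    rw [map_sub, map_sub]
    abel
  rw [e]
  have h2 := TF_norm_le hg (Λ m) t ht (f - f')
  have h3 := TF_norm_le hg (Λ n₀) t ht (f - f')
  calc ‖TF g (Λ m) t (f - f') + (TF g (Λ m) t f' - TF g (Λ n₀) t f') - TF g (Λ n₀) t (f - f')‖
      ≤ ‖TF g (Λ m) t (f - f')‖ + ‖TF g (Λ m) t f' - TF g (Λ n₀) t f'‖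
          + ‖TF g (Λ n₀) t (f - f')‖ :=
        (norm_sub_le _ _).trans (add_le_add_left (norm_add_le _ _) _)
    _ < ε := by linarith

theorem exists_limit {g : V → Obs V} {K : ℝ} (hg : Sys g K) {N : V → Finset V} {w : V → ℝ} {κ : ℝ}
    {Λ : ℕ → Finset V} (hG : Geo g N w κ Λ) (t : ℝ) (ht : 0 ≤ t) :
    ∃ S : Obs V →L[ℝ] Obs V, ∀ f, Tendsto (fun n => TF g (Λ n) t f) atTop (𝓝 (S f)) := by
  have h : ∀ f, ∃ f', Tendsto (fun n => TF g (Λ n) t f) atTop (𝓝 f') := fun f =>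
    cauchySeq_tendsto_of_complete (cauchy_all hg hG f t ht)
  choose φ hφ using h
  have h2 : Tendsto (fun n f => TF g (Λ n) t f) atTop (𝓝 φ) := tendsto_pi_nhds.2 hφ
  exact ⟨continuousLinearMapOfTendsto (fun n => TF g (Λ n) t) h2, hφ⟩

theorem D_dependsOn (x : V) (f : Obs V) (G : Finset V)
    (hf : DependsOn (f : (V → Bool) → ℝ) (G : Set V)) :
    DependsOn (D x f : (V → Bool) → ℝ) (G : Set V) := by
  intro ξ η h
  rw [D_apply, D_apply]
  have h1 : ∀ b, f (Function.update ξ x b) = f (Function.update η x b) := by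
    intro b
    refine hf (fun y hy => ?_)
    by_cases hyx : y = x
    · subst hyx
      simp
    · rw [Function.update_of_ne hyx, Function.update_of_ne hyx]
      exact h y hy
  rw [h1, h1]

theorem LF_dependsOn {g : V → Obs V} (F G : Finset V)
    (hg : ∀ x ∈ F, DependsOn (g x : (V → Bool) → ℝ) (G : Set V)) (f : Obs V)
    (hf : DependsOn (f : (V → Bool) → ℝ) (G : Set V)) :
    DependsOn (LF g F f : (V → Bool) → ℝ) (G : Set V) := by
  intro ξ η h
  rw [LF_apply, LF_apply]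
  refine Finset.sum_congr rfl (fun x hx => ?_)
  rw [hg x hx h, D_dependsOn x f G hf h]

/-- `LF g H f = LF g F f` for `F ⊆ H` if `f` depends on `F` -/
theorem LF_eq_of_dependsOn {g : V → Obs V} (F H : Finset V) (hFH : F ⊆ H) (f : Obs V)
    (hf : DependsOn (f : (V → Bool) → ℝ) (F : Set V)) : LF g H f = LF g F f := by
  ext ξ
  rw [LF_apply, LF_apply]
  refine (Finset.sum_subset hFH (fun x _ hx => ?_)).symm
  rw [D_eq_zero_of_dependsOn f F hf x hx]
  simp

theorem exists_subset_exh {g : V → Obs V} {N : V → Finset V} {w : V → ℝ} {κ : ℝ}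
    {Λ : ℕ → Finset V} (hG : Geo g N w κ Λ) (F : Finset V) : ∃ n₀, ∀ n ≥ n₀, F ⊆ Λ n := by
  have hex : ∀ x, ∃ n, x ∈ Λ n := by
    intro x
    obtain ⟨n, hn⟩ := exists_nat_gt (w x)
    refine ⟨n, ?_⟩
    by_contra hx
    exact absurd (hG.out n x hx) (not_le.2 hn)
  induction F using Finset.induction_on with
  | empty => exact ⟨0, fun n _ => Finset.empty_subset _⟩
  | insert x F _ ih =>
    obtain ⟨n₁, hn₁⟩ := ih
    obtain ⟨n₂, hn₂⟩ := hex x
    refine ⟨max n₁ n₂, fun n hn => ?_⟩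
    rw [Finset.insert_subset_iff]
    exact ⟨hG.mono ((le_max_right _ _).trans hn) hn₂, hn₁ n ((le_max_left _ _).trans hn)⟩

theorem exists_isSG {g : V → Obs V} {K : ℝ} (hg : Sys g K) {N : V → Finset V} {w : V → ℝ} {κ : ℝ}
    {Λ : ℕ → Finset V} (hG : Geo g N w κ Λ) : ∃ S : ℝ≥0 → Obs V →L[ℝ] Obs V, IsSG g S := by
  have hlim : ∀ t : ℝ≥0, ∃ S : Obs V →L[ℝ] Obs V,
      ∀ f, Tendsto (fun n => TF g (Λ n) t f) atTop (𝓝 (S f)) := fun t =>
    exists_limit hg hG t t.2
  choose S hS using hlim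
  have hnorm : ∀ t f, ‖S t f‖ ≤ ‖f‖ := fun t f =>
    le_of_tendsto (hS t f).norm (Eventually.of_forall (fun n => TF_norm_le hg (Λ n) t t.2 f))
  have hcontr : ∀ n, ∀ s : ℝ, 0 ≤ s → ∀ f, ‖eT (LF g (Λ n)) s f‖ ≤ ‖f‖ := fun n s hs f =>
    TF_norm_le hg (Λ n) s hs f
  -- first order bound on cylinder functions
  have hfirst : ∀ (F : Finset V) (f : Obs V), DependsOn (f : (V → Bool) → ℝ) (F : Set V) →
      ∀ t : ℝ≥0, ‖S t f - f‖ ≤ t * ‖LF g F f‖ := by
    intro F f hf t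
    obtain ⟨n₀, hn₀⟩ := exists_subset_exh hG F
    refine le_of_tendsto ((hS t f).sub_const f).norm ?_
    filter_upwards [eventually_ge_atTop n₀] with n hn
    have h := eT_sub_le (LF g (Λ n)) (hcontr n) t t.2 f
    rw [LF_eq_of_dependsOn F (Λ n) (hn₀ n hn) f hf] at h
    exact h
  have hsecond : ∀ (F : Finset V) (f : Obs V), DependsOn (f : (V → Bool) → ℝ) (F : Set V) →
      ∃ C : ℝ, 0 ≤ C ∧ ∀ t : ℝ≥0, ‖S t f - f - (t : ℝ) • LF g F f‖ ≤ t * (t * C) := by
    intro F f hf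
    set G : Finset V := F ∪ F.biUnion N with hGdef
    have hdep : DependsOn (LF g F f : (V → Bool) → ℝ) (G : Set V) := by
      refine LF_dependsOn F G ?_ f ?_
      · intro x hx
        refine (hG.range x).mono ?_
        intro y hy
        have hy' : y ∈ N x := by simpa using hy
        have : y ∈ G := by
          rw [hGdef, Finset.mem_union, Finset.mem_biUnion]
          exact Or.inr ⟨x, hx, hy'⟩
        simpa using this
      · refine hf.mono ?_
        intro y hy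
        have hy' : y ∈ F := by simpa using hy
        have : y ∈ G := by
          rw [hGdef, Finset.mem_union]
          exact Or.inl hy'
        simpa using this
    refine ⟨‖LF g G (LF g F f)‖, norm_nonneg _, fun t => ?_⟩
    obtain ⟨n₀, hn₀⟩ := exists_subset_exh hG (F ∪ G)
    refine le_of_tendsto (((hS t f).sub_const f).sub_const _).norm ?_
    filter_upwards [eventually_ge_atTop n₀] with n hn
    have h := eT_sub_sub_le (LF g (Λ n)) (hcontr n) t t.2 f
    rw [LF_eq_of_dependsOn F (Λ n) (Finset.subset_union_left.trans (hn₀ n hn)) f hf,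
      LF_eq_of_dependsOn G (Λ n) (Finset.subset_union_right.trans (hn₀ n hn)) _ hdep] at h
    exact h
  refine ⟨S, ⟨?_, ?_, ?_, ?_, ?_, ?_⟩⟩
  · intro f
    refine tendsto_nhds_unique (hS 0 f) ?_
    have e : ∀ n, TF g (Λ n) ((0 : ℝ≥0) : ℝ) f = f := by
      intro n
      show eT (LF g (Λ n)) ((0 : ℝ≥0) : ℝ) f = f
      rw [NNReal.coe_zero, eT_zero]
      rfl
    simp only [e]
    exact tendsto_const_nhds
  · intro s t f
    refine tendsto_nhds_unique (hS (s + t) f) ?_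
    have e : ∀ n, TF g (Λ n) ((s + t : ℝ≥0) : ℝ) f = TF g (Λ n) s (TF g (Λ n) t f - S t f)
        + TF g (Λ n) s (S t f) := by
      intro n
      rw [← map_add, sub_add_cancel, NNReal.coe_add]
      exact eT_add_apply _ _ _ _
    simp only [e]
    have h1 : Tendsto (fun n => TF g (Λ n) s (TF g (Λ n) t f - S t f)) atTop (𝓝 0) := by
      refine squeeze_zero_norm (fun n => TF_norm_le hg (Λ n) s s.2 _) ?_
      exact tendsto_iff_norm_sub_tendsto_zero.1 (hS t f)
    have h2 := h1.add (hS s (S t f))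
    simpa using h2
  · intro t
    refine tendsto_nhds_unique (hS t 1) ?_
    simp only [TF_one]
    exact tendsto_const_nhds
  · intro t f hf ξ
    have h := (ContinuousMap.tendsto_iff_tendstoUniformly.1 (hS t f)).tendsto_at ξ
    exact ge_of_tendsto' h (fun n => TF_nonneg hg (Λ n) t t.2 f hf ξ)
  · intro f
    rw [Metric.tendsto_nhds]
    intro ε hε
    obtain ⟨F, f', hf', hff⟩ := exists_cyl_near f (ε / 3) (by positivity)
    have h1 : Tendsto (fun t : ℝ≥0 => (t : ℝ) * ‖LF g F f'‖) (𝓝 0) (𝓝 0) := by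
      have h : Continuous (fun t : ℝ≥0 => (t : ℝ) * ‖LF g F f'‖) := by fun_prop
      have h2 := h.tendsto 0
      simpa using h2
    filter_upwards [(Metric.tendsto_nhds.1 h1) (ε / 3) (by positivity)] with t ht
    rw [Real.dist_eq, sub_zero] at ht
    have h2 := lt_of_le_of_lt (le_abs_self _) ht
    have h3 := hfirst F f' hf' t
    have h4 := hnorm t (f - f')
    rw [dist_eq_norm]
    have e : S t f - f = S t (f - f') + (S t f' - f') - (f - f') := by
      rw [map_sub]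
      abel
    rw [e]
    calc ‖S t (f - f') + (S t f' - f') - (f - f')‖
        ≤ ‖S t (f - f')‖ + ‖S t f' - f'‖ + ‖f - f'‖ :=
          (norm_sub_le _ _).trans (add_le_add_left (norm_add_le _ _) _)
      _ < ε := by linarith
  · intro F f hf
    obtain ⟨C, hC, h⟩ := hsecond F f hf
    rw [tendsto_iff_norm_sub_tendsto_zero]
    have h1 : Tendsto (fun t : ℝ≥0 => (t : ℝ) * C) (𝓝[>] 0) (𝓝 0) := by
      have h : Continuous (fun t : ℝ≥0 => (t : ℝ) * C) := by fun_prop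
      have h2 := h.tendsto 0
      simp only [NNReal.coe_zero, zero_mul] at h2
      exact h2.mono_left nhdsWithin_le_nhds
    refine squeeze_zero' (Eventually.of_forall (fun t => norm_nonneg _)) ?_ h1
    filter_upwards [self_mem_nhdsWithin] with t ht
    have ht' : (0:ℝ) < t := NNReal.coe_pos.2 (Set.mem_Ioi.1 ht)
    have e : (t : ℝ)⁻¹ • (S t f - f) - LF g F f = (t : ℝ)⁻¹ • (S t f - f - (t : ℝ) • LF g F f) := by
      rw [smul_sub (t : ℝ)⁻¹ (S t f - f), smul_smul, inv_mul_cancel₀ ht'.ne', one_smul]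
    rw [e, norm_smul, norm_inv, Real.norm_of_nonneg ht'.le]
    calc (t : ℝ)⁻¹ * ‖S t f - f - (t : ℝ) • LF g F f‖ ≤ (t : ℝ)⁻¹ * (t * (t * C)) :=
          mul_le_mul_of_nonneg_left (h t) (by positivity)
      _ = t * C := by field_simp

end Lim

end MP1060
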