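import Pool.Agent.Work.MP_1060d1_pr.SUB.Base

/-!
Finite-volume semigroups: positivity, unit, contraction, locality; density of cylinder functions.
-/

open Filter Topology
open scoped NNReal

namespace MP1060

variable {V : Type*} [DecidableEq V]

theorem norm_le_of_pos_one (T : Obs V →L[ℝ] Obs V) (h1 : T 1 = 1)
    (hp : ∀ f : Obs V, (∀ ξ, 0 ≤ f ξ) → ∀ ξ, 0 ≤ T f ξ) (f : Obs V) : ‖T f‖ ≤ ‖f‖ := by
  refine (ContinuousMap.norm_le _ (norm_nonneg f)).2 (fun ξ => ?_)
  have hb : ∀ η, -‖f‖ ≤ f η ∧ f η ≤ ‖f‖ := fun η =>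
    abs_le.1 (ContinuousMap.norm_coe_le_norm f η)
  have e1 := hp (‖f‖ • 1 - f) (fun η => by
    have := (hb η).2
    simp only [ContinuousMap.sub_apply, ContinuousMap.smul_apply, ContinuousMap.one_apply,
      smul_eq_mul, mul_one]
    linarith) ξ
  have e2 := hp (‖f‖ • 1 + f) (fun η => by
    have := (hb η).1
    simp only [ContinuousMap.add_apply, ContinuousMap.smul_apply, ContinuousMap.one_apply,
      smul_eq_mul, mul_one]
    linarith) ξ
  rw [map_sub, map_smul, h1] at e1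
  rw [map_add, map_smul, h1] at e2
  simp only [ContinuousMap.sub_apply, ContinuousMap.add_apply, ContinuousMap.smul_apply,
    ContinuousMap.one_apply, smul_eq_mul, mul_one] at e1 e2
  rw [Real.norm_eq_abs, abs_le]
  constructor <;> linarith

theorem TF_one (g : V → Obs V) (F : Finset V) (t : ℝ) : TF g F t 1 = 1 := by
  have hL : LF g F 1 = 0 := by
    ext ξ
    rw [LF_apply]
    simp [D_apply]
  have hd : ∀ s : ℝ, HasDerivAt (fun s : ℝ => eT (LF g F) s (1 : Obs V)) 0 s := by
    intro s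
    have h := eT_hasDerivAt (LF g F) 1 s
    rw [eT_comm, hL, map_zero] at h
    exact h
  have hc := is_const_of_deriv_eq_zero (f := fun s : ℝ => eT (LF g F) s (1 : Obs V))
    (fun s => (hd s).differentiableAt) (fun s => (hd s).deriv) t 0
  show eT (LF g F) t 1 = 1
  have hc' : eT (LF g F) t (1 : Obs V) = eT (LF g F) 0 (1 : Obs V) := hc
  rw [hc', eT_zero]
  rfl

theorem gen_term_ge {g : V → Obs V} {K : ℝ} (hg : Sys g K) (f : Obs V) (hf : ∀ ξ, 0 ≤ f ξ)
    (x : V) (ξ : V → Bool) : -(K * f ξ) ≤ g x ξ * D x f ξ := by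
  have hK := abs_le.1 (hg.bd x ξ)
  rw [D_apply]
  by_cases h : ξ x = true
  · have e : Function.update ξ x true = ξ := by
      rw [← h]
      exact Function.update_eq_self x ξ
    rw [e]
    have h1 := hg.on x ξ h
    have h2 := hf (Function.update ξ x false)
    nlinarith [mul_nonneg (neg_nonneg.2 h1) h2, mul_nonneg (by linarith : 0 ≤ K + g x ξ) (hf ξ)]
  · have h' : ξ x = false := by simpa using h
    have e : Function.update ξ x false = ξ := by
      rw [← h']
      exact Function.update_eq_self x ξ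
    rw [e]
    have h1 := hg.off x ξ h'
    have h2 := hf (Function.update ξ x true)
    nlinarith [mul_nonneg h1 h2, mul_nonneg (by linarith : 0 ≤ K - g x ξ) (hf ξ)]

theorem isClosed_nonneg : IsClosed {f : Obs V | ∀ ξ, 0 ≤ f ξ} := by
  have e : {f : Obs V | ∀ ξ, 0 ≤ f ξ} = ⋂ ξ : V → Bool, {f : Obs V | 0 ≤ f ξ} := by
    ext f
    simp
  rw [e]
  exact isClosed_iInter (fun ξ => isClosed_le continuous_const (continuous_eval_const ξ))

theorem TF_nonneg {g : V → Obs V} {K : ℝ} (hg : Sys g K) (F : Finset V) (t : ℝ) (ht : 0 ≤ t)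
    (f : Obs V) (hf : ∀ ξ, 0 ≤ f ξ) (ξ : V → Bool) : 0 ≤ TF g F t f ξ := by
  have hK := hg.K_pos
  have hpos : 0 < ((F.card : ℝ) + 1) * K := by positivity
  refine eT_mem_cone (LF g F) {f : Obs V | ∀ ξ, 0 ≤ f ξ} isClosed_nonneg (fun _ => le_rfl)
    (fun f hf g hg ξ => add_nonneg (hf ξ) (hg ξ))
    (fun a ha f hf ξ => mul_nonneg ha (hf ξ)) (1 / (((F.card : ℝ) + 1) * K)) (by positivity)
    ?_ t ht f hf ξ
  intro f hf ξ
  have h1 : -((F.card : ℝ) * (K * f ξ)) ≤ LF g F f ξ := by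
    rw [LF_apply]
    calc -((F.card : ℝ) * (K * f ξ)) = ∑ _x ∈ F, -(K * f ξ) := by
          rw [Finset.sum_const, nsmul_eq_mul]
          ring
      _ ≤ ∑ x ∈ F, g x ξ * D x f ξ := Finset.sum_le_sum (fun x _ => gen_term_ge hg f hf x ξ)
  show 0 ≤ f ξ + (1 / (((F.card : ℝ) + 1) * K)) * LF g F f ξ
  have h2 : -(f ξ) ≤ (1 / (((F.card : ℝ) + 1) * K)) * LF g F f ξ := by
    rw [div_mul_eq_mul_div, one_mul, le_div_iff₀ hpos]
    nlinarith [hf ξ, mul_nonneg hK.le (hf ξ)]
  linarith

theorem TF_norm_le {g : V → Obs V} {K : ℝ} (hg : Sys g K) (F : Finset V) (t : ℝ) (ht : 0 ≤ t)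
    (f : Obs V) : ‖TF g F t f‖ ≤ ‖f‖ :=
  norm_le_of_pos_one _ (TF_one g F t) (fun f hf ξ => TF_nonneg hg F t ht f hf ξ) f

/-- invariant closed subspaces -/
theorem eT_mem_submodule {E : Type*} [NormedAddCommGroup E] [NormedSpace ℝ E] [CompleteSpace E]
    (A : E →L[ℝ] E) (K : Submodule ℝ E) (hK : IsClosed (K : Set E)) (hA : ∀ f ∈ K, A f ∈ K)
    (t : ℝ) (f : E) (hf : f ∈ K) : eT A t f ∈ K := by
  have hs := exp_hasSum (t • A) f
  refine hK.mem_of_tendsto hs.tendsto_sum_nat (Eventually.of_forall (fun n => ?_))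
  refine Submodule.sum_mem K (fun k _ => ?_)
  refine K.smul_mem _ ?_
  exact pow_mem_of (t • A) (K : Set E) (fun g hg => K.smul_mem t (hA g hg)) k f hf

/-- observables depending on `G` -/
def depSub (G : Set V) : Submodule ℝ (Obs V) where
  carrier := {f | DependsOn (f : (V → Bool) → ℝ) G}
  add_mem' := by
    intro f g hf hg ξ η h
    show f ξ + g ξ = f η + g η
    rw [hf h, hg h]
  zero_mem' := fun _ _ _ => rfl
  smul_mem' := by
    intro a f hf ξ η h
    show a * f ξ = a * f η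
    rw [hf h]

theorem depSub_closed (G : Set V) : IsClosed (depSub G : Set (Obs V)) := by
  have e : (depSub G : Set (Obs V)) = ⋂ ξ : V → Bool, ⋂ η : V → Bool,
      ⋂ _ : ∀ i ∈ G, ξ i = η i, {f : Obs V | f ξ = f η} := by
    ext f
    simp only [Set.mem_iInter, Set.mem_ofPred_eq]
    constructor
    · intro hf ξ η h
      exact hf h
    · intro hf ξ η h
      exact hf ξ η h
  rw [e]
  refine isClosed_iInter (fun ξ => isClosed_iInter (fun η => isClosed_iInter (fun _ => ?_)))
  exact isClosed_eq (continuous_eval_const ξ) (continuous_eval_const η)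

theorem TF_dependsOn {g : V → Obs V} (F G : Finset V) (hFG : F ⊆ G)
    (hg : ∀ x ∈ F, DependsOn (g x : (V → Bool) → ℝ) (G : Set V)) (f : Obs V)
    (hf : DependsOn (f : (V → Bool) → ℝ) (G : Set V)) (t : ℝ) :
    DependsOn (TF g F t f : (V → Bool) → ℝ) (G : Set V) := by
  have hA : ∀ f ∈ depSub (G : Set V), LF g F f ∈ depSub (G : Set V) := by
    intro f hf ξ η h
    rw [LF_apply, LF_apply]
    refine Finset.sum_congr rfl (fun x hx => ?_)
    rw [hg x hx h, D_apply, D_apply]
    have h1 : ∀ b, f (Function.update ξ x b) = f (Function.update η x b) := by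
      intro b
      refine hf (fun y hy => ?_)
      by_cases hyx : y = x
      · subst hyx
        simp
      · rw [Function.update_of_ne hyx, Function.update_of_ne hyx]
        exact h y hy
    rw [h1, h1]
  exact eT_mem_submodule (LF g F) (depSub (G : Set V)) (depSub_closed _) hA t f hf

/-- the algebra of cylinder functions -/
def cylAlg (V : Type*) [DecidableEq V] : Subalgebra ℝ (Obs V) where
  carrier := {f | ∃ F : Finset V, DependsOn (f : (V → Bool) → ℝ) (F : Set V)}
  mul_mem' := by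
    rintro f g ⟨F, hF⟩ ⟨G, hG⟩
    refine ⟨F ∪ G, ?_⟩
    intro ξ η h
    show f ξ * g ξ = f η * g η
    rw [hF (fun i hi => h i (by simp at hi ⊢; exact Or.inl hi)),
      hG (fun i hi => h i (by simp at hi ⊢; exact Or.inr hi))]
  add_mem' := by
    rintro f g ⟨F, hF⟩ ⟨G, hG⟩
    refine ⟨F ∪ G, ?_⟩
    intro ξ η h
    show f ξ + g ξ = f η + g η
    rw [hF (fun i hi => h i (by simp at hi ⊢; exact Or.inl hi)),
      hG (fun i hi => h i (by simp at hi ⊢; exact Or.inr hi))]
  algebraMap_mem' := by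
    intro r
    exact ⟨∅, fun _ _ _ => rfl⟩

theorem cylAlg_separates : (cylAlg V).SeparatesPoints := by
  intro ξ η hne
  obtain ⟨x, hx⟩ := Function.ne_iff.1 hne
  refine ⟨occ x, ⟨occ x, ⟨{x}, ?_⟩, rfl⟩, ?_⟩
  · intro ξ η h
    rw [occ_apply, occ_apply, h x (by simp)]
  · rw [occ_apply, occ_apply]
    cases h1 : ξ x <;> cases h2 : η x <;> simp_all

/-- cylinder functions are dense -/
theorem exists_cyl_near (f : Obs V) (ε : ℝ) (hε : 0 < ε) :
    ∃ (F : Finset V) (f' : Obs V), DependsOn (f' : (V → Bool) → ℝ) (F : Set V) ∧ ‖f - f'‖ < ε := by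
  obtain ⟨⟨f', F, hF⟩, hf'⟩ :=
    ContinuousMap.exists_mem_subalgebra_near_continuousMap_of_separatesPoints (cylAlg V)
      cylAlg_separates f ε hε
  refine ⟨F, f', hF, ?_⟩
  rw [norm_sub_rev]
  exact hf'

end MP1060
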