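import Pool.Agent.Work.MP_1060d1_pr.SUB.Lim
import Pool.Agent.Work.MP_1060d1_pr.SUB.Lat

/-!
Relabelling of the sites and translation covariance of the semigroup.
-/

open Filter Topology
open scoped NNReal

namespace MP1060

section relabel

variable {V : Type*} [DecidableEq V]

/-- relabelling `(R e f)(ξ) = f (ξ ∘ e)` -/
noncomputable def Rl (e : V ≃ V) : Obs V →L[ℝ] Obs V :=
  LinearMap.mkContinuous
    { toFun := fun f => f.comp ⟨fun ξ y => ξ (e y), by fun_prop⟩
      map_add' := fun _ _ => rfl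
      map_smul' := fun _ _ => rfl } 1 (by
    intro f
    rw [one_mul]
    refine (ContinuousMap.norm_le _ (norm_nonneg f)).2 ?_
    intro ξ
    exact ContinuousMap.norm_coe_le_norm f _)

omit [DecidableEq V] in
theorem Rl_apply (e : V ≃ V) (f : Obs V) (ξ : V → Bool) : Rl e f ξ = f (fun y => ξ (e y)) := rfl

omit [DecidableEq V] in
theorem Rl_symm (e : V ≃ V) (f : Obs V) : Rl e (Rl e.symm f) = f := by
  ext ξ
  rw [Rl_apply, Rl_apply]
  simp

omit [DecidableEq V] in
theorem Rl_symm' (e : V ≃ V) (f : Obs V) : Rl e.symm (Rl e f) = f := by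
  ext ξ
  rw [Rl_apply, Rl_apply]
  simp

theorem update_relabel (e : V ≃ V) (ξ : V → Bool) (x : V) (b : Bool) :
    Function.update (fun y => ξ (e y)) x b = fun y => Function.update ξ (e x) b (e y) := by
  funext y
  by_cases h : y = x
  · subst h
    simp
  · rw [Function.update_of_ne h, Function.update_of_ne (fun h' => h (e.injective h'))]

theorem Rl_D (e : V ≃ V) (x : V) (f : Obs V) : Rl e (D x f) = D (e x) (Rl e f) := by
  ext ξ
  rw [Rl_apply, D_apply, D_apply, Rl_apply, Rl_apply, update_relabel, update_relabel]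

theorem Rl_LF {g : V → Obs V} (e : V ≃ V) (he : ∀ x, Rl e (g x) = g (e x)) (F : Finset V)
    (f : Obs V) : Rl e (LF g F f) = LF g (F.map e.toEmbedding) (Rl e f) := by
  ext ξ
  rw [Rl_apply, LF_apply, LF_apply, Finset.sum_map]
  refine Finset.sum_congr rfl fun x _ => ?_
  have h1 := congrArg (fun u : Obs V => u ξ) (he x)
  have h2 := congrArg (fun u : Obs V => u ξ) (Rl_D e x f)
  change Rl e (g x) ξ = g (e x) ξ at h1
  change Rl e (D x f) ξ = D (e x) (Rl e f) ξ at h2
  rw [Rl_apply] at h1 h2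
  rw [h1, h2]
  rfl

theorem isSG_relabel {g : V → Obs V} {S : ℝ≥0 → Obs V →L[ℝ] Obs V} (hS : IsSG g S) (e : V ≃ V)
    (he : ∀ x, Rl e (g x) = g (e x)) : IsSG g (fun t => ((Rl e).comp (S t)).comp (Rl e.symm)) := by
  refine ⟨fun f => ?_, fun s t f => ?_, fun t => ?_, fun t f hf ξ => ?_, fun f => ?_,
    fun F f hf => ?_⟩
  · change Rl e (S 0 (Rl e.symm f)) = f
    rw [hS.zero, Rl_symm]
  · change Rl e (S (s + t) (Rl e.symm f)) = Rl e (S s (Rl e.symm (Rl e (S t (Rl e.symm f)))))
    rw [hS.add, Rl_symm']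
  · change Rl e (S t (Rl e.symm 1)) = 1
    have h1 : (Rl e.symm (1 : Obs V)) = 1 := rfl
    have h2 : (Rl e (1 : Obs V)) = 1 := rfl
    rw [h1, hS.one, h2]
  · change 0 ≤ Rl e (S t (Rl e.symm f)) ξ
    rw [Rl_apply]
    exact hS.nonneg t _ (fun η => by rw [Rl_apply]; exact hf _) _
  · have h1 := ((Rl e).continuous.tendsto (Rl e.symm f)).comp (hS.cont (Rl e.symm f))
    rw [Rl_symm] at h1
    exact h1
  · have hd : DependsOn (Rl e.symm f : (V → Bool) → ℝ)
        ((F.map e.symm.toEmbedding : Finset V) : Set V) := by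
      intro ξ η h
      rw [Rl_apply, Rl_apply]
      refine hf fun x hx => h _ ?_
      rw [Finset.mem_coe, Finset.mem_map]
      exact ⟨x, hx, rfl⟩
    have h1 := ((Rl e).continuous.tendsto _).comp (hS.gen _ (Rl e.symm f) hd)
    rw [Rl_LF e he, Rl_symm, Finset.map_map] at h1
    have h2 : F.map (e.symm.toEmbedding.trans e.toEmbedding) = F := by
      have h3 : e.symm.toEmbedding.trans e.toEmbedding = Function.Embedding.refl V := by
        ext y
        simp
      rw [h3, Finset.map_refl]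
    rw [h2] at h1
    refine h1.congr fun t => ?_
    change Rl e ((t : ℝ)⁻¹ • (S t (Rl e.symm f) - Rl e.symm f)) =
      (t : ℝ)⁻¹ • (Rl e (S t (Rl e.symm f)) - f)
    rw [map_smul, map_sub, Rl_symm]

end relabel

variable {d R : ℕ}

theorem Rl_gD (c : Rates d R) (a x : Site d) :
    Rl (Equiv.addRight a) (gD c x) = gD c (x + a) := by
  ext ξ
  rw [Rl_apply, gD_apply, gD_apply]
  congr 1
  funext y
  change ξ (x + (y : Site d) + a) = ξ (x + a + (y : Site d))
  rw [add_right_comm]

theorem Rl_occ (a x : Site d) : Rl (Equiv.addRight a) (occ x) = occ (x + a) := by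
  ext ξ
  rw [Rl_apply, occ_apply, occ_apply]
  rfl

theorem SG_trans (c : Rates d R) {S : ℝ≥0 → Obs (Site d) →L[ℝ] Obs (Site d)}
    (hS : IsSG (gD c) S) (a : Site d) (t : ℝ≥0) (f : Obs (Site d)) :
    S t (Rl (Equiv.addRight a) f) = Rl (Equiv.addRight a) (S t f) := by
  have h1 := isSG_relabel hS (Equiv.addRight a) (fun x => by rw [Rl_gD]; rfl)
  have h2 := isSG_unique (sys_gD c) (geo_gD c) hS h1
  have h3 := congrArg (fun T : ℝ≥0 → Obs (Site d) →L[ℝ] Obs (Site d) =>
    T t (Rl (Equiv.addRight a) f)) h2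
  change S t (Rl (Equiv.addRight a) f) = Rl (Equiv.addRight a)
    (S t (Rl (Equiv.addRight a).symm (Rl (Equiv.addRight a) f))) at h3
  rw [Rl_symm'] at h3
  exact h3

theorem trans_const (c : Rates d R) {S : ℝ≥0 → Obs (Site d) →L[ℝ] Obs (Site d)}
    (hS : IsSG (gD c) S) (a x : Site d) (b : Bool) (t : ℝ≥0) :
    S t (occ (x + a)) (fun _ => b) = S t (occ x) (fun _ => b) ∧
      S t (gD c (x + a)) (fun _ => b) = S t (gD c x) (fun _ => b) := by
  constructor
  · rw [← Rl_occ, SG_trans c hS, Rl_apply]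
  · rw [← Rl_gD, SG_trans c hS, Rl_apply]

end MP1060
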