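import Pool.Agent.Work.MP_1060d1_pr.SUB.Decay
import Pool.Agent.Work.MP_1060d1_pr.SUB.Trans

/-!
Decay of the gap when the total drift is nonincreasing.
-/

open Filter Topology
open scoped NNReal

namespace MP1060

section General

variable {V : Type*} [DecidableEq V]

/-- strong continuity on `[0, ∞)` -/
theorem IsSG.continuousOn {g : V → Obs V} {S : ℝ≥0 → Obs V →L[ℝ] Obs V} (hS : IsSG g S)
    (f : Obs V) : ContinuousOn (fun s : ℝ => S s.toNNReal f) (Set.Ici 0) := by
  have hle : ∀ s s' : ℝ≥0, s ≤ s' → ‖S s' f - S s f‖ ≤ ‖S (s' - s) f - f‖ := by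
    intro s s' hss
    have e : S s' f = S s (S (s' - s) f) := by
      rw [← hS.add, add_tsub_cancel_of_le hss]
    rw [e, ← map_sub]
    exact hS.norm_le _ _
  rw [Metric.continuousOn_iff]
  intro s hs ε hε
  obtain ⟨δ, hδ, h⟩ := (Metric.tendsto_nhds_nhds.1 (hS.cont f)) ε hε
  refine ⟨δ, hδ, fun s' hs' hd => ?_⟩
  have hs0 : (0:ℝ) ≤ s := hs
  have hs0' : (0:ℝ) ≤ s' := hs'
  rcases le_total s s' with hss | hss
  · have h1 := @h (s'.toNNReal - s.toNNReal) (by
      rw [NNReal.dist_eq, NNReal.coe_sub (Real.toNNReal_le_toNNReal hss),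
        Real.coe_toNNReal _ hs0, Real.coe_toNNReal _ hs0', NNReal.coe_zero, sub_zero]
      rwa [Real.dist_eq] at hd)
    rw [dist_eq_norm] at h1 ⊢
    exact (hle _ _ (Real.toNNReal_le_toNNReal hss)).trans_lt h1
  · have h1 := @h (s.toNNReal - s'.toNNReal) (by
      rw [NNReal.dist_eq, NNReal.coe_sub (Real.toNNReal_le_toNNReal hss),
        Real.coe_toNNReal _ hs0, Real.coe_toNNReal _ hs0', NNReal.coe_zero, sub_zero]
      rwa [Real.dist_eq, abs_sub_comm] at hd)
    rw [dist_eq_norm] at h1
    rw [dist_comm, dist_eq_norm]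
    exact (hle _ _ (Real.toNNReal_le_toNNReal hss)).trans_lt h1

/-- forward equation for cylinder functions (right derivative) -/
theorem IsSG.hasDerivWithinAt {g : V → Obs V} {S : ℝ≥0 → Obs V →L[ℝ] Obs V} (hS : IsSG g S)
    (F : Finset V) (f : Obs V) (hf : DependsOn (f : (V → Bool) → ℝ) (F : Set V)) (s : ℝ)
    (hs : 0 ≤ s) (ξ : V → Bool) :
    HasDerivWithinAt (fun s : ℝ => S s.toNNReal f ξ) (S s.toNNReal (LF g F f) ξ) (Set.Ici s) s := by
  rw [← hasDerivWithinAt_Ioi_iff_Ici, hasDerivWithinAt_iff_tendsto_slope' (by simp)]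
  have hsh : Tendsto (fun s' : ℝ => (s' - s)) (𝓝[>] s) (𝓝[>] 0) := by
    refine tendsto_nhdsWithin_iff.2 ⟨?_, ?_⟩
    · have : Tendsto (fun s' : ℝ => s' - s) (𝓝 s) (𝓝 (s - s)) :=
        (continuous_id.sub continuous_const).tendsto s
      rw [sub_self] at this
      exact this.mono_left nhdsWithin_le_nhds
    · filter_upwards [self_mem_nhdsWithin] with s' hs'
      exact Set.mem_Ioi.2 (sub_pos.2 (Set.mem_Ioi.1 hs'))
  have h1 := (hS.gen F f hf).comp (toNNReal_tendsto.comp hsh)
  have h2 := ((S s.toNNReal).continuous.tendsto _).comp h1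
  have h3 : Tendsto (fun u : Obs V => u ξ) (𝓝 (S s.toNNReal (LF g F f)))
      (𝓝 (S s.toNNReal (LF g F f) ξ)) := (continuous_eval_const ξ).tendsto _
  refine (h3.comp h2).congr' ?_
  filter_upwards [self_mem_nhdsWithin] with s' hs'
  have hs1 : 0 ≤ s' - s := (sub_pos.2 (Set.mem_Ioi.1 hs')).le
  have e1 : S s'.toNNReal f = S s.toNNReal (S (s' - s).toNNReal f) := by
    rw [← hS.add, ← Real.toNNReal_add hs hs1, add_sub_cancel]
  rw [slope_def_module, e1]
  simp only [Function.comp_apply, Real.coe_toNNReal _ hs1, map_smul, map_sub]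
  rfl

theorem D_occ (x y : V) (ξ : V → Bool) : D y (occ x) ξ = if x = y then 1 else 0 := by
  rw [D_apply, occ_apply, occ_apply]
  by_cases h : x = y
  · subst h
    simp
  · rw [Function.update_of_ne h, Function.update_of_ne h, if_neg h, sub_self]

end General

variable {d R : ℕ}

theorem gD_shift (c : Rates d R) (x y : Site d) (ξ : Cfg d) :
    gD c (x + y) ξ = gD c x (fun z => ξ (z + y)) := by
  rw [gD_apply, gD_apply]
  congr 1
  funext u
  show ξ (x + y + u) = ξ (x + u + y)
  congr 1
  abel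

theorem D_gD_shift (c : Rates d R) (x y : Site d) (ξ : Cfg d) :
    D y (gD c (x + y)) ξ = D 0 (gD c x) (fun z => ξ (z + y)) := by
  rw [D_apply, D_apply, gD_shift, gD_shift]
  have e : ∀ b, (fun z => Function.update ξ y b (z + y))
      = Function.update (fun z => ξ (z + y)) 0 b := by
    intro b
    funext z
    by_cases hz : z = 0
    · subst hz
      simp
    · rw [Function.update_of_ne hz, Function.update_of_ne]
      intro h
      exact hz (by simpa using h)
  rw [e, e]

theorem mem_box_neg {x : Site d} (h : x ∈ boxF d R) : -x ∈ boxF d R := by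
  rw [Finset.mem_Icc] at h ⊢
  constructor
  · intro i
    have := h.2 i
    simp only [Pi.neg_apply] at this ⊢
    linarith
  · intro i
    have := h.1 i
    simp only [Pi.neg_apply] at this ⊢
    linarith

theorem D_gD_zero (c : Rates d R) (x y : Site d) (h : x - y ∉ boxF d R) : D y (gD c x) = 0 := by
  refine D_eq_zero_of_dependsOn (gD c x) (nb R x) ((geo_gD c).range x) y ?_
  intro hy
  rw [nb, Finset.mem_image] at hy
  obtain ⟨u, hu, rfl⟩ := hy
  apply h
  have := mem_box_neg hu
  rwa [show x - (x + u) = -u by abel]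

theorem abs_D_gD (c : Rates d R) (x y : Site d) (ξ : Cfg d) : D y (gD c x) ξ ≤ 2 * c.K := by
  have h1 := abs_le.1 ((sys_gD c).bd x (Function.update ξ y true))
  have h2 := abs_le.1 ((sys_gD c).bd x (Function.update ξ y false))
  rw [D_apply]
  linarith [h1.1, h1.2, h2.1, h2.2]

/-- the box translated to `y` -/
noncomputable def nb' (R : ℕ) (y : Site d) : Finset (Site d) := (boxF d R).image (fun u => u + y)

theorem mem_nb' {y x : Site d} : x ∈ nb' R y ↔ x - y ∈ boxF d R := by
  rw [nb', Finset.mem_image]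
  constructor
  · rintro ⟨u, hu, rfl⟩
    simpa using hu
  · intro h
    exact ⟨x - y, h, by abel⟩

theorem sum_nb' (c : Rates d R) (e : ℝ) (hT : c.TotalDrift e) (y : Site d) (ξ : Cfg d) :
    ∑ x ∈ nb' R y, D y (gD c x) ξ ≤ -e := by
  have h := hT (fun z => ξ (z + y))
  rw [nb', Finset.sum_image (fun a _ b _ hab => by simpa using hab)]
  refine le_trans (le_of_eq ?_) h
  refine Finset.sum_congr rfl (fun u _ => ?_)
  rw [D_gD_shift]
  rfl

theorem sum_inside (c : Rates d R) (hm : c.Monotone) (e : ℝ) (hT : c.TotalDrift e)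
    (Λ : Finset (Site d)) (y : Site d) (hy : y ∈ Λ) (ξ : Cfg d) :
    ∑ x ∈ Λ, D y (gD c x) ξ ≤ -e := by
  refine le_trans ?_ (sum_nb' c e hT y ξ)
  have h1 : ∑ x ∈ Λ, D y (gD c x) ξ = ∑ x ∈ Λ ∩ nb' R y, D y (gD c x) ξ := by
    refine (Finset.sum_subset Finset.inter_subset_left (fun x hx hx2 => ?_)).symm
    have : x ∉ nb' R y := fun h => hx2 (Finset.mem_inter.2 ⟨hx, h⟩)
    rw [mem_nb'] at this
    rw [D_gD_zero c x y this]
    rfl
  rw [h1]
  refine Finset.sum_le_sum_of_subset_of_nonneg Finset.inter_subset_right (fun x hx hx2 => ?_)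
  refine mono_gD c hm x y ξ ?_
  rintro rfl
  exact hx2 (Finset.mem_inter.2 ⟨hy, hx⟩)

theorem sum_outside (c : Rates d R) (Λ : Finset (Site d)) (y : Site d) (ξ : Cfg d) :
    ∑ x ∈ Λ, D y (gD c x) ξ ≤ (boxF d R).card * (2 * c.K) := by
  have hK := c.K_pos
  have h1 : ∑ x ∈ Λ, D y (gD c x) ξ = ∑ x ∈ Λ ∩ nb' R y, D y (gD c x) ξ := by
    refine (Finset.sum_subset Finset.inter_subset_left (fun x hx hx2 => ?_)).symm
    have : x ∉ nb' R y := fun h => hx2 (Finset.mem_inter.2 ⟨hx, h⟩)
    rw [mem_nb'] at this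
    rw [D_gD_zero c x y this]
    rfl
  rw [h1]
  calc ∑ x ∈ Λ ∩ nb' R y, D y (gD c x) ξ ≤ ∑ _x ∈ Λ ∩ nb' R y, 2 * c.K :=
        Finset.sum_le_sum (fun x _ => abs_D_gD c x y ξ)
    _ = (Λ ∩ nb' R y).card * (2 * c.K) := by rw [Finset.sum_const, nsmul_eq_mul]
    _ ≤ (boxF d R).card * (2 * c.K) := by
        refine mul_le_mul_of_nonneg_right ?_ (by positivity)
        have : (Λ ∩ nb' R y).card ≤ (boxF d R).card :=
          (Finset.card_le_card Finset.inter_subset_right).trans Finset.card_image_le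
        exact_mod_cast this

theorem sum_far (c : Rates d R) (n : ℕ) (y : Site d) (hy : y ∉ boxF d (n + R)) (ξ : Cfg d) :
    ∑ x ∈ boxF d n, D y (gD c x) ξ = 0 := by
  refine Finset.sum_eq_zero (fun x hx => ?_)
  rw [D_gD_zero c x y ?_]
  · rfl
  · intro h
    apply hy
    rw [Finset.mem_Icc] at h hx ⊢
    constructor
    · intro i
      have h1 := h.2 i
      have h2 := hx.1 i
      simp only [Pi.sub_apply] at h1 h2 ⊢
      push_cast
      linarith
    · intro i
      have h1 := h.1 i
      have h2 := hx.2 i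
      simp only [Pi.sub_apply] at h1 h2 ⊢
      push_cast
      linarith

/-- the comparison observable -/
noncomputable def Psi (c : Rates d R) (e : ℝ) (n : ℕ) : Obs (Site d) :=
  -(∑ x ∈ boxF d n, gD c x) - e • (∑ x ∈ boxF d n, occ x)
    + ((boxF d R).card * (2 * c.K)) • (∑ x ∈ boxF d (n + R) \ boxF d n, occ x)

theorem Psi_incO (c : Rates d R) (hm : c.Monotone) (e : ℝ) (hT : c.TotalDrift e) (n : ℕ) :
    IncO (Psi c e n) := by
  have hK := c.K_pos
  intro y ξ
  have e0 : D y (Psi c e n) ξ = -(∑ x ∈ boxF d n, D y (gD c x) ξ)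
      - e * (∑ x ∈ boxF d n, D y (occ x) ξ)
      + ((boxF d R).card * (2 * c.K)) * (∑ x ∈ boxF d (n + R) \ boxF d n, D y (occ x) ξ) := by
    unfold Psi
    rw [map_add, map_sub, map_neg, map_smul, map_smul, map_sum, map_sum, map_sum]
    simp only [ContinuousMap.add_apply, ContinuousMap.sub_apply, ContinuousMap.neg_apply,
      ContinuousMap.smul_apply, ContinuousMap.coe_sum, Finset.sum_apply, smul_eq_mul]
  rw [e0]
  simp only [D_occ]
  rw [Finset.sum_ite_eq', Finset.sum_ite_eq']
  by_cases h1 : y ∈ boxF d n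
  · have h2 : y ∉ boxF d (n + R) \ boxF d n := fun h => (Finset.mem_sdiff.1 h).2 h1
    rw [if_pos h1, if_neg h2]
    have := sum_inside c hm e hT (boxF d n) y h1 ξ
    linarith
  · rw [if_neg h1]
    by_cases h3 : y ∈ boxF d (n + R)
    · have h2 : y ∈ boxF d (n + R) \ boxF d n := Finset.mem_sdiff.2 ⟨h3, h1⟩
      rw [if_pos h2]
      have := sum_outside c (boxF d n) y ξ
      linarith
    · have h2 : y ∉ boxF d (n + R) \ boxF d n := fun h => h3 (Finset.mem_sdiff.1 h).1
      rw [if_neg h2, sum_far c n y h3 ξ]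
      simp

theorem card_box (d n : ℕ) : (boxF d n).card = (2 * n + 1) ^ d := by
  rw [Pi.card_Icc]
  simp only [Int.card_Icc, Finset.prod_const, Finset.card_univ, Fintype.card_fin]
  congr 1
  omega

theorem ratio_tendsto (d R : ℕ) :
    Tendsto (fun n : ℕ => (((boxF d (n + R) \ boxF d n).card : ℝ) / ((boxF d n).card : ℝ)))
      atTop (𝓝 0) := by
  have h1 : ∀ n : ℕ, (((boxF d (n + R) \ boxF d n).card : ℝ) / ((boxF d n).card : ℝ))
      = (1 + (2 * R) / (2 * (n : ℝ) + 1)) ^ d - 1 := by
    intro n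
    have hsub : boxF d n ⊆ boxF d (n + R) := by
      refine Finset.Icc_subset_Icc ?_ ?_
      · intro i
        simp
      · intro i
        simp
    have hc := Finset.card_sdiff_add_card_eq_card hsub
    rw [card_box, card_box] at hc
    have hc' : ((boxF d (n + R) \ boxF d n).card : ℝ)
        = (2 * ((n : ℝ) + R) + 1) ^ d - (2 * (n : ℝ) + 1) ^ d := by
      have : ((boxF d (n + R) \ boxF d n).card : ℝ) + (2 * (n : ℝ) + 1) ^ d
          = (2 * ((n : ℝ) + R) + 1) ^ d := by
        exact_mod_cast hc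
      linarith
    have hpos : (0 : ℝ) < 2 * (n : ℝ) + 1 := by positivity
    rw [hc', card_box]
    push_cast
    rw [sub_div, div_self (by positivity), ← div_pow]
    congr 2
    field_simp
    ring
  simp only [h1]
  have h2 : Tendsto (fun n : ℕ => (2 * (R : ℝ)) / (2 * (n : ℝ) + 1)) atTop (𝓝 0) := by
    refine Tendsto.div_atTop tendsto_const_nhds ?_
    refine tendsto_atTop_add_const_right _ _ ?_
    exact Tendsto.const_mul_atTop (by norm_num) tendsto_natCast_atTop_atTop
  have h3 := ((h2.const_add 1).pow d).sub_const 1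
  simpa using h3

/-- differential inequality for the gap -/
theorem drift_gap_le (c : Rates d R) (hm : c.Monotone) (e : ℝ) (hT : c.TotalDrift e)
    {S : ℝ≥0 → Obs (Site d) →L[ℝ] Obs (Site d)} (hS : IsSG (gD c) S) (t : ℝ≥0) :
    S t (gD c 0) (fun _ => true) - S t (gD c 0) (fun _ => false)
      ≤ -(e * (S t (occ 0) (fun _ => true) - S t (occ 0) (fun _ => false))) := by
  set δ := S t (gD c 0) (fun _ => true) - S t (gD c 0) (fun _ => false) with hδ
  set θ := S t (occ 0) (fun _ => true) - S t (occ 0) (fun _ => false) with hθ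
  set C : ℝ := (boxF d R).card * (2 * c.K) with hC
  have hg : ∀ x b, S t (gD c x) (fun _ => b) = S t (gD c 0) (fun _ => b) := by
    intro x b
    have := (trans_const c hS x 0 b t).2
    rwa [zero_add] at this
  have ho : ∀ x b, S t (occ x) (fun _ => b) = S t (occ 0) (fun _ => b) := by
    intro x b
    have := (trans_const c hS x 0 b t).1
    rwa [zero_add] at this
  have key : ∀ n : ℕ, ((boxF d n).card : ℝ) * (δ + e * θ)
      ≤ C * (((boxF d (n + R) \ boxF d n).card : ℝ) * θ) := by
    intro n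
    have hinc := isSG_incO (sys_gD c) (mono_gD c hm) (geo_gD c) hS _ (Psi_incO c hm e hT n) t
    have hle := hinc.mono (show (fun _ : Site d => false) ≤ (fun _ => true) from
      fun _ => Bool.false_le _)
    have hval : ∀ b, S t (Psi c e n) (fun _ => b)
        = -(((boxF d n).card : ℝ) * S t (gD c 0) (fun _ => b))
          - e * (((boxF d n).card : ℝ) * S t (occ 0) (fun _ => b))
          + C * (((boxF d (n + R) \ boxF d n).card : ℝ) * S t (occ 0) (fun _ => b)) := by
      intro b
      unfold Psi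
      rw [map_add, map_sub, map_neg, map_smul, map_smul, map_sum, map_sum, map_sum]
      simp only [ContinuousMap.add_apply, ContinuousMap.sub_apply, ContinuousMap.neg_apply,
        ContinuousMap.smul_apply, ContinuousMap.coe_sum, Finset.sum_apply, smul_eq_mul, hg, ho,
        Finset.sum_const, nsmul_eq_mul]
      rw [hC]
    rw [hval, hval] at hle
    rw [hδ, hθ]
    linarith
  have hlim : Tendsto (fun n : ℕ => C * ((((boxF d (n + R) \ boxF d n).card : ℝ)
      / ((boxF d n).card : ℝ)) * θ)) atTop (𝓝 0) := by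
    have := ((ratio_tendsto d R).mul_const θ).const_mul C
    simpa using this
  have hfin : δ + e * θ ≤ 0 := by
    refine ge_of_tendsto' hlim (fun n => ?_)
    have hpos : (0 : ℝ) < ((boxF d n).card : ℝ) := by
      rw [card_box]
      positivity
    have h := key n
    rw [div_mul_eq_mul_div, mul_div_assoc', le_div_iff₀ hpos]
    linarith
  linarith

theorem total_gap (c : Rates d R) (hm : c.Monotone) (e : ℝ) (hT : c.TotalDrift e)
    {S : ℝ≥0 → Obs (Site d) →L[ℝ] Obs (Site d)} (hS : IsSG (gD c) S) (t : ℝ≥0) :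
    S t (occ 0) (fun _ => true) - S t (occ 0) (fun _ => false) ≤ Real.exp (-(e * t)) := by
  have hdep : DependsOn (occ (0 : Site d) : (Site d → Bool) → ℝ)
      (({0} : Finset (Site d)) : Set (Site d)) := occ_dependsOn 0
  have hL : LF (gD c) {0} (occ 0) = gD c 0 := by
    ext ξ
    rw [LF_apply, Finset.sum_singleton, D_occ, if_pos rfl, mul_one]
  set u : ℝ → ℝ := fun s => S s.toNNReal (occ 0) (fun _ => true)
    - S s.toNNReal (occ 0) (fun _ => false) with hu
  set u' : ℝ → ℝ := fun s => S s.toNNReal (gD c 0) (fun _ => true)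
    - S s.toNNReal (gD c 0) (fun _ => false) with hu'
  have hd : ∀ s, 0 ≤ s → HasDerivWithinAt u (u' s) (Set.Ici s) s := by
    intro s hs
    have h1 := hS.hasDerivWithinAt {0} (occ 0) hdep s hs (fun _ => true)
    have h2 := hS.hasDerivWithinAt {0} (occ 0) hdep s hs (fun _ => false)
    rw [hL] at h1 h2
    exact h1.sub h2
  have hc : ContinuousOn u (Set.Icc 0 t) := by
    have h1 : ∀ ξ : Cfg d, ContinuousOn (fun s : ℝ => S s.toNNReal (occ 0) ξ) (Set.Icc 0 t) :=
      fun ξ => ((continuous_eval_const ξ).comp_continuousOn (hS.continuousOn (occ 0))).mono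
        (fun s hs => hs.1)
    exact (h1 _).sub (h1 _)
  have hexp : ∀ s : ℝ, HasDerivAt (fun s => Real.exp (e * s)) (Real.exp (e * s) * e) s := by
    intro s
    have := ((hasDerivAt_id s).const_mul e).exp
    simpa using this
  have h0 : u 0 = 1 := by
    show S (Real.toNNReal 0) (occ 0) (fun _ => true) - S (Real.toNNReal 0) (occ 0) (fun _ => false)
      = 1
    rw [Real.toNNReal_zero, hS.zero, occ_apply, occ_apply]
    simp
  have hfin := image_le_of_deriv_right_le_deriv_boundary
    (f := fun s => Real.exp (e * s) * u s)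
    (f' := fun s => Real.exp (e * s) * e * u s + Real.exp (e * s) * u' s)
    (a := 0) (b := t) (B := fun _ => 1) (B' := fun _ => 0)
    ((Real.continuous_exp.comp (continuous_const.mul continuous_id)).continuousOn.mul hc)
    (fun s hs => (hexp s).hasDerivWithinAt.mul (hd s hs.1))
    (by simp [h0]) continuousOn_const
    (fun s _ => hasDerivWithinAt_const _ _ _)
    (fun s hs1 => by
      have h1 : u' s ≤ -(e * u s) := drift_gap_le c hm e hT hS s.toNNReal
      have h2 := mul_le_mul_of_nonneg_left h1 (Real.exp_pos (e * s)).le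
      linarith) (x := t) ⟨t.2, le_rfl⟩
  have h3 : Real.exp (e * t) * u t ≤ 1 := hfin
  have h4 : u t = S t (occ 0) (fun _ => true) - S t (occ 0) (fun _ => false) := by
    simp only [hu, Real.toNNReal_coe]
  rw [← h4, Real.exp_neg, ← one_div, le_div_iff₀ (Real.exp_pos _), mul_comm]
  exact h3

end MP1060
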